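import Pool.Agent.Work.MP_db9399_tk_helper59.Cube

/-!
# MP_db9399, all scales: smoothing of the tokens of an edge colouring by Kempe coins, part 7

Palettes of any size.
-/

set_option autoImplicit false

namespace Pool.Agent.Work.MP_db9399_tk

open Finset Classical

universe u v

section sets
variable {C : Type v} [Fintype C]

theorem card_rng (e : C ≃ Fin (Fintype.card C)) (a b : ℕ) (hb : b ≤ Fintype.card C) :
    (univ.filter (fun c : C => a ≤ (e c : ℕ) ∧ (e c : ℕ) < b)).card = b - a := by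
  rw [← Nat.card_Ico]
  refine Finset.card_bij (fun c _ => (e c : ℕ)) ?_ ?_ ?_
  · intro c hc
    exact Finset.mem_Ico.2 (Finset.mem_filter.1 hc).2
  · intro c _ c' _ h
    exact e.injective (Fin.ext h)
  · intro x hx
    rw [Finset.mem_Ico] at hx
    refine ⟨e.symm ⟨x, by omega⟩, Finset.mem_filter.2 ⟨Finset.mem_univ _, ?_⟩, ?_⟩
    · rw [Equiv.apply_symm_apply]
      exact hx
    · rw [Equiv.apply_symm_apply]

/-- three overlapping sets of `2 ^ m` colours -/
theorem three_sets (n : ℕ) (h1 : n ≤ Fintype.card C) (h2 : Fintype.card C < 2 * n) :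
    ∃ A M B : Finset C, A.card = n ∧ M.card = n ∧ B.card = n ∧ (∀ b, b ∈ A ∨ b ∈ B) ∧
      n ≤ 2 * (A ∩ M).card ∧ n ≤ 2 * (M ∩ B).card := by
  set P := Fintype.card C with hP
  let e : C ≃ Fin (Fintype.card C) := Fintype.equivFin C
  refine ⟨univ.filter (fun c : C => 0 ≤ (e c : ℕ) ∧ (e c : ℕ) < n),
    univ.filter (fun c : C => (P - n) / 2 ≤ (e c : ℕ) ∧ (e c : ℕ) < (P - n) / 2 + n),
    univ.filter (fun c : C => P - n ≤ (e c : ℕ) ∧ (e c : ℕ) < P), ?_, ?_, ?_, ?_, ?_, ?_⟩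
  · rw [card_rng e 0 n h1]
    omega
  · rw [card_rng e _ _ (by omega)]
    omega
  · rw [card_rng e _ _ le_rfl]
    omega
  · intro b
    have hb : (e b : ℕ) < P := (e b).2
    by_cases h : (e b : ℕ) < n
    · left
      exact Finset.mem_filter.2 ⟨Finset.mem_univ _, by omega, h⟩
    · right
      exact Finset.mem_filter.2 ⟨Finset.mem_univ _, by omega, hb⟩
  · have h3 := card_rng e ((P - n) / 2) n h1
    have h4 : univ.filter (fun c : C => (P - n) / 2 ≤ (e c : ℕ) ∧ (e c : ℕ) < n) ⊆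
        univ.filter (fun c : C => 0 ≤ (e c : ℕ) ∧ (e c : ℕ) < n) ∩
        univ.filter (fun c : C => (P - n) / 2 ≤ (e c : ℕ) ∧ (e c : ℕ) < (P - n) / 2 + n) := by
      intro c hc
      have := (Finset.mem_filter.1 hc).2
      rw [Finset.mem_inter, Finset.mem_filter, Finset.mem_filter]
      exact ⟨⟨Finset.mem_univ _, by omega, this.2⟩, Finset.mem_univ _, this.1, by omega⟩
    have h5 := Finset.card_le_card h4
    omega
  · have h3 := card_rng e (P - n) ((P - n) / 2 + n) (by omega)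
    have h4 : univ.filter (fun c : C => P - n ≤ (e c : ℕ) ∧ (e c : ℕ) < (P - n) / 2 + n) ⊆
        univ.filter (fun c : C => (P - n) / 2 ≤ (e c : ℕ) ∧ (e c : ℕ) < (P - n) / 2 + n) ∩
        univ.filter (fun c : C => P - n ≤ (e c : ℕ) ∧ (e c : ℕ) < P) := by
      intro c hc
      have := (Finset.mem_filter.1 hc).2
      rw [Finset.mem_inter, Finset.mem_filter, Finset.mem_filter]
      exact ⟨⟨Finset.mem_univ _, by omega, this.2⟩, Finset.mem_univ _, this.1, by omega⟩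
    have h5 := Finset.card_le_card h4
    omega

end sets

section smoothP
variable {V : Type u} [Fintype V] {C : Type v} [Fintype C]

theorem KK_eq (H : SimpleGraph V) (φ φ' : V → V → C) (h : PEC H φ) (h' : PEC H φ')
    (k : V → ℝ) : KK H φ' k = KK H φ k := by
  unfold KK
  refine Finset.sum_congr rfl fun v _ => ?_
  rw [mis_card_eq H φ φ' h h' v]

theorem sum_wtC (H : SimpleGraph V) (φ : V → V → C) (k : V → ℝ) :
    ∑ b, wt H φ k b = ∑ v, k v * ((mis H φ v).card : ℝ) := by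
  unfold wt
  rw [Finset.sum_comm]
  refine Finset.sum_congr rfl fun v _ => ?_
  rw [← Finset.sum_filter, Finset.sum_const, nsmul_eq_mul, mul_comm]
  congr 3
  ext b
  rw [Finset.mem_filter]
  exact ⟨fun h => h.2, fun h => ⟨Finset.mem_univ _, h⟩⟩

theorem wt_nonneg (H : SimpleGraph V) (φ : V → V → C) (k : V → ℝ) (hk : ∀ v, 0 ≤ k v) (b : C) :
    0 ≤ wt H φ k b := by
  refine Finset.sum_nonneg fun v _ => ?_
  split_ifs
  · exact hk v
  · exact le_rfl

/-- initial deviation -/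
theorem dev0 (H : SimpleGraph V) (φ : V → V → C) (k : V → ℝ) (K0 S : ℕ)
    (hK : ∀ v, k v ≠ 0 → (mis H φ v).card ≤ K0)
    (hS : (univ.filter (fun v => k v ≠ 0)).card ≤ S) :
    ∑ b, |wt H φ k b| ≤ Real.sqrt ((S : ℝ) * K0) * Real.sqrt (KK H φ k) := by
  have h1 : ∑ b, |wt H φ k b| ≤ ∑ v, |k v| * ((mis H φ v).card : ℝ) := by
    rw [← sum_wtC H φ fun v => |k v|]
    refine Finset.sum_le_sum fun b _ => ?_
    unfold wt
    refine (Finset.abs_sum_le_sum_abs _ _).trans (Finset.sum_le_sum fun v _ => ?_)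
    split_ifs
    · exact le_rfl
    · rw [abs_zero]
  have h2 : ∑ v, |k v| * ((mis H φ v).card : ℝ) =
      ∑ v ∈ univ.filter (fun v => k v ≠ 0), Real.sqrt ((mis H φ v).card : ℝ) *
        (|k v| * Real.sqrt ((mis H φ v).card : ℝ)) := by
    rw [Finset.sum_filter]
    refine Finset.sum_congr rfl fun v _ => ?_
    by_cases hv : k v = 0
    · rw [if_neg (not_not.2 hv), hv, abs_zero, zero_mul]
    · rw [if_pos hv]
      have := Real.mul_self_sqrt (Nat.cast_nonneg (α := ℝ) (mis H φ v).card)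
      calc |k v| * ((mis H φ v).card : ℝ) = |k v| * (Real.sqrt ((mis H φ v).card : ℝ) *
          Real.sqrt ((mis H φ v).card : ℝ)) := by rw [this]
        _ = _ := by ring
  refine h1.trans (h2.le.trans ((Real.sum_mul_le_sqrt_mul_sqrt _ _ _).trans ?_))
  refine mul_le_mul (Real.sqrt_le_sqrt ?_) (Real.sqrt_le_sqrt ?_) (Real.sqrt_nonneg _)
    (Real.sqrt_nonneg _)
  · refine (Finset.sum_le_sum (g := fun _ => (K0 : ℝ)) fun v hv => ?_).trans ?_
    · rw [Real.sq_sqrt (Nat.cast_nonneg _)]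
      exact_mod_cast hK v (Finset.mem_filter.1 hv).2
    · rw [Finset.sum_const, nsmul_eq_mul]
      exact mul_le_mul_of_nonneg_right (by exact_mod_cast hS) (Nat.cast_nonneg _)
  · unfold KK
    refine (Finset.sum_le_sum (g := fun v => k v ^ 2 * ((mis H φ v).card : ℝ))
      fun v _ => ?_).trans (Finset.sum_le_sum_of_subset_of_nonneg (Finset.subset_univ _)
      fun v _ _ => mul_nonneg (sq_nonneg _) (Nat.cast_nonneg _))
    rw [mul_pow, sq_abs, Real.sq_sqrt (Nat.cast_nonneg _)]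

theorem l1_tri (x y z : C → ℝ) (a b : ℝ) (h1 : ∑ c, |x c - y c| ≤ a)
    (h2 : ∑ c, |y c - z c| ≤ b) : ∑ c, |x c - z c| ≤ a + b := by
  refine le_trans ?_ (add_le_add h1 h2)
  rw [← Finset.sum_add_distrib]
  exact Finset.sum_le_sum fun c _ => abs_sub_le _ _ _

theorem l1_Ea (A : Finset C) (x y : C → ℝ) (a : ℝ) (h1 : ∑ c, |x c - y c| ≤ a) :
    ∑ c, |Ea A x c - Ea A y c| ≤ a := by
  have h2 := Ea_l1 A fun c => x c - y c
  simp only [Ea_sub] at h2
  exact h2.trans h1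

/-- **Token smoothing**, any number of colours. -/
theorem smoothP (H : SimpleGraph V) (φ : V → V → C) (h : PEC H φ)
    {I J' : Type u} [Fintype I] [Fintype J'] (k : I → V → ℝ) (g : J' → V → ℝ) (K0 S L : ℕ)
    (Λ : ℝ) (hC : 0 < Fintype.card C) (hK : ∀ r v, k r v ≠ 0 → (mis H φ v).card ≤ K0)
    (hK' : ∀ j v, g j v ≠ 0 → (mis H φ v).card ≤ K0)
    (hS : ∀ r, (univ.filter (fun v => k r v ≠ 0)).card ≤ S)
    (hS' : ∀ j, (univ.filter (fun v => g j v ≠ 0)).card ≤ S)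
    (hL : ∀ v, (univ.filter (fun r => k r v ≠ 0)).card ≤ L)
    (hL' : ∀ v, (univ.filter (fun j => g j v ≠ 0)).card ≤ L)
    (hg0 : ∀ j v, 0 ≤ g j v) (hg1 : ∀ j v, g j v ≤ 1) (hL1 : 1 ≤ L) (hΛ0 : 0 ≤ Λ)
    (hΛ : 32 * ((S : ℝ) * K0 + 1) * L * (Fintype.card C + 1) ≤ Real.exp Λ) :
    ∃ φ' : V → V → C, PEC H φ' ∧
      (∀ r, ∑ b, |wt H φ' (k r) b - (∑ v, k r v * ((mis H φ v).card : ℝ)) / Fintype.card C| ≤
        Real.sqrt (∑ v, k r v ^ 2 * ((mis H φ v).card : ℝ)) *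
          (301 * Real.sqrt (Fintype.card C) +
            120 * (Nat.log 2 (Fintype.card C)) * Real.sqrt Λ)) ∧
      ∀ j b, wt H φ' (g j) b ≤
        4 * (∑ v, g j v * ((mis H φ v).card : ℝ)) / Fintype.card C + 12 * Λ := by
  set P := Fintype.card C with hP
  set m := Nat.log 2 P with hm
  have hn1 : 2 ^ m ≤ P := Nat.pow_log_le_self 2 (by omega)
  have hn2 : P < 2 * 2 ^ m := by
    have := Nat.lt_pow_succ_log_self (b := 2) (by norm_num) P
    rw [pow_succ, mul_comm] at this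
    exact this
  have hn1' : (2 : ℝ) ^ m ≤ P := by exact_mod_cast hn1
  have hn2' : (P : ℝ) ≤ 2 * 2 ^ m := by exact_mod_cast hn2.le
  have hP0 : (0 : ℝ) < P := by exact_mod_cast hC
  have hn0 : 0 < 2 ^ m := by positivity
  obtain ⟨A, M, B, hA, hM, hB, hAB, hAM, hMB⟩ := three_sets (C := C) (2 ^ m) hn1 hn2
  have hΛm : 32 * ((S : ℝ) * K0 + 1) * L * (2 ^ m + 1) ≤ Real.exp Λ := by
    refine le_trans ?_ hΛ
    refine mul_le_mul_of_nonneg_left (by linarith) (by positivity)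
  set U : J' → ℝ := fun j => 2 * (∑ v, g j v * ((mis H φ v).card : ℝ)) / 2 ^ m + 12 * Λ with hU
  set N : I → ℝ := fun r => Real.sqrt (KK H φ (k r)) *
    (5 * Real.sqrt (2 ^ m) + 2 * m * Real.sqrt Λ) with hN
  have hN0 : ∀ r, 0 ≤ N r := fun r => by
    simp only [hN]
    positivity
  -- one cube
  have hcube : ∀ (ψ : V → V → C) (D X : Finset C), PEC H ψ → X.card = 2 ^ m →
      (∀ j, ∀ b ∈ D, wt H ψ (g j) b ≤ U j) → ∃ ψ' : V → V → C, PEC H ψ' ∧
      (∀ r, ∑ b, |wt H ψ' (k r) b - Ea X (wt H ψ (k r)) b| ≤ N r) ∧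
      (∀ j, ∀ b, b ∈ D ∨ b ∈ X → wt H ψ' (g j) b ≤ U j) := by
    intro ψ D X hψ hX hD
    have hmc : ∀ v, (mis H ψ v).card = (mis H φ v).card := mis_card_eq H φ ψ h hψ
    obtain ⟨ψ', hψ', h1, h2, h3⟩ := cube H ψ hψ X hX k g K0 S L Λ
      (fun r v hv => by rw [hmc v]; exact hK r v hv) (fun j v hv => by rw [hmc v]; exact hK' j v hv)
      hS hS' hL hL' hg0 hg1 hL1 hΛ0 hΛm
    have hout : ∀ (k : V → ℝ) (b : C), b ∉ X → wt H ψ' k b = wt H ψ k b := by
      intro k b hb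
      unfold wt
      refine Finset.sum_congr rfl fun v _ => ?_
      simp only [h1 b hb v]
    refine ⟨ψ', hψ', ?_, ?_⟩
    · intro r
      have h4 := h2 r
      rw [KK_eq H φ ψ h hψ (k r)] at h4
      refine le_trans (le_of_eq ?_) h4
      rw [← Finset.sum_add_sum_compl X fun b => |wt H ψ' (k r) b - Ea X (wt H ψ (k r)) b|]
      have h5 : ∑ b ∈ Xᶜ, |wt H ψ' (k r) b - Ea X (wt H ψ (k r)) b| = 0 := by
        refine Finset.sum_eq_zero fun b hb => ?_
        have hb' := Finset.mem_compl.1 hb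
        rw [hout (k r) b hb', Ea_out X _ b hb', sub_self, abs_zero]
      rw [h5, add_zero]
      refine Finset.sum_congr rfl fun b hb => ?_
      rw [Ea_in X _ b hb, hX]
      push_cast
      rfl
    · intro j b hb
      by_cases hbX : b ∈ X
      · refine (h3 j b hbX).trans ?_
        simp only [hU]
        refine add_le_add_left (div_le_div_of_nonneg_right (mul_le_mul_of_nonneg_left ?_
          (by norm_num)) (by positivity)) _
        calc ∑ c ∈ X, wt H ψ (g j) c ≤ ∑ c, wt H ψ (g j) c :=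
              Finset.sum_le_sum_of_subset_of_nonneg (Finset.subset_univ _)
                fun c _ _ => wt_nonneg H ψ (g j) (hg0 j) c
          _ = ∑ v, g j v * ((mis H φ v).card : ℝ) := by
            rw [sum_wtC]
            refine Finset.sum_congr rfl fun v _ => ?_
            rw [hmc v]
      · rw [hout (g j) b hbX]
        exact hD j b (hb.resolve_right hbX)
  -- one round
  have hround : ∀ ψ : V → V → C, PEC H ψ → ∃ ψ' : V → V → C, PEC H ψ' ∧
      (∀ r, ∑ b, |wt H ψ' (k r) b - Q5 A M B (wt H ψ (k r)) b| ≤ 5 * N r) ∧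
      (∀ j, ∀ b, wt H ψ' (g j) b ≤ U j) := by
    intro ψ hψ
    obtain ⟨ψ1, p1, q1, r1⟩ := hcube ψ ∅ A hψ hA
      (fun j b hb => absurd hb (Finset.notMem_empty _))
    obtain ⟨ψ2, p2, q2, r2⟩ := hcube ψ1 A M p1 hM (fun j b hb => r1 j b (Or.inr hb))
    obtain ⟨ψ3, p3, q3, r3⟩ := hcube ψ2 A B p2 hB (fun j b hb => r2 j b (Or.inl hb))
    have r3' : ∀ j, ∀ b ∈ (univ : Finset C), wt H ψ3 (g j) b ≤ U j := fun j b _ =>
      r3 j b (hAB b)
    obtain ⟨ψ4, p4, q4, r4⟩ := hcube ψ3 univ M p3 hM r3'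
    obtain ⟨ψ5, p5, q5, r5⟩ := hcube ψ4 univ A p4 hA
      (fun j b hb => r4 j b (Or.inl hb))
    refine ⟨ψ5, p5, fun r => ?_, fun j b => r5 j b (Or.inl (Finset.mem_univ b))⟩
    have s2 := l1_tri _ _ _ _ _ (q2 r) (l1_Ea M _ _ _ (q1 r))
    have s3 := l1_tri _ _ _ _ _ (q3 r) (l1_Ea B _ _ _ s2)
    have s4 := l1_tri _ _ _ _ _ (q4 r) (l1_Ea M _ _ _ s3)
    have s5 := l1_tri _ _ _ _ _ (q5 r) (l1_Ea A _ _ _ s4)
    refine s5.trans (le_of_eq ?_)
    ring
  -- many rounds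
  set W : I → ℝ := fun r => (∑ v, k r v * ((mis H φ v).card : ℝ)) / P with hW
  have hmass : ∀ (ψ : V → V → C), PEC H ψ → ∀ r, ∑ c, (wt H ψ (k r) c - W r) = 0 := by
    intro ψ hψ r
    rw [Finset.sum_sub_distrib, sum_wtC, Finset.sum_const, Finset.card_univ, nsmul_eq_mul, ← hP]
    have h1 : ∑ v, k r v * ((mis H ψ v).card : ℝ) = ∑ v, k r v * ((mis H φ v).card : ℝ) := by
      refine Finset.sum_congr rfl fun v _ => ?_
      rw [mis_card_eq H φ ψ h hψ v]
    rw [h1]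
    simp only [hW]
    field_simp
    ring
  have hrounds : ∀ R : ℕ, ∃ ψ : V → V → C, PEC H ψ ∧
      (∀ r, ∑ b, |wt H ψ (k r) b - W r| ≤
        (11 / 12) ^ R * (2 * (Real.sqrt ((S : ℝ) * K0) * Real.sqrt (KK H φ (k r)))) +
          60 * N r) ∧ (R ≠ 0 → ∀ j b, wt H ψ (g j) b ≤ U j) := by
    intro R
    induction R with
    | zero =>
      refine ⟨φ, h, fun r => ?_, fun h0 => absurd rfl h0⟩
      rw [pow_zero, one_mul]
      have h1 := dev0 H φ (k r) K0 S (hK r) (hS r)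
      have h2 : ∑ _b : C, |W r| ≤ Real.sqrt ((S : ℝ) * K0) * Real.sqrt (KK H φ (k r)) := by
        refine le_trans ?_ h1
        rw [Finset.sum_const, Finset.card_univ, nsmul_eq_mul, ← hP]
        simp only [hW]
        rw [abs_div, Nat.abs_cast, ← sum_wtC]
        rw [mul_div_cancel₀ _ hP0.ne']
        exact Finset.abs_sum_le_sum_abs _ _
      have h3 : ∑ b, |wt H φ (k r) b - W r| ≤ ∑ b, |wt H φ (k r) b| + ∑ _b : C, |W r| := by
        rw [← Finset.sum_add_distrib]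
        exact Finset.sum_le_sum fun b _ => abs_sub _ _
      have := hN0 r
      linarith
    | succ R ih =>
      obtain ⟨ψ, hψ, h1, h2⟩ := ih
      obtain ⟨ψ', hψ', h3, h4⟩ := hround ψ hψ
      refine ⟨ψ', hψ', fun r => ?_, fun _ => h4⟩
      have h5 := Q5_contr A M B (2 ^ m) hn0 hA hM hB hAB hAM hMB
        (fun c => wt H ψ (k r) c - W r) (hmass ψ hψ r)
      have h6 : ∀ b, Q5 A M B (fun c => wt H ψ (k r) c - W r) b =
          Q5 A M B (wt H ψ (k r)) b - W r := by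
        intro b
        have h7 := congrFun (Q5_sub A M B (wt H ψ (k r)) fun _ => W r) b
        rw [h7]
        simp only [Q5_const]
      simp only [h6] at h5
      have h8 := l1_tri _ _ _ _ _ (h3 r) h5
      refine h8.trans ?_
      have h9 := h1 r
      rw [pow_succ]
      linarith
  obtain ⟨R, hR⟩ : ∃ R : ℕ, (11 / 12 : ℝ) ^ R * (2 * Real.sqrt ((S : ℝ) * K0)) ≤ 1 := by
    obtain ⟨R, hR⟩ := exists_pow_lt_of_lt_one (y := (11 / 12 : ℝ))
      (x := 1 / (2 * Real.sqrt ((S : ℝ) * K0) + 1)) (by positivity) (by norm_num)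
    refine ⟨R, ?_⟩
    have h1 := mul_le_mul_of_nonneg_right hR.le
      (by positivity : 0 ≤ 2 * Real.sqrt ((S : ℝ) * K0))
    refine h1.trans ?_
    rw [div_mul_eq_mul_div, one_mul, div_le_one (by positivity)]
    linarith
  obtain ⟨ψ, hψ, h1, h2⟩ := hrounds (R + 1)
  have hm0 : (0 : ℝ) ≤ m := Nat.cast_nonneg _
  refine ⟨ψ, hψ, fun r => ?_, fun j b => ?_⟩
  · refine (h1 r).trans ?_
    have hs := Real.sqrt_nonneg (KK H φ (k r))
    have hsP : Real.sqrt (2 ^ m) ≤ Real.sqrt P := Real.sqrt_le_sqrt hn1'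
    have hsP1 : 1 ≤ Real.sqrt P := by
      rw [Real.one_le_sqrt]
      exact_mod_cast hC
    have h3 : (11 / 12 : ℝ) ^ (R + 1) * (2 * (Real.sqrt ((S : ℝ) * K0) *
        Real.sqrt (KK H φ (k r)))) ≤ 1 * Real.sqrt (KK H φ (k r)) := by
      have h4 : (11 / 12 : ℝ) ^ (R + 1) * (2 * Real.sqrt ((S : ℝ) * K0)) ≤ 1 := by
        refine le_trans ?_ hR
        refine mul_le_mul_of_nonneg_right ?_ (by positivity)
        exact pow_le_pow_of_le_one (by norm_num) (by norm_num) (Nat.le_succ R)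
      have h5 := mul_le_mul_of_nonneg_right h4 hs
      refine le_trans (le_of_eq ?_) h5
      ring
    refine (add_le_add_left h3 _).trans ?_
    have h6 : (∑ v, k r v ^ 2 * ((mis H φ v).card : ℝ)) = KK H φ (k r) := rfl
    rw [h6]
    simp only [hN]
    have h7 : 1 * Real.sqrt (KK H φ (k r)) + 60 * (Real.sqrt (KK H φ (k r)) *
        (5 * Real.sqrt (2 ^ m) + 2 * m * Real.sqrt Λ)) = Real.sqrt (KK H φ (k r)) *
        (1 + 300 * Real.sqrt (2 ^ m) + 120 * m * Real.sqrt Λ) := by ring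
    rw [h7]
    refine mul_le_mul_of_nonneg_left ?_ hs
    linarith
  · refine (h2 (Nat.succ_ne_zero R) j b).trans ?_
    simp only [hU]
    have hG0 : 0 ≤ ∑ v, g j v * ((mis H φ v).card : ℝ) :=
      Finset.sum_nonneg fun v _ => mul_nonneg (hg0 j v) (Nat.cast_nonneg _)
    refine add_le_add_left ?_ _
    rw [div_le_div_iff₀ (by positivity) hP0]
    nlinarith

end smoothP

end Pool.Agent.Work.MP_db9399_tk
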