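import Pool.Agent.Work.MP_db9399_tk_helper59.Level

/-!
# MP_db9399, all scales: smoothing of the tokens of an edge colouring by Kempe coins, part 4

One level: the application of the local lemma.
-/

set_option autoImplicit false

namespace Pool.Agent.Work.MP_db9399_tk

open Finset Classical

open Pool.Agent.Work.MP_db9399_all (pr DepOnI PackI stmt_LLLI)

universe u v

section generic

theorem pr_zero {Ω : Type u} [Fintype Ω] (E : Ω → Prop) (hE : ∀ ω, ¬ E ω) : pr E = 0 := by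
  unfold pr
  rw [Finset.filter_false_of_mem fun f _ => hE f, Finset.card_empty, Nat.cast_zero, zero_div]

theorem dep_sum {J : Type u} [Fintype J] (Q : Finset J) (c : J → ℝ) (hc : ∀ p, p ∉ Q → c p = 0)
    (f f' : J → Fin 2) (hf : ∀ y ∈ Q, f y = f' y) :
    ∑ p, sg (f p) * c p = ∑ p, sg (f' p) * c p := by
  refine Finset.sum_congr rfl fun p _ => ?_
  by_cases hp : p ∈ Q
  · rw [hf p hp]
  · rw [hc p hp, mul_zero, mul_zero]

/-- package for a family of Rademacher sums -/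
theorem packT {J : Type u} [Fintype J] {N : Type v} [Fintype N] (T W E0 s t : ℝ) (Q : Finset J)
    (c : N → J → ℝ) (hc : ∀ τ p, p ∉ Q → c τ p = 0) (hc2 : ∀ τ, ∑ p, c τ p ^ 2 ≤ s)
    (hs : 0 ≤ s) (ht0 : 0 ≤ t) (hE0 : 0 ≤ E0)
    (ht : 0 < s → (Fintype.card N : ℝ) * Real.exp (-(t ^ 2 / (2 * s))) ≤ E0)
    (hW : E0 * 2 ≤ W) (hexp : Real.exp (2 * T * (Q.card : ℝ)) ≤ 2) :
    PackI T Q W (fun f : J → Fin 2 => ¬ ∃ τ, t < ∑ p, sg (f p) * c τ p) := by
  refine mkpack T W Q (fun f : J → Fin 2 => ∃ τ, t < ∑ p, sg (f p) * c τ p) ?_ ?_ ?_ ?_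
  · intro f f' hff
    refine propext (exists_congr fun τ => ?_)
    rw [dep_sum Q (c τ) (hc τ) f f' hff]
  · linarith
  · refine (mul_le_mul (b := E0) ?_ hexp (Real.exp_pos _).le hE0).trans hW
    rcases hs.eq_or_lt with h0 | h0
    · refine le_trans (le_of_eq ?_) hE0
      have h1 : ∀ τ, ∀ p, c τ p = 0 := by
        intro τ p
        have h2 := hc2 τ
        rw [← h0] at h2
        have h3 := (Finset.sum_eq_zero_iff_of_nonneg fun p _ => sq_nonneg _).1
          (le_antisymm h2 (Finset.sum_nonneg fun p _ => sq_nonneg _)) p (Finset.mem_univ _)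
        exact pow_eq_zero_iff (two_ne_zero) |>.1 h3
      have h2 : ∀ f : J → Fin 2, ¬ ∃ τ, t < ∑ p, sg (f p) * c τ p := by
        rintro f ⟨τ, hτ⟩
        rw [Finset.sum_eq_zero fun p _ => by rw [h1 τ p, mul_zero]] at hτ
        exact absurd hτ (not_lt.2 ht0)
      exact pr_zero (fun f : J → Fin 2 => ∃ τ, t < ∑ p, sg (f p) * c τ p) h2
    · refine (pr_exists (fun f : J → Fin 2 => ∃ τ, t < ∑ p, sg (f p) * c τ p)
        (fun (τ : N) (f : J → Fin 2) => t < ∑ p, sg (f p) * c τ p) (fun f hf => hf)).trans ?_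
      refine (Finset.sum_le_sum fun τ _ => hoeff (c τ) t s h0 ht0 (hc2 τ)).trans ?_
      rw [Finset.sum_const, Finset.card_univ, nsmul_eq_mul]
      exact ht h0
  · rintro hQ f ⟨τ, hτ⟩
    rw [Finset.sum_eq_zero fun p _ => by
      rw [hc τ p (by rw [hQ]; exact Finset.notMem_empty _), mul_zero]] at hτ
    exact absurd hτ (not_lt.2 ht0)

/-- local lemma for two families of packages -/
theorem lll2 {J I K : Type u} [Fintype J] [Fintype I] [Fintype K] (Q1 : I → Finset J)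
    (Q2 : K → Finset J) (P1 : I → (J → Fin 2) → Prop) (P2 : K → (J → Fin 2) → Prop) (T W : ℝ)
    (D1 D2 : ℕ) (hT0 : 0 ≤ T) (hT1 : T ≤ 1 / 4) (hW0 : 0 ≤ W)
    (h1 : ∀ r, PackI T (Q1 r) W (P1 r)) (h2 : ∀ r, PackI T (Q2 r) W (P2 r))
    (hD1 : ∀ p, ∀ s : Finset I, (∀ r ∈ s, p ∈ Q1 r) → s.card ≤ D1)
    (hD2 : ∀ p, ∀ s : Finset K, (∀ r ∈ s, p ∈ Q2 r) → s.card ≤ D2)
    (hW : ((D1 : ℝ) + D2) * W ≤ T) : ∃ f : J → Fin 2, (∀ r, P1 r f) ∧ ∀ r, P2 r f := by
  obtain ⟨f, hf⟩ := stmt_LLLI.{u} J 2 (I ⊕ K) T (fun x => Sum.elim Q1 Q2 x) (fun _ => W)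
    (fun x f => Sum.elim (fun r => P1 r f) (fun r => P2 r f) x) (by norm_num) hT0 hT1 (by
      rintro (r | r)
      · exact h1 r
      · exact h2 r) (by
      intro p
      rw [Finset.sum_const, nsmul_eq_mul]
      refine le_trans (mul_le_mul_of_nonneg_right ?_ hW0) hW
      have h3 : (univ.filter (fun x : I ⊕ K => p ∈ Sum.elim Q1 Q2 x)).card ≤
          (univ.filter (fun r => p ∈ Q1 r)).card + (univ.filter (fun r => p ∈ Q2 r)).card := by
        rw [← Finset.card_disjSum]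
        refine Finset.card_le_card ?_
        rintro (r | r) hx
        · rw [Finset.inl_mem_disjSum]
          exact Finset.mem_filter.2 ⟨Finset.mem_univ _, (Finset.mem_filter.1 hx).2⟩
        · rw [Finset.inr_mem_disjSum]
          exact Finset.mem_filter.2 ⟨Finset.mem_univ _, (Finset.mem_filter.1 hx).2⟩
      have h4 := hD1 p (univ.filter (fun r => p ∈ Q1 r)) fun r hr => (Finset.mem_filter.1 hr).2
      have h5 := hD2 p (univ.filter (fun r => p ∈ Q2 r)) fun r hr => (Finset.mem_filter.1 hr).2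
      exact_mod_cast h3.trans (Nat.add_le_add h4 h5))
  exact ⟨f, fun r => hf (Sum.inl r), fun r => hf (Sum.inr r)⟩

theorem exp_half : Real.exp (1 / 2) ≤ 2 := by
  have h4 : Real.exp (1 / 2) ^ 2 = Real.exp 1 := by
    rw [← Real.exp_nat_mul]
    norm_num
  have h5 := Real.exp_one_lt_d9
  have h6 : Real.exp (1 / 2) ^ 2 ≤ 2 ^ 2 := by
    rw [h4]
    linarith
  exact (pow_le_pow_iff_left₀ (Real.exp_pos _).le (by norm_num) two_ne_zero).1 h6

end generic

section step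
variable {V : Type u} [Fintype V] {m : ℕ}

theorem K2_nonneg (H : SimpleGraph V) (φ : V → V → Cl m) (k : V → ℝ) : 0 ≤ K2 H φ k :=
  Finset.sum_nonneg fun _ _ => mul_nonneg (sq_nonneg _) (Nat.cast_nonneg _)

theorem cs_nonneg (H : SimpleGraph V) (φ : V → V → Cl m) (k : V → ℝ) (hk : ∀ v, 0 ≤ k v) (i : ℕ)
    (a : Cl m) : 0 ≤ cs H φ k i a := by
  refine Finset.sum_nonneg fun b _ => ?_
  rw [wt_eq]
  exact Finset.sum_nonneg fun v _ => mul_nonneg (hk v) (xm_nonneg _ _ _ _)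

theorem cT_zero (i : Fin m) (H : SimpleGraph V) (φ : V → V → Cl m) (h : PEC H φ)
    (k : V → ℝ) (τ : (Fin (i : ℕ) → Bool) → Bool) (p : Cl m × V) (hp : p ∉ QT i H φ h k) :
    cT i H φ h k τ p = 0 := by
  unfold cT
  split_ifs with hb
  · rw [cf_zero i H φ h k p hp hb, mul_zero]
  · rfl

theorem cY_zero (i : Fin m) (H : SimpleGraph V) (φ : V → V → Cl m) (h : PEC H φ)
    (k : V → ℝ) (a : Cl m) (p : Cl m × V) (hp : p ∉ QT i H φ h k) :
    cY i H φ h k a p = 0 := by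
  unfold cY
  split_ifs with hb
  · rw [cf_zero i H φ h k p hp hb.1]
  · rfl

/-- the event of a real test function -/
def ET (i : Fin m) (H : SimpleGraph V) (φ : V → V → Cl m) (h : PEC H φ) (k : V → ℝ) (Λ : ℝ)
    (f : Cl m × V → Fin 2) : Prop :=
  ∃ τ, Real.sqrt (4 * K2 H φ k * (2 ^ (i : ℕ) * Real.log 2 + Λ)) <
    ∑ p, sg (f p) * cT i H φ h k τ p

/-- the event of a class -/
def EY (i : Fin m) (H : SimpleGraph V) (φ : V → V → Cl m) (h : PEC H φ) (k : V → ℝ) (Λ : ℝ)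
    (a : Cl m) (f : Cl m × V → Fin 2) : Prop :=
  ∃ τ : Bool, 2 * Real.sqrt (Λ * cs H φ k i a) <
    ∑ p, sg (f p) * ((if τ = true then 1 else -1) * cY i H φ h k a p)

theorem pack_ET (i : Fin m) (H : SimpleGraph V) (φ : V → V → Cl m) (h : PEC H φ) (k : V → ℝ)
    (Λ T W : ℝ) (hΛ : 0 ≤ Λ) (hexp : Real.exp (2 * T * ((QT i H φ h k).card : ℝ)) ≤ 2)
    (hW : 4 * Real.exp (-Λ) ≤ W) : PackI T (QT i H φ h k) W (fun f => ¬ ET i H φ h k Λ f) := by
  have hK := K2_nonneg H φ k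
  have hlog : 0 < Real.log 2 := Real.log_pos (by norm_num)
  have hA : 0 ≤ 2 ^ (i : ℕ) * Real.log 2 + Λ := by positivity
  have hpos := Real.exp_pos (-Λ)
  refine packT T W (Real.exp (-Λ)) (2 * K2 H φ k)
    (Real.sqrt (4 * K2 H φ k * (2 ^ (i : ℕ) * Real.log 2 + Λ))) (QT i H φ h k)
    (fun τ => cT i H φ h k τ) (fun τ p hp => cT_zero i H φ h k τ p hp)
    (fun τ => cT_sq i H φ h k τ) (by linarith) (Real.sqrt_nonneg _) hpos.le ?_
    (by linarith) hexp
  intro h0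
  rw [Real.sq_sqrt (by positivity)]
  have h2 : (Fintype.card ((Fin (i : ℕ) → Bool) → Bool) : ℝ) =
      Real.exp (2 ^ (i : ℕ) * Real.log 2) := by
    rw [Fintype.card_fun, Fintype.card_fun, Fintype.card_bool, Fintype.card_fin]
    push_cast
    rw [mul_comm, Real.exp_mul, Real.exp_log (by norm_num)]
    norm_cast
  rw [h2, ← Real.exp_add]
  refine Real.exp_le_exp.2 (le_of_eq ?_)
  have h3 : K2 H φ k ≠ 0 := by
    intro h4
    rw [h4] at h0
    simp at h0
  field_simp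
  ring

theorem pack_EY (i : Fin m) (H : SimpleGraph V) (φ : V → V → Cl m) (h : PEC H φ) (k : V → ℝ)
    (Λ T W : ℝ) (hΛ : 0 ≤ Λ) (hk0 : ∀ v, 0 ≤ k v) (hk1 : ∀ v, k v ≤ 1) (a : Cl m)
    (hexp : Real.exp (2 * T * ((QT i H φ h k).card : ℝ)) ≤ 2)
    (hW : 4 * Real.exp (-Λ) ≤ W) : PackI T (QT i H φ h k) W (fun f => ¬ EY i H φ h k Λ a f) := by
  have hM := cs_nonneg H φ k hk0 i a
  have hpos := Real.exp_pos (-Λ)
  refine packT T W (2 * Real.exp (-Λ)) (2 * cs H φ k i a)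
    (2 * Real.sqrt (Λ * cs H φ k i a)) (QT i H φ h k)
    (fun τ p => (if τ = true then 1 else -1) * cY i H φ h k a p)
    (fun τ p hp => by rw [cY_zero i H φ h k a p hp, mul_zero])
    (fun τ => ?_) (by linarith) (by positivity) (by linarith) ?_
    (by linarith) hexp
  · refine (le_of_eq ?_).trans (cY_sq i H φ h k a hk0 hk1)
    refine Finset.sum_congr rfl fun p _ => ?_
    cases τ <;> simp
  · intro h0
    rw [mul_pow, Real.sq_sqrt (by positivity), Fintype.card_bool, Nat.cast_ofNat]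
    refine mul_le_mul_of_nonneg_left (Real.exp_le_exp.2 (le_of_eq ?_)) (by norm_num)
    have h3 : cs H φ k i a ≠ 0 := by
      intro h4
      rw [h4] at h0
      simp at h0
    field_simp

/-- one level -/
theorem level (i : Fin m) (H : SimpleGraph V) (φ : V → V → Cl m) (h : PEC H φ)
    {I J' : Type u} [Fintype I] [Fintype J'] (k : I → V → ℝ) (g : J' → V → ℝ) (K0 S L : ℕ)
    (Λ : ℝ) (hK : ∀ r v, k r v ≠ 0 → (mis H φ v).card ≤ K0)
    (hK' : ∀ j v, g j v ≠ 0 → (mis H φ v).card ≤ K0)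
    (hS : ∀ r, (univ.filter (fun v => k r v ≠ 0)).card ≤ S)
    (hS' : ∀ j, (univ.filter (fun v => g j v ≠ 0)).card ≤ S)
    (hL : ∀ v, (univ.filter (fun r => k r v ≠ 0)).card ≤ L)
    (hL' : ∀ v, (univ.filter (fun j => g j v ≠ 0)).card ≤ L)
    (hg0 : ∀ j v, 0 ≤ g j v) (hg1 : ∀ j v, g j v ≤ 1) (hL1 : 1 ≤ L) (hΛ0 : 0 ≤ Λ)
    (hΛ : 32 * ((S : ℝ) * K0 + 1) * L * (2 ^ m + 1) ≤ Real.exp Λ) :
    ∃ f : Cl m × V → Fin 2,
      (∀ r, ∑ a, |cs H (nw i H φ h f) (k r) (i + 1) a - 1 / 2 * cs H φ (k r) i a| ≤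
        2 ^ m / 2 ^ ((i : ℕ) + 1) *
          Real.sqrt (4 * K2 H φ (k r) * (2 ^ (i : ℕ) * Real.log 2 + Λ))) ∧
      ∀ j a, |cs H (nw i H φ h f) (g j) (i + 1) a - 1 / 2 * cs H φ (g j) i a| ≤
        Real.sqrt (Λ * cs H φ (g j) i a) := by
  set T : ℝ := 1 / (4 * ((S : ℝ) * K0 + 1)) with hT
  set W : ℝ := T / (2 * L * (2 ^ m + 1)) with hW
  have hSK : (1 : ℝ) ≤ (S : ℝ) * K0 + 1 := by
    have : (0 : ℝ) ≤ (S : ℝ) * K0 := by positivity
    linarith
  have hT0 : 0 ≤ T := by positivity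
  have hT1 : T ≤ 1 / 4 := by
    rw [hT]
    refine one_div_le_one_div_of_le (by norm_num) ?_
    linarith
  have hL0 : (0 : ℝ) < L := by exact_mod_cast hL1
  have hW4 : 4 * Real.exp (-Λ) ≤ W := by
    have h1 : W = 1 / (8 * ((S : ℝ) * K0 + 1) * L * (2 ^ m + 1)) := by
      rw [hW, hT]
      field_simp
      ring
    rw [h1, Real.exp_neg, le_div_iff₀ (by positivity)]
    have h2 := Real.exp_pos Λ
    rw [← div_eq_mul_inv, div_mul_eq_mul_div, div_le_one h2]
    linarith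
  have hW0 : 0 ≤ W := by positivity
  have hexp : ∀ Q : Finset (Cl m × V), Q.card ≤ S * K0 → Real.exp (2 * T * (Q.card : ℝ)) ≤ 2 := by
    intro Q hQ
    have h1 : (Q.card : ℝ) ≤ (S : ℝ) * K0 := by exact_mod_cast hQ
    have h2 : 2 * T * (Q.card : ℝ) ≤ 1 / 2 := by
      rw [hT]
      have h3 : 2 * (1 / (4 * ((S : ℝ) * K0 + 1))) * (Q.card : ℝ) =
          (Q.card : ℝ) / (2 * ((S : ℝ) * K0 + 1)) := by
        field_simp
        ring
      rw [h3, div_le_iff₀ (by positivity)]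
      linarith
    exact (Real.exp_le_exp.2 h2).trans exp_half
  obtain ⟨f, hf1, hf2⟩ := lll2 (fun r => QT i H φ h (k r))
    (fun y : J' × Cl m => QT i H φ h (g y.1)) (fun r f => ¬ ET i H φ h (k r) Λ f)
    (fun y f => ¬ EY i H φ h (g y.1) Λ y.2 f) T W (2 * L) (2 * L * 2 ^ m) hT0 hT1 hW0
    (fun r => pack_ET i H φ h (k r) Λ T W hΛ0
      (hexp _ (QT_card i H φ h (k r) K0 S (hK r) (hS r))) hW4)
    (fun y => pack_EY i H φ h (g y.1) Λ T W hΛ0 (hg0 y.1) (hg1 y.1) y.2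
      (hexp _ (QT_card i H φ h (g y.1) K0 S (hK' y.1) (hS' y.1))) hW4)
    (fun p s hs => by
      refine (Finset.card_le_card ?_).trans (QT_deg i H φ h k L hL p)
      intro r hr
      exact Finset.mem_filter.2 ⟨Finset.mem_univ _, hs r hr⟩)
    (fun p s hs => by
      have h5 : (univ : Finset (Cl m)).card = 2 ^ m := by
        rw [Finset.card_univ, Fintype.card_fun, Fintype.card_bool, Fintype.card_fin]
      have h6 := Nat.mul_le_mul_right (2 ^ m) (QT_deg i H φ h g L hL' p)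
      rw [← h5, ← Finset.card_product, h5] at h6
      refine (Finset.card_le_card ?_).trans h6
      intro y hy
      exact Finset.mem_product.2 ⟨Finset.mem_filter.2 ⟨Finset.mem_univ _, hs y hy⟩,
        Finset.mem_univ _⟩)
    (by
      have h1 : (((2 * L : ℕ) : ℝ) + ((2 * L * 2 ^ m : ℕ) : ℝ)) = 2 * L * (2 ^ m + 1) := by
        push_cast
        ring
      rw [h1, hW]
      refine le_of_eq ?_
      field_simp)
  refine ⟨f, fun r => ?_, fun j a => ?_⟩
  · have h1 := hf1 r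
    obtain ⟨τ, hτ⟩ := exists_sign i H φ h f (k r)
    have h2 := sum_abs_Zc i H φ h f (k r) τ hτ
    have h3 : ∑ p, sg (f p) * cT i H φ h (k r) τ p ≤
        Real.sqrt (4 * K2 H φ (k r) * (2 ^ (i : ℕ) * Real.log 2 + Λ)) :=
      not_lt.1 fun h4 => h1 ⟨τ, h4⟩
    rw [Finset.sum_congr rfl fun a _ => cs_diff i H φ h f (k r) a, ← Finset.mul_sum, h2,
      pow_succ, ← mul_assoc]
    have h5 : 1 / 2 * ((2 : ℝ) ^ m / 2 ^ (i : ℕ)) = 2 ^ m / (2 ^ (i : ℕ) * 2) := by
      field_simp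
    rw [h5]
    exact mul_le_mul_of_nonneg_left h3 (by positivity)
  · have h1 := hf2 (j, a)
    have h2 : ∀ τ : Bool, ∑ p, sg (f p) * ((if τ = true then 1 else -1) * cY i H φ h (g j) a p) ≤
        2 * Real.sqrt (Λ * cs H φ (g j) i a) := fun τ => not_lt.1 fun h4 => h1 ⟨τ, h4⟩
    have h3 : ∀ c : ℝ, ∑ p, sg (f p) * (c * cY i H φ h (g j) a p) = c * Zc i H φ h f (g j) a := by
      intro c
      rw [Zc_cY, Finset.mul_sum]
      exact Finset.sum_congr rfl fun p _ => by ring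
    have h4 := h2 true
    have h5 := h2 false
    rw [h3] at h4 h5
    rw [if_pos rfl] at h4
    rw [if_neg (by decide)] at h5
    rw [cs_diff]
    have h6 : |Zc i H φ h f (g j) a| ≤ 2 * Real.sqrt (Λ * cs H φ (g j) i a) :=
      abs_le.2 ⟨by linarith, by linarith⟩
    linarith

end step

end Pool.Agent.Work.MP_db9399_tk
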