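import Pool.Agent.Work.MP_db9399_tk_helper59.Step2

/-!
# MP_db9399, all scales: smoothing by Kempe coins, version with covered vertices, part 2

Palettes of any size.
-/

set_option autoImplicit false

namespace Pool.Agent.Work.MP_db9399_tk

open Finset Classical

universe u v

section cube2
variable {V : Type u} [Fintype V] {C : Type v} [Fintype C]

theorem sum_wc {m : ℕ} (H : SimpleGraph V) (φ : V → V → Cl m) (h : PEC H φ) (k : V → ℝ) :
    ∑ b, wc H φ k b = ∑ v, k v * ((univ.filter (fun w => H.Adj v w)).card : ℝ) := by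
  rw [← cc_zero H φ h k (fun _ => false)]
  unfold cc
  rw [Finset.filter_true_of_mem fun b _ => ag_zero _ b]

theorem sum_wcC (H : SimpleGraph V) (φ : V → V → C) (h : PEC H φ) (k : V → ℝ) :
    ∑ b, wc H φ k b = ∑ v, k v * ((univ.filter (fun w => H.Adj v w)).card : ℝ) := by
  rw [Finset.sum_congr rfl fun b _ => wc_eq' H φ k b, Finset.sum_sub_distrib, sum_wtC,
    Finset.sum_const, nsmul_eq_mul, Finset.mul_sum, ← Finset.sum_sub_distrib]
  refine Finset.sum_congr rfl fun v _ => ?_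
  have h1 := card_mis H φ h v
  have h3 : ((mis H φ v).card : ℝ) + ((univ.filter (fun w => H.Adj v w)).card : ℝ) =
      Fintype.card C := by
    exact_mod_cast h1
  rw [Finset.card_univ, ← h3]
  ring

theorem cube2 {m : ℕ} (H : SimpleGraph V) (φ : V → V → C) (h : PEC H φ) (A : Finset C)
    (hA : A.card = 2 ^ m)
    {I J1 J2 : Type u} [Fintype I] [Fintype J1] [Fintype J2] (k : I → V → ℝ) (g : J1 → V → ℝ)
    (q : J2 → V → ℝ) (K0 S L : ℕ)
    (Λ : ℝ) (hK : ∀ r v, k r v ≠ 0 → (mis H φ v).card ≤ K0)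
    (hK1 : ∀ j v, g j v ≠ 0 → (mis H φ v).card ≤ K0)
    (hK2 : ∀ j v, q j v ≠ 0 → (mis H φ v).card ≤ K0)
    (hS : ∀ r, (univ.filter (fun v => k r v ≠ 0)).card ≤ S)
    (hS1 : ∀ j, (univ.filter (fun v => g j v ≠ 0)).card ≤ S)
    (hS2 : ∀ j, (univ.filter (fun v => q j v ≠ 0)).card ≤ S)
    (hL : ∀ v, (univ.filter (fun r => k r v ≠ 0)).card ≤ L)
    (hL1 : ∀ v, (univ.filter (fun j => g j v ≠ 0)).card ≤ L)
    (hL2 : ∀ v, (univ.filter (fun j => q j v ≠ 0)).card ≤ L)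
    (hg0 : ∀ j v, 0 ≤ g j v) (hg1 : ∀ j v, g j v ≤ 1)
    (hq0 : ∀ j v, 0 ≤ q j v) (hq1 : ∀ j v, q j v ≤ 1) (hL0 : 1 ≤ L) (hΛ0 : 0 ≤ Λ)
    (hΛ : 64 * ((S : ℝ) * K0 + 1) * L * (2 ^ m + 1) ≤ Real.exp Λ) :
    ∃ φ' : V → V → C, PEC H φ' ∧ (∀ b, b ∉ A → ∀ v, b ∈ mis H φ' v ↔ b ∈ mis H φ v) ∧
      (∀ r, ∑ b ∈ A, |wt H φ' (k r) b - (∑ c ∈ A, wt H φ (k r) c) / 2 ^ m| ≤
        Real.sqrt (KK H φ (k r)) * (5 * Real.sqrt (2 ^ m) + 2 * m * Real.sqrt Λ)) ∧
      (∀ j, ∀ b ∈ A, wt H φ' (g j) b ≤ 2 * ((∑ c ∈ A, wt H φ (g j) c) / 2 ^ m) + 12 * Λ) ∧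
      ∀ j, ∀ b ∈ A, wc H φ' (q j) b ≤ 2 * ((∑ c ∈ A, wc H φ (q j) c) / 2 ^ m) + 12 * Λ := by
  have hcard : Fintype.card (Cl m) = Fintype.card A := by
    rw [Fintype.card_fun, Fintype.card_bool, Fintype.card_fin, Fintype.card_coe, hA]
  obtain ⟨e⟩ : Nonempty (Cl m ≃ A) := ⟨Fintype.equivOfCardEq hcard⟩
  set He := sbg H φ h A with hHe
  have hadj : ∀ v w, He.Adj v w ↔ H.Adj v w ∧ φ v w ∈ A := fun v w => Iff.rfl
  let φe : V → V → Cl m := fun v w =>
    if h : φ v w ∈ A then e.symm ⟨φ v w, h⟩ else fun _ => false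
  have hφe : ∀ v w, He.Adj v w → ((e (φe v w) : A) : C) = φ v w := by
    intro v w hvw
    have h1 : φ v w ∈ A := ((hadj v w).1 hvw).2
    simp only [φe, dif_pos h1, Equiv.apply_symm_apply]
  have hpe : PEC He φe := by
    constructor
    · intro v w
      simp only [φe, h.sym v w]
    · intro v w w' hw hw' he
      refine h.inj v w w' ((hadj v w).1 hw).1 ((hadj v w').1 hw').1 ?_
      rw [← hφe v w hw, ← hφe v w' hw', he]
  have hmis : ∀ (b : Cl m) (v : V), b ∈ mis He φe v ↔ ((e b : A) : C) ∈ mis H φ v := by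
    intro b v
    rw [mem_mis, mem_mis]
    constructor
    · intro h1 w hw he
      have h2 : He.Adj v w := (hadj v w).2 ⟨hw, by rw [he]; exact (e b).2⟩
      refine h1 w h2 (e.injective (Subtype.ext ?_))
      rw [hφe v w h2, he]
    · intro h1 w hw he
      refine h1 w ((hadj v w).1 hw).1 ?_
      rw [← hφe v w hw, he]
  have hmc : ∀ v, (mis He φe v).card ≤ (mis H φ v).card := by
    intro v
    refine Finset.card_le_card_of_injOn (fun b => ((e b : A) : C)) ?_ ?_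
    · intro b hb
      exact (hmis b v).1 hb
    · intro b _ b' _ hbb
      exact e.injective (Subtype.ext hbb)
  obtain ⟨ψ, hψ, h1, h2, h2'⟩ := smooth2 He φe hpe k g q K0 S L Λ
    (fun r v hv => (hmc v).trans (hK r v hv)) (fun j v hv => (hmc v).trans (hK1 j v hv))
    (fun j v hv => (hmc v).trans (hK2 j v hv))
    hS hS1 hS2 hL hL1 hL2 hg0 hg1 hq0 hq1 hL0 hΛ0 hΛ
  let φ' : V → V → C := fun v w => if He.Adj v w then ((e (ψ v w) : A) : C) else φ v w
  have hp1 : ∀ v w, He.Adj v w → φ' v w = ((e (ψ v w) : A) : C) := fun v w hvw => if_pos hvw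
  have hp2 : ∀ v w, ¬ He.Adj v w → φ' v w = φ v w := fun v w hvw => if_neg hvw
  have hpec : PEC H φ' := by
    constructor
    · intro v w
      by_cases hvw : He.Adj v w
      · rw [hp1 v w hvw, hp1 w v hvw.symm, hψ.sym v w]
      · rw [hp2 v w hvw, hp2 w v fun h' => hvw h'.symm, h.sym v w]
    · intro v w w' hw hw' he
      by_cases hvw : He.Adj v w <;> by_cases hvw' : He.Adj v w'
      · rw [hp1 v w hvw, hp1 v w' hvw'] at he
        exact hψ.inj v w w' hvw hvw' (e.injective (Subtype.ext he))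
      · rw [hp1 v w hvw, hp2 v w' hvw'] at he
        exact absurd ((hadj v w').2 ⟨hw', by rw [← he]; exact (e _).2⟩) hvw'
      · rw [hp2 v w hvw, hp1 v w' hvw'] at he
        exact absurd ((hadj v w).2 ⟨hw, by rw [he]; exact (e _).2⟩) hvw
      · rw [hp2 v w hvw, hp2 v w' hvw'] at he
        exact h.inj v w w' hw hw' he
  have hmis' : ∀ (b : Cl m) (v : V), b ∈ mis He ψ v ↔ ((e b : A) : C) ∈ mis H φ' v := by
    intro b v
    rw [mem_mis, mem_mis]
    constructor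
    · intro h3 w hw he
      by_cases hvw : He.Adj v w
      · rw [hp1 v w hvw] at he
        exact h3 w hvw (e.injective (Subtype.ext he))
      · rw [hp2 v w hvw] at he
        exact hvw ((hadj v w).2 ⟨hw, by rw [he]; exact (e b).2⟩)
    · intro h3 w hw he
      refine h3 w ((hadj v w).1 hw).1 ?_
      rw [hp1 v w hw, he]
  have hsum : ∀ F : C → ℝ, ∑ c ∈ A, F c = ∑ b : Cl m, F ((e b : A) : C) := by
    intro F
    rw [← Finset.sum_coe_sort A F]
    exact (Equiv.sum_comp e (fun c : A => F (c : C))).symm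
  have hwt : ∀ (k : V → ℝ) (b : Cl m), wt H φ k ((e b : A) : C) = wt He φe k b := by
    intro k b
    unfold wt
    refine Finset.sum_congr rfl fun v _ => ?_
    simp only [hmis b v]
  have hwt' : ∀ (k : V → ℝ) (b : Cl m), wt H φ' k ((e b : A) : C) = wt He ψ k b := by
    intro k b
    unfold wt
    refine Finset.sum_congr rfl fun v _ => ?_
    simp only [hmis' b v]
  have hwc : ∀ (k : V → ℝ) (b : Cl m), wc H φ k ((e b : A) : C) = wc He φe k b := by
    intro k b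
    rw [wc_eq', wc_eq', hwt]
  have hwc' : ∀ (k : V → ℝ) (b : Cl m), wc H φ' k ((e b : A) : C) = wc He ψ k b := by
    intro k b
    rw [wc_eq', wc_eq', hwt']
  have htot : ∀ k : V → ℝ, ∑ c ∈ A, wt H φ k c = ∑ v, k v * ((mis He φe v).card : ℝ) := by
    intro k
    rw [hsum, ← sum_wt]
    exact Finset.sum_congr rfl fun b _ => hwt k b
  have htot' : ∀ k : V → ℝ, ∑ c ∈ A, wc H φ k c =
      ∑ v, k v * ((univ.filter (fun w => He.Adj v w)).card : ℝ) := by
    intro k
    rw [hsum, ← sum_wc He φe hpe]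
    exact Finset.sum_congr rfl fun b _ => hwc k b
  refine ⟨φ', hpec, ?_, ?_, ?_, ?_⟩
  · intro b hb v
    rw [mem_mis, mem_mis]
    refine forall₂_congr fun w hw => not_congr ?_
    by_cases hvw : He.Adj v w
    · rw [hp1 v w hvw]
      constructor
      · intro he
        exact absurd (by rw [← he]; exact (e _).2) hb
      · intro he
        exact absurd (by rw [← he]; exact ((hadj v w).1 hvw).2) hb
    · rw [hp2 v w hvw]
  · intro r
    rw [hsum, htot]
    simp only [hwt']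
    refine (h1 r).trans (mul_le_mul_of_nonneg_right (Real.sqrt_le_sqrt ?_) (by positivity))
    refine Finset.sum_le_sum fun v _ => mul_le_mul_of_nonneg_left ?_ (sq_nonneg _)
    exact_mod_cast hmc v
  · intro j b hb
    have h3 := h2 j (e.symm ⟨b, hb⟩)
    rw [← hwt', Equiv.apply_symm_apply, ← htot] at h3
    exact h3
  · intro j b hb
    have h3 := h2' j (e.symm ⟨b, hb⟩)
    rw [← hwc', Equiv.apply_symm_apply, ← htot'] at h3
    exact h3

end cube2

section smoothP2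
variable {V : Type u} [Fintype V] {C : Type v} [Fintype C]

/-- **Token smoothing**, any number of colours, with bounds for the covered vertices. -/
theorem smoothP2 (H : SimpleGraph V) (φ : V → V → C) (h : PEC H φ)
    {I J1 J2 : Type u} [Fintype I] [Fintype J1] [Fintype J2] (k : I → V → ℝ) (g : J1 → V → ℝ)
    (q : J2 → V → ℝ) (K0 S L : ℕ)
    (Λ : ℝ) (hC : 0 < Fintype.card C) (hK : ∀ r v, k r v ≠ 0 → (mis H φ v).card ≤ K0)
    (hK1 : ∀ j v, g j v ≠ 0 → (mis H φ v).card ≤ K0)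
    (hK2 : ∀ j v, q j v ≠ 0 → (mis H φ v).card ≤ K0)
    (hS : ∀ r, (univ.filter (fun v => k r v ≠ 0)).card ≤ S)
    (hS1 : ∀ j, (univ.filter (fun v => g j v ≠ 0)).card ≤ S)
    (hS2 : ∀ j, (univ.filter (fun v => q j v ≠ 0)).card ≤ S)
    (hL : ∀ v, (univ.filter (fun r => k r v ≠ 0)).card ≤ L)
    (hL1 : ∀ v, (univ.filter (fun j => g j v ≠ 0)).card ≤ L)
    (hL2 : ∀ v, (univ.filter (fun j => q j v ≠ 0)).card ≤ L)
    (hg0 : ∀ j v, 0 ≤ g j v) (hg1 : ∀ j v, g j v ≤ 1)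
    (hq0 : ∀ j v, 0 ≤ q j v) (hq1 : ∀ j v, q j v ≤ 1) (hL0 : 1 ≤ L) (hΛ0 : 0 ≤ Λ)
    (hΛ : 64 * ((S : ℝ) * K0 + 1) * L * (Fintype.card C + 1) ≤ Real.exp Λ) :
    ∃ φ' : V → V → C, PEC H φ' ∧
      (∀ r, ∑ b, |wt H φ' (k r) b - (∑ v, k r v * ((mis H φ v).card : ℝ)) / Fintype.card C| ≤
        Real.sqrt (∑ v, k r v ^ 2 * ((mis H φ v).card : ℝ)) *
          (301 * Real.sqrt (Fintype.card C) +
            120 * (Nat.log 2 (Fintype.card C)) * Real.sqrt Λ)) ∧
      (∀ j b, wt H φ' (g j) b ≤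
        4 * (∑ v, g j v * ((mis H φ v).card : ℝ)) / Fintype.card C + 12 * Λ) ∧
      ∀ j b, wc H φ' (q j) b ≤
        4 * (∑ v, q j v * ((univ.filter (fun w => H.Adj v w)).card : ℝ)) / Fintype.card C +
          12 * Λ := by
  set P := Fintype.card C with hP
  set m := Nat.log 2 P with hm
  have hn1 : 2 ^ m ≤ P := Nat.pow_log_le_self 2 (by omega)
  have hn2 : P < 2 * 2 ^ m := by
    have := Nat.lt_pow_succ_log_self (b := 2) (by norm_num) P
    rw [pow_succ, mul_comm] at this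
    exact this
  have hn1' : (2 : ℝ) ^ m ≤ P := by exact_mod_cast hn1
  have hn2' : (P : ℝ) ≤ 2 * 2 ^ m := by exact_mod_cast hn2.le
  have hP0 : (0 : ℝ) < P := by exact_mod_cast hC
  have hn0 : 0 < 2 ^ m := by positivity
  obtain ⟨A, M, B, hA, hM, hB, hAB, hAM, hMB⟩ := three_sets (C := C) (2 ^ m) hn1 hn2
  have hΛm : 64 * ((S : ℝ) * K0 + 1) * L * (2 ^ m + 1) ≤ Real.exp Λ := by
    refine le_trans ?_ hΛ
    refine mul_le_mul_of_nonneg_left (by linarith) (by positivity)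
  set U : J1 → ℝ := fun j => 2 * ((∑ v, g j v * ((mis H φ v).card : ℝ)) / 2 ^ m) + 12 * Λ with hU
  set U' : J2 → ℝ := fun j => 2 * ((∑ v, q j v *
    ((univ.filter (fun w => H.Adj v w)).card : ℝ)) / 2 ^ m) + 12 * Λ with hU'
  set N : I → ℝ := fun r => Real.sqrt (KK H φ (k r)) *
    (5 * Real.sqrt (2 ^ m) + 2 * m * Real.sqrt Λ) with hN
  have hN0 : ∀ r, 0 ≤ N r := fun r => by
    simp only [hN]
    positivity
  -- one cube
  have hcube : ∀ (ψ : V → V → C) (D X : Finset C), PEC H ψ → X.card = 2 ^ m →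
      (∀ j, ∀ b ∈ D, wt H ψ (g j) b ≤ U j) → (∀ j, ∀ b ∈ D, wc H ψ (q j) b ≤ U' j) →
      ∃ ψ' : V → V → C, PEC H ψ' ∧
      (∀ r, ∑ b, |wt H ψ' (k r) b - Ea X (wt H ψ (k r)) b| ≤ N r) ∧
      (∀ j, ∀ b, b ∈ D ∨ b ∈ X → wt H ψ' (g j) b ≤ U j) ∧
      (∀ j, ∀ b, b ∈ D ∨ b ∈ X → wc H ψ' (q j) b ≤ U' j) := by
    intro ψ D X hψ hX hD hD'
    have hmc : ∀ v, (mis H ψ v).card = (mis H φ v).card := mis_card_eq H φ ψ h hψ
    obtain ⟨ψ', hψ', h1, h2, h3, h3'⟩ := cube2 H ψ hψ X hX k g q K0 S L Λ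
      (fun r v hv => by rw [hmc v]; exact hK r v hv) (fun j v hv => by rw [hmc v]; exact hK1 j v hv)
      (fun j v hv => by rw [hmc v]; exact hK2 j v hv)
      hS hS1 hS2 hL hL1 hL2 hg0 hg1 hq0 hq1 hL0 hΛ0 hΛm
    have hout : ∀ (k : V → ℝ) (b : C), b ∉ X → wt H ψ' k b = wt H ψ k b := by
      intro k b hb
      unfold wt
      refine Finset.sum_congr rfl fun v _ => ?_
      simp only [h1 b hb v]
    refine ⟨ψ', hψ', ?_, ?_, ?_⟩
    · intro r
      have h4 := h2 r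
      rw [KK_eq H φ ψ h hψ (k r)] at h4
      refine le_trans (le_of_eq ?_) h4
      rw [← Finset.sum_add_sum_compl X fun b => |wt H ψ' (k r) b - Ea X (wt H ψ (k r)) b|]
      have h5 : ∑ b ∈ Xᶜ, |wt H ψ' (k r) b - Ea X (wt H ψ (k r)) b| = 0 := by
        refine Finset.sum_eq_zero fun b hb => ?_
        have hb' := Finset.mem_compl.1 hb
        rw [hout (k r) b hb', Ea_out X _ b hb', sub_self, abs_zero]
      rw [h5, add_zero]
      refine Finset.sum_congr rfl fun b hb => ?_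
      rw [Ea_in X _ b hb, hX]
      push_cast
      rfl
    · intro j b hb
      by_cases hbX : b ∈ X
      · refine (h3 j b hbX).trans ?_
        simp only [hU]
        refine add_le_add_left (mul_le_mul_of_nonneg_left (div_le_div_of_nonneg_right ?_
          (by positivity)) (by norm_num)) _
        calc ∑ c ∈ X, wt H ψ (g j) c ≤ ∑ c, wt H ψ (g j) c :=
              Finset.sum_le_sum_of_subset_of_nonneg (Finset.subset_univ _)
                fun c _ _ => wt_nonneg H ψ (g j) (hg0 j) c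
          _ = ∑ v, g j v * ((mis H φ v).card : ℝ) := by
            rw [sum_wtC]
            refine Finset.sum_congr rfl fun v _ => ?_
            rw [hmc v]
      · rw [hout (g j) b hbX]
        exact hD j b (hb.resolve_right hbX)
    · intro j b hb
      by_cases hbX : b ∈ X
      · refine (h3' j b hbX).trans ?_
        simp only [hU']
        refine add_le_add_left (mul_le_mul_of_nonneg_left (div_le_div_of_nonneg_right ?_
          (by positivity)) (by norm_num)) _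
        calc ∑ c ∈ X, wc H ψ (q j) c ≤ ∑ c, wc H ψ (q j) c :=
              Finset.sum_le_sum_of_subset_of_nonneg (Finset.subset_univ _)
                fun c _ _ => wc_nonneg H ψ (q j) (hq0 j) c
          _ = ∑ v, q j v * ((univ.filter (fun w => H.Adj v w)).card : ℝ) :=
            sum_wcC H ψ hψ (q j)
      · rw [wc_eq', hout (q j) b hbX, ← wc_eq']
        exact hD' j b (hb.resolve_right hbX)
  -- one round
  have hround : ∀ ψ : V → V → C, PEC H ψ → ∃ ψ' : V → V → C, PEC H ψ' ∧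
      (∀ r, ∑ b, |wt H ψ' (k r) b - Q5 A M B (wt H ψ (k r)) b| ≤ 5 * N r) ∧
      (∀ j, ∀ b, wt H ψ' (g j) b ≤ U j) ∧ (∀ j, ∀ b, wc H ψ' (q j) b ≤ U' j) := by
    intro ψ hψ
    obtain ⟨ψ1, p1, q1, r1, t1⟩ := hcube ψ ∅ A hψ hA
      (fun j b hb => absurd hb (Finset.notMem_empty _))
      (fun j b hb => absurd hb (Finset.notMem_empty _))
    obtain ⟨ψ2, p2, q2, r2, t2⟩ := hcube ψ1 A M p1 hM (fun j b hb => r1 j b (Or.inr hb))
      (fun j b hb => t1 j b (Or.inr hb))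
    obtain ⟨ψ3, p3, q3, r3, t3⟩ := hcube ψ2 A B p2 hB (fun j b hb => r2 j b (Or.inl hb))
      (fun j b hb => t2 j b (Or.inl hb))
    obtain ⟨ψ4, p4, q4, r4, t4⟩ := hcube ψ3 univ M p3 hM (fun j b _ => r3 j b (hAB b))
      (fun j b _ => t3 j b (hAB b))
    obtain ⟨ψ5, p5, q5, r5, t5⟩ := hcube ψ4 univ A p4 hA
      (fun j b hb => r4 j b (Or.inl hb)) (fun j b hb => t4 j b (Or.inl hb))
    refine ⟨ψ5, p5, fun r => ?_, fun j b => r5 j b (Or.inl (Finset.mem_univ b)),
      fun j b => t5 j b (Or.inl (Finset.mem_univ b))⟩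
    have s2 := l1_tri _ _ _ _ _ (q2 r) (l1_Ea M _ _ _ (q1 r))
    have s3 := l1_tri _ _ _ _ _ (q3 r) (l1_Ea B _ _ _ s2)
    have s4 := l1_tri _ _ _ _ _ (q4 r) (l1_Ea M _ _ _ s3)
    have s5 := l1_tri _ _ _ _ _ (q5 r) (l1_Ea A _ _ _ s4)
    refine s5.trans (le_of_eq ?_)
    ring
  -- many rounds
  set W : I → ℝ := fun r => (∑ v, k r v * ((mis H φ v).card : ℝ)) / P with hW
  have hmass : ∀ (ψ : V → V → C), PEC H ψ → ∀ r, ∑ c, (wt H ψ (k r) c - W r) = 0 := by
    intro ψ hψ r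
    rw [Finset.sum_sub_distrib, sum_wtC, Finset.sum_const, Finset.card_univ, nsmul_eq_mul, ← hP]
    have h1 : ∑ v, k r v * ((mis H ψ v).card : ℝ) = ∑ v, k r v * ((mis H φ v).card : ℝ) := by
      refine Finset.sum_congr rfl fun v _ => ?_
      rw [mis_card_eq H φ ψ h hψ v]
    rw [h1]
    simp only [hW]
    field_simp
    ring
  have hrounds : ∀ R : ℕ, ∃ ψ : V → V → C, PEC H ψ ∧
      (∀ r, ∑ b, |wt H ψ (k r) b - W r| ≤
        (11 / 12) ^ R * (2 * (Real.sqrt ((S : ℝ) * K0) * Real.sqrt (KK H φ (k r)))) +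
          60 * N r) ∧ (R ≠ 0 → ∀ j b, wt H ψ (g j) b ≤ U j) ∧
      (R ≠ 0 → ∀ j b, wc H ψ (q j) b ≤ U' j) := by
    intro R
    induction R with
    | zero =>
      refine ⟨φ, h, fun r => ?_, fun h0 => absurd rfl h0, fun h0 => absurd rfl h0⟩
      rw [pow_zero, one_mul]
      have h1 := dev0 H φ (k r) K0 S (hK r) (hS r)
      have h2 : ∑ _b : C, |W r| ≤ Real.sqrt ((S : ℝ) * K0) * Real.sqrt (KK H φ (k r)) := by
        refine le_trans ?_ h1
        rw [Finset.sum_const, Finset.card_univ, nsmul_eq_mul, ← hP]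
        simp only [hW]
        rw [abs_div, Nat.abs_cast, ← sum_wtC]
        rw [mul_div_cancel₀ _ hP0.ne']
        exact Finset.abs_sum_le_sum_abs _ _
      have h3 : ∑ b, |wt H φ (k r) b - W r| ≤ ∑ b, |wt H φ (k r) b| + ∑ _b : C, |W r| := by
        rw [← Finset.sum_add_distrib]
        exact Finset.sum_le_sum fun b _ => abs_sub _ _
      have := hN0 r
      linarith
    | succ R ih =>
      obtain ⟨ψ, hψ, h1, _, _⟩ := ih
      obtain ⟨ψ', hψ', h3, h4, h4'⟩ := hround ψ hψ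
      refine ⟨ψ', hψ', fun r => ?_, fun _ => h4, fun _ => h4'⟩
      have h5 := Q5_contr A M B (2 ^ m) hn0 hA hM hB hAB hAM hMB
        (fun c => wt H ψ (k r) c - W r) (hmass ψ hψ r)
      have h6 : ∀ b, Q5 A M B (fun c => wt H ψ (k r) c - W r) b =
          Q5 A M B (wt H ψ (k r)) b - W r := by
        intro b
        have h7 := congrFun (Q5_sub A M B (wt H ψ (k r)) fun _ => W r) b
        rw [h7]
        simp only [Q5_const]
      simp only [h6] at h5
      have h8 := l1_tri _ _ _ _ _ (h3 r) h5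
      refine h8.trans ?_
      have h9 := h1 r
      rw [pow_succ]
      linarith
  obtain ⟨R, hR⟩ : ∃ R : ℕ, (11 / 12 : ℝ) ^ R * (2 * Real.sqrt ((S : ℝ) * K0)) ≤ 1 := by
    obtain ⟨R, hR⟩ := exists_pow_lt_of_lt_one (y := (11 / 12 : ℝ))
      (x := 1 / (2 * Real.sqrt ((S : ℝ) * K0) + 1)) (by positivity) (by norm_num)
    refine ⟨R, ?_⟩
    have h1 := mul_le_mul_of_nonneg_right hR.le
      (by positivity : 0 ≤ 2 * Real.sqrt ((S : ℝ) * K0))
    refine h1.trans ?_
    rw [div_mul_eq_mul_div, one_mul, div_le_one (by positivity)]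
    linarith
  obtain ⟨ψ, hψ, h1, h2, h2'⟩ := hrounds (R + 1)
  have hm0 : (0 : ℝ) ≤ m := Nat.cast_nonneg _
  refine ⟨ψ, hψ, fun r => ?_, fun j b => ?_, fun j b => ?_⟩
  · refine (h1 r).trans ?_
    have hs := Real.sqrt_nonneg (KK H φ (k r))
    have hsP : Real.sqrt (2 ^ m) ≤ Real.sqrt P := Real.sqrt_le_sqrt hn1'
    have hsP1 : 1 ≤ Real.sqrt P := by
      rw [Real.one_le_sqrt]
      exact_mod_cast hC
    have h3 : (11 / 12 : ℝ) ^ (R + 1) * (2 * (Real.sqrt ((S : ℝ) * K0) *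
        Real.sqrt (KK H φ (k r)))) ≤ 1 * Real.sqrt (KK H φ (k r)) := by
      have h4 : (11 / 12 : ℝ) ^ (R + 1) * (2 * Real.sqrt ((S : ℝ) * K0)) ≤ 1 := by
        refine le_trans ?_ hR
        refine mul_le_mul_of_nonneg_right ?_ (by positivity)
        exact pow_le_pow_of_le_one (by norm_num) (by norm_num) (Nat.le_succ R)
      have h5 := mul_le_mul_of_nonneg_right h4 hs
      refine le_trans (le_of_eq ?_) h5
      ring
    refine (add_le_add_left h3 _).trans ?_
    have h6 : (∑ v, k r v ^ 2 * ((mis H φ v).card : ℝ)) = KK H φ (k r) := rfl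
    rw [h6]
    simp only [hN]
    have h7 : 1 * Real.sqrt (KK H φ (k r)) + 60 * (Real.sqrt (KK H φ (k r)) *
        (5 * Real.sqrt (2 ^ m) + 2 * m * Real.sqrt Λ)) = Real.sqrt (KK H φ (k r)) *
        (1 + 300 * Real.sqrt (2 ^ m) + 120 * m * Real.sqrt Λ) := by ring
    rw [h7]
    refine mul_le_mul_of_nonneg_left ?_ hs
    linarith
  · refine (h2 (Nat.succ_ne_zero R) j b).trans ?_
    simp only [hU]
    have hG0 : 0 ≤ ∑ v, g j v * ((mis H φ v).card : ℝ) :=
      Finset.sum_nonneg fun v _ => mul_nonneg (hg0 j v) (Nat.cast_nonneg _)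
    refine add_le_add_left ?_ _
    rw [← mul_div_assoc, div_le_div_iff₀ (by positivity) hP0]
    nlinarith
  · refine (h2' (Nat.succ_ne_zero R) j b).trans ?_
    simp only [hU']
    have hG0 : 0 ≤ ∑ v, q j v * ((univ.filter (fun w => H.Adj v w)).card : ℝ) :=
      Finset.sum_nonneg fun v _ => mul_nonneg (hq0 j v) (Nat.cast_nonneg _)
    refine add_le_add_left ?_ _
    rw [← mul_div_assoc, div_le_div_iff₀ (by positivity) hP0]
    nlinarith

end smoothP2

end Pool.Agent.Work.MP_db9399_tk
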