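import Pool.Agent.Work.MP_db9399_tk_helper59.SmoothP

/-!
# MP_db9399, all scales: smoothing by Kempe coins, version with covered vertices, part 1

The number of vertices which are COVERED by a colour (for vertices of low degree).
-/

set_option autoImplicit false

namespace Pool.Agent.Work.MP_db9399_tk

open Finset Classical

open Pool.Agent.Work.MP_db9399_all (pr DepOnI PackI stmt_LLLI)

universe u v

/-- the weight of the vertices which are covered by the colour `b` -/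
noncomputable def wc {V : Type u} [Fintype V] {C : Type v} [Fintype C] (H : SimpleGraph V)
    (φ : V → V → C) (k : V → ℝ) (b : C) : ℝ :=
  ∑ v, if b ∈ mis H φ v then 0 else k v

theorem wc_eq' {V : Type u} [Fintype V] {C : Type v} [Fintype C] (H : SimpleGraph V)
    (φ : V → V → C) (k : V → ℝ) (b : C) : wc H φ k b = ∑ v, k v - wt H φ k b := by
  unfold wc wt
  rw [← Finset.sum_sub_distrib]
  refine Finset.sum_congr rfl fun v _ => ?_
  split_ifs
  · rw [sub_self]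
  · rw [sub_zero]

theorem wc_nonneg {V : Type u} [Fintype V] {C : Type v} [Fintype C] (H : SimpleGraph V)
    (φ : V → V → C) (k : V → ℝ) (hk : ∀ v, 0 ≤ k v) (b : C) : 0 ≤ wc H φ k b := by
  refine Finset.sum_nonneg fun v _ => ?_
  split_ifs
  · exact le_rfl
  · exact hk v

section cover
variable {V : Type u} [Fintype V] {m : ℕ}

theorem xm_le_one (H : SimpleGraph V) (φ : V → V → Cl m) (b : Cl m) (v : V) : xm H φ b v ≤ 1 := by
  unfold xm
  split_ifs
  · exact le_rfl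
  · exact zero_le_one

theorem wc_eq (H : SimpleGraph V) (φ : V → V → Cl m) (k : V → ℝ) (b : Cl m) :
    wc H φ k b = ∑ v, k v * (1 - xm H φ b v) := by
  rw [wc_eq', wt_eq, ← Finset.sum_sub_distrib]
  exact Finset.sum_congr rfl fun v _ => by ring

/-- class sums of the covers -/
noncomputable def cc (H : SimpleGraph V) (φ : V → V → Cl m) (k : V → ℝ) (i : ℕ) (a : Cl m) : ℝ :=
  ∑ b ∈ univ.filter (fun b => ag i a b), wc H φ k b

theorem cc_eq (H : SimpleGraph V) (φ : V → V → Cl m) (k : V → ℝ) (i : ℕ) (hi : i ≤ m) (a : Cl m) :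
    cc H φ k i a = 2 ^ m / 2 ^ i * ∑ v, k v - cs H φ k i a := by
  unfold cc cs
  rw [Finset.sum_congr rfl fun b _ => wc_eq' H φ k b, Finset.sum_sub_distrib, Finset.sum_const,
    nsmul_eq_mul, card_class i hi a]

theorem cc_nonneg (H : SimpleGraph V) (φ : V → V → Cl m) (k : V → ℝ) (hk : ∀ v, 0 ≤ k v) (i : ℕ)
    (a : Cl m) : 0 ≤ cc H φ k i a :=
  Finset.sum_nonneg fun b _ => wc_nonneg H φ k hk b

theorem dx_sq' (i : Fin m) (H : SimpleGraph V) (φ : V → V → Cl m) (b : Cl m) (v : V) :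
    dx i H φ b v ^ 2 ≤ (1 - xm H φ b v) + (1 - xm H φ (fl i b) v) := by
  unfold dx xm
  split_ifs <;> norm_num

theorem cf_sq' (i : Fin m) (H : SimpleGraph V) (φ : V → V → Cl m) (h : PEC H φ)
    (k : V → ℝ) (b : Cl m) (R : V) :
    cf i H φ h k b R ^ 2 ≤ 2 * ∑ v ∈ univ.filter (fun v => rp i H φ h b v = R),
      k v ^ 2 * ((1 - xm H φ b v) + (1 - xm H φ (fl i b) v)) := by
  rw [cf_ends]
  refine (sq_sum_le_card_mul_sum_sq).trans ?_
  have h1 : ((ends i H φ h b R).card : ℝ) ≤ 2 := by exact_mod_cast ends_le i H φ h b R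
  have h2 : ∑ v ∈ ends i H φ h b R, (k v * dx i H φ b v) ^ 2 ≤
      ∑ v ∈ univ.filter (fun v => rp i H φ h b v = R),
      k v ^ 2 * ((1 - xm H φ b v) + (1 - xm H φ (fl i b) v)) := by
    refine (Finset.sum_le_sum
      (g := fun v => k v ^ 2 * ((1 - xm H φ b v) + (1 - xm H φ (fl i b) v)))
      fun v _ => ?_).trans (Finset.sum_le_sum_of_subset_of_nonneg ?_ ?_)
    · rw [mul_pow]
      exact mul_le_mul_of_nonneg_left (dx_sq' i H φ b v) (sq_nonneg _)
    · intro v hv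
      unfold ends at hv
      rw [Finset.mem_filter] at hv ⊢
      exact ⟨hv.1, hv.2.1⟩
    · intro v _ _
      have h3 := xm_le_one H φ b v
      have h4 := xm_le_one H φ (fl i b) v
      exact mul_nonneg (sq_nonneg _) (by linarith)
  exact mul_le_mul h1 h2 (Finset.sum_nonneg fun v _ => sq_nonneg _) (by norm_num)

theorem cf_sum_sq' (i : Fin m) (H : SimpleGraph V) (φ : V → V → Cl m) (h : PEC H φ)
    (k : V → ℝ) (b : Cl m) :
    ∑ R, cf i H φ h k b R ^ 2 ≤
      2 * (wc H φ (fun v => k v ^ 2) b + wc H φ (fun v => k v ^ 2) (fl i b)) := by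
  refine (Finset.sum_le_sum fun R _ => cf_sq' i H φ h k b R).trans (le_of_eq ?_)
  rw [← Finset.mul_sum, wc_eq, wc_eq, ← Finset.sum_add_distrib]
  congr 1
  refine (Finset.sum_fiberwise univ (fun v => rp i H φ h b v)
    (fun v => k v ^ 2 * ((1 - xm H φ b v) + (1 - xm H φ (fl i b) v)))).trans ?_
  refine Finset.sum_congr rfl fun v _ => ?_
  rw [mul_add]

theorem cY_sq' (i : Fin m) (H : SimpleGraph V) (φ : V → V → Cl m) (h : PEC H φ)
    (k : V → ℝ) (a : Cl m) (hk0 : ∀ v, 0 ≤ k v) (hk1 : ∀ v, k v ≤ 1) :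
    ∑ p, cY i H φ h k a p ^ 2 ≤ 2 * cc H φ k i a := by
  have h1 : ∑ p : Cl m × V, cY i H φ h k a p ^ 2 =
      ∑ b ∈ univ.filter (fun b : Cl m => b i = false ∧ ag i a b), ∑ R, cf i H φ h k b R ^ 2 := by
    rw [Fintype.sum_prod_type, Finset.sum_filter]
    refine Finset.sum_congr rfl fun b _ => ?_
    unfold cY
    by_cases hb : b i = false ∧ ag i a b
    · simp only [if_pos hb]
    · simp only [if_neg hb]
      simp
  rw [h1]
  refine (Finset.sum_le_sum fun b _ => cf_sum_sq' i H φ h k b).trans ?_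
  rw [← Finset.mul_sum, sum_half i (fun b => ag i a b) (fun b => ag_fl_iff' i a b)
    (fun b => wc H φ (fun v => k v ^ 2) b)]
  refine mul_le_mul_of_nonneg_left ?_ (by norm_num)
  refine Finset.sum_le_sum fun b _ => ?_
  rw [wc_eq, wc_eq]
  refine Finset.sum_le_sum fun v _ => ?_
  have h2 := xm_le_one H φ b v
  refine mul_le_mul_of_nonneg_right ?_ (by linarith)
  nlinarith [hk0 v, hk1 v]

/-- the event of a class, with an arbitrary bound -/
def EB (i : Fin m) (H : SimpleGraph V) (φ : V → V → Cl m) (h : PEC H φ) (k : V → ℝ) (Λ B : ℝ)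
    (a : Cl m) (f : Cl m × V → Fin 2) : Prop :=
  ∃ τ : Bool, 2 * Real.sqrt (Λ * B) <
    ∑ p, sg (f p) * ((if τ = true then 1 else -1) * cY i H φ h k a p)

theorem pack_EB (i : Fin m) (H : SimpleGraph V) (φ : V → V → Cl m) (h : PEC H φ) (k : V → ℝ)
    (Λ T W B : ℝ) (hΛ : 0 ≤ Λ) (a : Cl m) (hB0 : 0 ≤ B) (hB : ∑ p, cY i H φ h k a p ^ 2 ≤ 2 * B)
    (hexp : Real.exp (2 * T * ((QT i H φ h k).card : ℝ)) ≤ 2)
    (hW : 4 * Real.exp (-Λ) ≤ W) :
    PackI T (QT i H φ h k) W (fun f => ¬ EB i H φ h k Λ B a f) := by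
  have hpos := Real.exp_pos (-Λ)
  refine packT T W (2 * Real.exp (-Λ)) (2 * B)
    (2 * Real.sqrt (Λ * B)) (QT i H φ h k)
    (fun τ p => (if τ = true then 1 else -1) * cY i H φ h k a p)
    (fun τ p hp => by rw [cY_zero i H φ h k a p hp, mul_zero])
    (fun τ => ?_) (by linarith) (by positivity) (by linarith) ?_
    (by linarith) hexp
  · refine (le_of_eq ?_).trans hB
    refine Finset.sum_congr rfl fun p _ => ?_
    cases τ <;> simp
  · intro h0
    rw [mul_pow, Real.sq_sqrt (by positivity), Fintype.card_bool, Nat.cast_ofNat]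
    refine mul_le_mul_of_nonneg_left (Real.exp_le_exp.2 (le_of_eq ?_)) (by norm_num)
    have h3 : B ≠ 0 := by
      intro h4
      rw [h4] at h0
      simp at h0
    field_simp

/-- one level, arbitrary bounds -/
theorem level2 (i : Fin m) (H : SimpleGraph V) (φ : V → V → Cl m) (h : PEC H φ)
    {I J' : Type u} [Fintype I] [Fintype J'] (k : I → V → ℝ) (g : J' → V → ℝ)
    (B : J' → Cl m → ℝ) (K0 S L : ℕ)
    (Λ : ℝ) (hK : ∀ r v, k r v ≠ 0 → (mis H φ v).card ≤ K0)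
    (hK' : ∀ j v, g j v ≠ 0 → (mis H φ v).card ≤ K0)
    (hS : ∀ r, (univ.filter (fun v => k r v ≠ 0)).card ≤ S)
    (hS' : ∀ j, (univ.filter (fun v => g j v ≠ 0)).card ≤ S)
    (hL : ∀ v, (univ.filter (fun r => k r v ≠ 0)).card ≤ L)
    (hL' : ∀ v, (univ.filter (fun j => g j v ≠ 0)).card ≤ L)
    (hB0 : ∀ j a, 0 ≤ B j a) (hB : ∀ j a, ∑ p, cY i H φ h (g j) a p ^ 2 ≤ 2 * B j a)
    (hL1 : 1 ≤ L) (hΛ0 : 0 ≤ Λ)
    (hΛ : 32 * ((S : ℝ) * K0 + 1) * L * (2 ^ m + 1) ≤ Real.exp Λ) :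
    ∃ f : Cl m × V → Fin 2,
      (∀ r, ∑ a, |cs H (nw i H φ h f) (k r) (i + 1) a - 1 / 2 * cs H φ (k r) i a| ≤
        2 ^ m / 2 ^ ((i : ℕ) + 1) *
          Real.sqrt (4 * K2 H φ (k r) * (2 ^ (i : ℕ) * Real.log 2 + Λ))) ∧
      ∀ j a, |cs H (nw i H φ h f) (g j) (i + 1) a - 1 / 2 * cs H φ (g j) i a| ≤
        Real.sqrt (Λ * B j a) := by
  set T : ℝ := 1 / (4 * ((S : ℝ) * K0 + 1)) with hT
  set W : ℝ := T / (2 * L * (2 ^ m + 1)) with hW
  have hSK : (1 : ℝ) ≤ (S : ℝ) * K0 + 1 := by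
    have : (0 : ℝ) ≤ (S : ℝ) * K0 := by positivity
    linarith
  have hT0 : 0 ≤ T := by positivity
  have hT1 : T ≤ 1 / 4 := by
    rw [hT]
    refine one_div_le_one_div_of_le (by norm_num) ?_
    linarith
  have hL0 : (0 : ℝ) < L := by exact_mod_cast hL1
  have hW4 : 4 * Real.exp (-Λ) ≤ W := by
    have h1 : W = 1 / (8 * ((S : ℝ) * K0 + 1) * L * (2 ^ m + 1)) := by
      rw [hW, hT]
      field_simp
      ring
    rw [h1, Real.exp_neg, le_div_iff₀ (by positivity)]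
    have h2 := Real.exp_pos Λ
    rw [← div_eq_mul_inv, div_mul_eq_mul_div, div_le_one h2]
    linarith
  have hW0 : 0 ≤ W := by positivity
  have hexp : ∀ Q : Finset (Cl m × V), Q.card ≤ S * K0 → Real.exp (2 * T * (Q.card : ℝ)) ≤ 2 := by
    intro Q hQ
    have h1 : (Q.card : ℝ) ≤ (S : ℝ) * K0 := by exact_mod_cast hQ
    have h2 : 2 * T * (Q.card : ℝ) ≤ 1 / 2 := by
      rw [hT]
      have h3 : 2 * (1 / (4 * ((S : ℝ) * K0 + 1))) * (Q.card : ℝ) =
          (Q.card : ℝ) / (2 * ((S : ℝ) * K0 + 1)) := by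
        field_simp
        ring
      rw [h3, div_le_iff₀ (by positivity)]
      linarith
    exact (Real.exp_le_exp.2 h2).trans exp_half
  obtain ⟨f, hf1, hf2⟩ := lll2 (fun r => QT i H φ h (k r))
    (fun y : J' × Cl m => QT i H φ h (g y.1)) (fun r f => ¬ ET i H φ h (k r) Λ f)
    (fun y f => ¬ EB i H φ h (g y.1) Λ (B y.1 y.2) y.2 f) T W (2 * L) (2 * L * 2 ^ m) hT0 hT1 hW0
    (fun r => pack_ET i H φ h (k r) Λ T W hΛ0
      (hexp _ (QT_card i H φ h (k r) K0 S (hK r) (hS r))) hW4)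
    (fun y => pack_EB i H φ h (g y.1) Λ T W (B y.1 y.2) hΛ0 y.2 (hB0 y.1 y.2) (hB y.1 y.2)
      (hexp _ (QT_card i H φ h (g y.1) K0 S (hK' y.1) (hS' y.1))) hW4)
    (fun p s hs => by
      refine (Finset.card_le_card ?_).trans (QT_deg i H φ h k L hL p)
      intro r hr
      exact Finset.mem_filter.2 ⟨Finset.mem_univ _, hs r hr⟩)
    (fun p s hs => by
      have h5 : (univ : Finset (Cl m)).card = 2 ^ m := by
        rw [Finset.card_univ, Fintype.card_fun, Fintype.card_bool, Fintype.card_fin]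
      have h6 := Nat.mul_le_mul_right (2 ^ m) (QT_deg i H φ h g L hL' p)
      rw [← h5, ← Finset.card_product, h5] at h6
      refine (Finset.card_le_card ?_).trans h6
      intro y hy
      exact Finset.mem_product.2 ⟨Finset.mem_filter.2 ⟨Finset.mem_univ _, hs y hy⟩,
        Finset.mem_univ _⟩)
    (by
      have h1 : (((2 * L : ℕ) : ℝ) + ((2 * L * 2 ^ m : ℕ) : ℝ)) = 2 * L * (2 ^ m + 1) := by
        push_cast
        ring
      rw [h1, hW]
      refine le_of_eq ?_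
      field_simp)
  refine ⟨f, fun r => ?_, fun j a => ?_⟩
  · have h1 := hf1 r
    obtain ⟨τ, hτ⟩ := exists_sign i H φ h f (k r)
    have h2 := sum_abs_Zc i H φ h f (k r) τ hτ
    have h3 : ∑ p, sg (f p) * cT i H φ h (k r) τ p ≤
        Real.sqrt (4 * K2 H φ (k r) * (2 ^ (i : ℕ) * Real.log 2 + Λ)) :=
      not_lt.1 fun h4 => h1 ⟨τ, h4⟩
    rw [Finset.sum_congr rfl fun a _ => cs_diff i H φ h f (k r) a, ← Finset.mul_sum, h2,
      pow_succ, ← mul_assoc]
    have h5 : 1 / 2 * ((2 : ℝ) ^ m / 2 ^ (i : ℕ)) = 2 ^ m / (2 ^ (i : ℕ) * 2) := by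
      field_simp
    rw [h5]
    exact mul_le_mul_of_nonneg_left h3 (by positivity)
  · have h1 := hf2 (j, a)
    have h2 : ∀ τ : Bool, ∑ p, sg (f p) * ((if τ = true then 1 else -1) * cY i H φ h (g j) a p) ≤
        2 * Real.sqrt (Λ * B j a) := fun τ => not_lt.1 fun h4 => h1 ⟨τ, h4⟩
    have h3 : ∀ c : ℝ, ∑ p, sg (f p) * (c * cY i H φ h (g j) a p) = c * Zc i H φ h f (g j) a := by
      intro c
      rw [Zc_cY, Finset.mul_sum]
      exact Finset.sum_congr rfl fun p _ => by ring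
    have h4 := h2 true
    have h5 := h2 false
    rw [h3] at h4 h5
    rw [if_pos rfl] at h4
    rw [if_neg (by decide)] at h5
    rw [cs_diff]
    have h6 : |Zc i H φ h f (g j) a| ≤ 2 * Real.sqrt (Λ * B j a) :=
      abs_le.2 ⟨by linarith, by linarith⟩
    linarith

/-- covers at the bottom -/
theorem cc_zero (H : SimpleGraph V) (φ : V → V → Cl m) (h : PEC H φ) (k : V → ℝ) (a : Cl m) :
    cc H φ k 0 a = ∑ v, k v * ((univ.filter (fun w => H.Adj v w)).card : ℝ) := by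
  rw [cc_eq H φ k 0 (Nat.zero_le m) a, cs_zero, pow_zero, div_one, Finset.mul_sum,
    ← Finset.sum_sub_distrib]
  refine Finset.sum_congr rfl fun v _ => ?_
  have h1 := card_mis H φ h v
  have h2 : Fintype.card (Cl m) = 2 ^ m := by
    rw [Fintype.card_fun, Fintype.card_bool, Fintype.card_fin]
  rw [h2] at h1
  have h3 : ((mis H φ v).card : ℝ) + ((univ.filter (fun w => H.Adj v w)).card : ℝ) = 2 ^ m := by
    exact_mod_cast h1
  rw [← h3]
  ring

theorem cc_full (H : SimpleGraph V) (φ : V → V → Cl m) (k : V → ℝ) (a : Cl m) :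
    cc H φ k m a = wc H φ k a := by
  unfold cc
  have : univ.filter (fun b => ag m a b) = {a} := by
    ext b
    rw [Finset.mem_filter, Finset.mem_singleton, ag_full]
    exact ⟨fun h => h.2.symm, fun h => ⟨Finset.mem_univ _, h.symm⟩⟩
  rw [this, Finset.sum_singleton]

/-- all levels, with covers -/
theorem levels2 (H : SimpleGraph V) (φ : V → V → Cl m) (h : PEC H φ)
    {I J1 J2 : Type u} [Fintype I] [Fintype J1] [Fintype J2] (k : I → V → ℝ) (g : J1 → V → ℝ)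
    (q : J2 → V → ℝ) (K0 S L : ℕ)
    (Λ : ℝ) (hK : ∀ r v, k r v ≠ 0 → (mis H φ v).card ≤ K0)
    (hK1 : ∀ j v, g j v ≠ 0 → (mis H φ v).card ≤ K0)
    (hK2 : ∀ j v, q j v ≠ 0 → (mis H φ v).card ≤ K0)
    (hS : ∀ r, (univ.filter (fun v => k r v ≠ 0)).card ≤ S)
    (hS1 : ∀ j, (univ.filter (fun v => g j v ≠ 0)).card ≤ S)
    (hS2 : ∀ j, (univ.filter (fun v => q j v ≠ 0)).card ≤ S)
    (hL : ∀ v, (univ.filter (fun r => k r v ≠ 0)).card ≤ L)
    (hL1 : ∀ v, (univ.filter (fun j => g j v ≠ 0)).card ≤ L)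
    (hL2 : ∀ v, (univ.filter (fun j => q j v ≠ 0)).card ≤ L)
    (hg0 : ∀ j v, 0 ≤ g j v) (hg1 : ∀ j v, g j v ≤ 1)
    (hq0 : ∀ j v, 0 ≤ q j v) (hq1 : ∀ j v, q j v ≤ 1) (hL0 : 1 ≤ L) (hΛ0 : 0 ≤ Λ)
    (hΛ : 64 * ((S : ℝ) * K0 + 1) * L * (2 ^ m + 1) ≤ Real.exp Λ) (i : ℕ) (hi : i ≤ m) :
    ∃ φ' : V → V → Cl m, PEC H φ' ∧
      (∀ r, ∑ a, |cs H φ' (k r) i a - (∑ v, k r v * ((mis H φ v).card : ℝ)) / 2 ^ i| ≤
        2 ^ m / 2 ^ i * ∑ j ∈ range i, Real.sqrt (4 * K2 H φ (k r) * (2 ^ j * Real.log 2 + Λ))) ∧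
      (∀ j a, Real.sqrt (cs H φ' (g j) i a) ≤
        Real.sqrt ((∑ v, g j v * ((mis H φ v).card : ℝ)) / 2 ^ i) +
          (1 + Real.sqrt 2) * Real.sqrt Λ) ∧
      ∀ j a, Real.sqrt (cc H φ' (q j) i a) ≤
        Real.sqrt ((∑ v, q j v * ((univ.filter (fun w => H.Adj v w)).card : ℝ)) / 2 ^ i) +
          (1 + Real.sqrt 2) * Real.sqrt Λ := by
  induction i with
  | zero =>
    have h1 := Real.sqrt_nonneg Λ
    have h2 := Real.sqrt_nonneg 2
    have h3 : 0 ≤ (1 + Real.sqrt 2) * Real.sqrt Λ := by positivity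
    refine ⟨φ, h, fun r => ?_, fun j a => ?_, fun j a => ?_⟩
    · rw [Finset.range_zero, Finset.sum_empty, mul_zero]
      refine le_of_eq (Finset.sum_eq_zero fun a _ => ?_)
      rw [cs_zero, pow_zero, div_one, sub_self, abs_zero]
    · rw [cs_zero, pow_zero, div_one]
      linarith
    · rw [cc_zero H φ h, pow_zero, div_one]
      linarith
  | succ i ih =>
    obtain ⟨φ', h', h1, h2, h2'⟩ := ih (by omega)
    have hm : ∀ v, (mis H φ' v).card = (mis H φ v).card := mis_card_eq H φ φ' h h'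
    obtain ⟨f, h3, h4⟩ := level2 (⟨i, by omega⟩ : Fin m) H φ' h' k
      (Sum.elim g q : J1 ⊕ J2 → V → ℝ)
      (fun j a => Sum.elim (fun j => cs H φ' (g j) i a) (fun j => cc H φ' (q j) i a) j)
      K0 S (2 * L) Λ
      (fun r v hv => by rw [hm v]; exact hK r v hv)
      (by
        rintro (j | j) v hv
        · rw [hm v]
          exact hK1 j v hv
        · rw [hm v]
          exact hK2 j v hv)
      hS
      (by
        rintro (j | j)
        · exact hS1 j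
        · exact hS2 j)
      (fun v => (hL v).trans (by omega))
      (fun v => by
        have h5 : (univ.filter (fun j : J1 ⊕ J2 => (Sum.elim g q : J1 ⊕ J2 → V → ℝ) j v ≠ 0)).card ≤
            (univ.filter (fun j => g j v ≠ 0)).card + (univ.filter (fun j => q j v ≠ 0)).card := by
          rw [← Finset.card_disjSum]
          refine Finset.card_le_card ?_
          rintro (j | j) hj
          · rw [Finset.inl_mem_disjSum]
            exact Finset.mem_filter.2 ⟨Finset.mem_univ _, (Finset.mem_filter.1 hj).2⟩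
          · rw [Finset.inr_mem_disjSum]
            exact Finset.mem_filter.2 ⟨Finset.mem_univ _, (Finset.mem_filter.1 hj).2⟩
        have h6 := hL1 v
        have h7 := hL2 v
        omega)
      (by
        rintro (j | j) a
        · exact cs_nonneg H φ' (g j) (hg0 j) i a
        · exact cc_nonneg H φ' (q j) (hq0 j) i a)
      (by
        rintro (j | j) a
        · exact cY_sq _ H φ' h' (g j) a (hg0 j) (hg1 j)
        · exact cY_sq' _ H φ' h' (q j) a (hq0 j) (hq1 j))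
      (by omega) hΛ0
      (by
        refine le_trans (le_of_eq ?_) hΛ
        push_cast
        ring)
    refine ⟨nw (⟨i, by omega⟩ : Fin m) H φ' h' f, nw_pec _ H φ' h' f, fun r => ?_, fun j a => ?_,
      fun j a => ?_⟩
    · set Wr := ∑ v, k r v * ((mis H φ v).card : ℝ) with hWr
      have h5 := h3 r
      rw [K2_eq H φ φ' h h' (k r)] at h5
      have h6 := h1 r
      have h7 : ∀ a, |cs H (nw (⟨i, by omega⟩ : Fin m) H φ' h' f) (k r) (i + 1) a -
          Wr / 2 ^ (i + 1)| ≤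
          |cs H (nw (⟨i, by omega⟩ : Fin m) H φ' h' f) (k r) (i + 1) a -
            1 / 2 * cs H φ' (k r) i a| + 1 / 2 * |cs H φ' (k r) i a - Wr / 2 ^ i| := by
        intro a
        have h8 : cs H (nw (⟨i, by omega⟩ : Fin m) H φ' h' f) (k r) (i + 1) a -
          Wr / 2 ^ (i + 1) = (cs H (nw (⟨i, by omega⟩ : Fin m) H φ' h' f) (k r) (i + 1) a -
            1 / 2 * cs H φ' (k r) i a) + 1 / 2 * (cs H φ' (k r) i a - Wr / 2 ^ i) := by
          rw [pow_succ]
          field_simp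
          ring
        rw [h8]
        refine (abs_add_le _ _).trans (add_le_add_right (le_of_eq ?_) _)
        rw [abs_mul, abs_of_nonneg (by norm_num : (0 : ℝ) ≤ 1 / 2)]
      refine (Finset.sum_le_sum fun a _ => h7 a).trans ?_
      rw [Finset.sum_add_distrib, ← Finset.mul_sum, Finset.sum_range_succ]
      have h9 : (2 : ℝ) ^ m / 2 ^ (i + 1) = 1 / 2 * (2 ^ m / 2 ^ i) := by
        rw [pow_succ]
        field_simp
      refine (add_le_add h5 (mul_le_mul_of_nonneg_left h6 (by norm_num : (0 : ℝ) ≤ 1 / 2))).trans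
        (le_of_eq ?_)
      rw [h9]
      ring
    · set Gj := ∑ v, g j v * ((mis H φ v).card : ℝ) with hGj
      have hG0 : 0 ≤ Gj := Finset.sum_nonneg fun v _ => mul_nonneg (hg0 j v) (Nat.cast_nonneg _)
      have h5 := (abs_le.1 (h4 (Sum.inl j) a)).2
      have h6 := sqrt_step (cs H φ' (g j) i a)
        (cs H (nw (⟨i, by omega⟩ : Fin m) H φ' h' f) (g j) (i + 1) a) Λ
        (Real.sqrt (Gj / 2 ^ i)) (cs_nonneg H φ' (g j) (hg0 j) i a) hΛ0
        (by
          simp only [Sum.elim_inl] at h5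
          linarith) (h2 j a)
      refine h6.trans (le_of_eq ?_)
      rw [← Real.sqrt_div (by positivity), pow_succ, div_div]
    · set Gj := ∑ v, q j v * ((univ.filter (fun w => H.Adj v w)).card : ℝ) with hGj
      have hG0 : 0 ≤ Gj := Finset.sum_nonneg fun v _ => mul_nonneg (hq0 j v) (Nat.cast_nonneg _)
      have h5 := (abs_le.1 (h4 (Sum.inr j) a)).1
      simp only [Sum.elim_inr] at h5
      have h7 : cc H (nw (⟨i, by omega⟩ : Fin m) H φ' h' f) (q j) (i + 1) a ≤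
          1 / 2 * cc H φ' (q j) i a + Real.sqrt (Λ * cc H φ' (q j) i a) := by
        have h8 := cc_eq H φ' (q j) i (by omega) a
        have h9 := cc_eq H (nw (⟨i, by omega⟩ : Fin m) H φ' h' f) (q j) (i + 1) hi a
        have h10 : (2 : ℝ) ^ m / 2 ^ (i + 1) = 1 / 2 * (2 ^ m / 2 ^ i) := by
          rw [pow_succ]
          field_simp
        rw [h10] at h9
        linarith
      have h6 := sqrt_step (cc H φ' (q j) i a)
        (cc H (nw (⟨i, by omega⟩ : Fin m) H φ' h' f) (q j) (i + 1) a) Λ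
        (Real.sqrt (Gj / 2 ^ i)) (cc_nonneg H φ' (q j) (hq0 j) i a) hΛ0 h7 (h2' j a)
      refine h6.trans (le_of_eq ?_)
      rw [← Real.sqrt_div (by positivity), pow_succ, div_div]

/-- final arithmetic -/
theorem sq_bound (w G Λ : ℝ) (hw : 0 ≤ w) (hG : 0 ≤ G) (hΛ0 : 0 ≤ Λ)
    (h : Real.sqrt w ≤ Real.sqrt G + (1 + Real.sqrt 2) * Real.sqrt Λ) : w ≤ 2 * G + 12 * Λ := by
  have h4 : w ≤ (Real.sqrt G + (1 + Real.sqrt 2) * Real.sqrt Λ) ^ 2 := by
    rw [← Real.sq_sqrt hw]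
    exact pow_le_pow_left₀ (Real.sqrt_nonneg _) h 2
  have h5 : (Real.sqrt G + (1 + Real.sqrt 2) * Real.sqrt Λ) ^ 2 ≤
      2 * Real.sqrt G ^ 2 + 2 * ((1 + Real.sqrt 2) * Real.sqrt Λ) ^ 2 := by
    nlinarith [sq_nonneg (Real.sqrt G - (1 + Real.sqrt 2) * Real.sqrt Λ)]
  have h6 : Real.sqrt G ^ 2 = G := Real.sq_sqrt hG
  have h7 : ((1 + Real.sqrt 2) * Real.sqrt Λ) ^ 2 = (1 + Real.sqrt 2) ^ 2 * Λ := by
    rw [mul_pow, Real.sq_sqrt hΛ0]
  have h8 : (1 + Real.sqrt 2) ^ 2 ≤ 6 := by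
    have h9 : Real.sqrt 2 ≤ 1.415 := by
      rw [Real.sqrt_le_left (by norm_num)]
      norm_num
    have h10 := Real.sqrt_nonneg 2
    nlinarith
  rw [h6, h7] at h5
  have h9 := mul_le_mul_of_nonneg_right h8 hΛ0
  linarith

/-- smoothing, with covers, `2 ^ m` colours -/
theorem smooth2 (H : SimpleGraph V) (φ : V → V → Cl m) (h : PEC H φ)
    {I J1 J2 : Type u} [Fintype I] [Fintype J1] [Fintype J2] (k : I → V → ℝ) (g : J1 → V → ℝ)
    (q : J2 → V → ℝ) (K0 S L : ℕ)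
    (Λ : ℝ) (hK : ∀ r v, k r v ≠ 0 → (mis H φ v).card ≤ K0)
    (hK1 : ∀ j v, g j v ≠ 0 → (mis H φ v).card ≤ K0)
    (hK2 : ∀ j v, q j v ≠ 0 → (mis H φ v).card ≤ K0)
    (hS : ∀ r, (univ.filter (fun v => k r v ≠ 0)).card ≤ S)
    (hS1 : ∀ j, (univ.filter (fun v => g j v ≠ 0)).card ≤ S)
    (hS2 : ∀ j, (univ.filter (fun v => q j v ≠ 0)).card ≤ S)
    (hL : ∀ v, (univ.filter (fun r => k r v ≠ 0)).card ≤ L)
    (hL1 : ∀ v, (univ.filter (fun j => g j v ≠ 0)).card ≤ L)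
    (hL2 : ∀ v, (univ.filter (fun j => q j v ≠ 0)).card ≤ L)
    (hg0 : ∀ j v, 0 ≤ g j v) (hg1 : ∀ j v, g j v ≤ 1)
    (hq0 : ∀ j v, 0 ≤ q j v) (hq1 : ∀ j v, q j v ≤ 1) (hL0 : 1 ≤ L) (hΛ0 : 0 ≤ Λ)
    (hΛ : 64 * ((S : ℝ) * K0 + 1) * L * (2 ^ m + 1) ≤ Real.exp Λ) :
    ∃ φ' : V → V → Cl m, PEC H φ' ∧
      (∀ r, ∑ b, |wt H φ' (k r) b - (∑ v, k r v * ((mis H φ v).card : ℝ)) / 2 ^ m| ≤
        Real.sqrt (∑ v, k r v ^ 2 * ((mis H φ v).card : ℝ)) *
          (5 * Real.sqrt (2 ^ m) + 2 * m * Real.sqrt Λ)) ∧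
      (∀ j b, wt H φ' (g j) b ≤
        2 * ((∑ v, g j v * ((mis H φ v).card : ℝ)) / 2 ^ m) + 12 * Λ) ∧
      ∀ j b, wc H φ' (q j) b ≤ 2 * ((∑ v, q j v *
        ((univ.filter (fun w => H.Adj v w)).card : ℝ)) / 2 ^ m) + 12 * Λ := by
  obtain ⟨φ', h', h1, h2, h3⟩ := levels2 H φ h k g q K0 S L Λ hK hK1 hK2 hS hS1 hS2 hL hL1 hL2
    hg0 hg1 hq0 hq1 hL0 hΛ0 hΛ m le_rfl
  refine ⟨φ', h', fun r => ?_, fun j b => ?_, fun j b => ?_⟩
  · have h3 := h1 r
    simp only [cs_full] at h3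
    refine h3.trans ?_
    rw [div_self (by positivity), one_mul]
    exact noise_sum (K2 H φ (k r)) Λ (K2_nonneg H φ (k r)) hΛ0 m
  · have h4 := h2 j b
    rw [cs_full] at h4
    exact sq_bound _ _ Λ (wt_nonneg H φ' (g j) (hg0 j) b) (div_nonneg (Finset.sum_nonneg
      fun v _ => mul_nonneg (hg0 j v) (Nat.cast_nonneg _)) (by positivity)) hΛ0 h4
  · have h4 := h3 j b
    rw [cc_full] at h4
    exact sq_bound _ _ Λ (wc_nonneg H φ' (q j) (hq0 j) b) (div_nonneg (Finset.sum_nonneg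
      fun v _ => mul_nonneg (hq0 j v) (Nat.cast_nonneg _)) (by positivity)) hΛ0 h4

end cover

end Pool.Agent.Work.MP_db9399_tk
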