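import Pool.Agent.Work.MP_db9399_all_helper6.LLLI

/-!
# MP_db9399, all scales: smoothing of the tokens of an edge colouring by Kempe coins, part 1

Colours are binary words. Definitions, Kempe components have at most two ends, Hoeffding.
-/

set_option autoImplicit false

namespace Pool.Agent.Work.MP_db9399_tk

open Finset Classical

open Pool.Agent.Work.MP_db9399_all (pr DepOnI PackI stmt_LLLI)

universe u v

/-- a proper edge colouring of `H` -/
structure PEC {V : Type u} {C : Type v} (H : SimpleGraph V) (φ : V → V → C) : Prop where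
  sym : ∀ v w, φ v w = φ w v
  inj : ∀ v w w', H.Adj v w → H.Adj v w' → φ v w = φ v w' → w = w'

/-- the colours missing at `v` -/
noncomputable def mis {V : Type u} {C : Type v} [Fintype C] (H : SimpleGraph V) (φ : V → V → C)
    (v : V) : Finset C :=
  univ.filter (fun b => ∀ w, H.Adj v w → φ v w ≠ b)

theorem mem_mis {V : Type u} {C : Type v} [Fintype C] (H : SimpleGraph V) (φ : V → V → C)
    (v : V) (b : C) : b ∈ mis H φ v ↔ ∀ w, H.Adj v w → φ v w ≠ b := by
  unfold mis
  rw [Finset.mem_filter]
  exact ⟨fun h => h.2, fun h => ⟨Finset.mem_univ _, h⟩⟩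

/-- the weight of the tokens of colour `b` -/
noncomputable def wt {V : Type u} [Fintype V] {C : Type v} [Fintype C] (H : SimpleGraph V)
    (φ : V → V → C) (k : V → ℝ) (b : C) : ℝ :=
  ∑ v, if b ∈ mis H φ v then k v else 0

theorem card_mis {V : Type u} [Fintype V] {C : Type v} [Fintype C] (H : SimpleGraph V)
    (φ : V → V → C) (h : PEC H φ) (v : V) :
    (mis H φ v).card + (univ.filter (fun w => H.Adj v w)).card = Fintype.card C := by
  have h1 : ((univ.filter (fun w => H.Adj v w)).image (φ v)).card =
      (univ.filter (fun w => H.Adj v w)).card := by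
    refine Finset.card_image_of_injOn ?_
    intro w hw w' hw' hh
    exact h.inj v w w' (Finset.mem_filter.1 hw).2 (Finset.mem_filter.1 hw').2 hh
  have h2 : mis H φ v = ((univ.filter (fun w => H.Adj v w)).image (φ v))ᶜ := by
    ext b
    rw [mem_mis]
    simp only [Finset.mem_filter, Finset.mem_univ, true_and, Finset.mem_compl,
      Finset.mem_image, not_exists, not_and]
  rw [h2, Finset.card_compl, h1]
  have h3 : (univ.filter (fun w => H.Adj v w)).card ≤ Fintype.card C := by
    rw [← h1]
    exact Finset.card_le_univ _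
  omega

/-! ## Binary colours -/

/-- binary words -/
abbrev Cl (m : ℕ) := Fin m → Bool

section words
variable {m : ℕ}

/-- flip the letter `i` -/
def fl (i : Fin m) (b : Cl m) : Cl m := Function.update b i (!b i)

theorem fl_same (i : Fin m) (b : Cl m) : fl i b i = !b i := by
  unfold fl
  rw [Function.update_self]

theorem fl_other (i j : Fin m) (b : Cl m) (h : j ≠ i) : fl i b j = b j := by
  unfold fl
  rw [Function.update_of_ne h]

theorem fl_fl (i : Fin m) (b : Cl m) : fl i (fl i b) = b := by
  funext j
  by_cases h : j = i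
  · subst h
    rw [fl_same, fl_same, Bool.not_not]
  · rw [fl_other _ _ _ h, fl_other _ _ _ h]

theorem fl_ne (i : Fin m) (b : Cl m) : fl i b ≠ b := by
  intro h
  have := congrFun h i
  rw [fl_same] at this
  cases hb : b i <;> simp [hb] at this

theorem fl_inj (i : Fin m) (b b' : Cl m) (h : fl i b = fl i b') : b = b' := by
  rw [← fl_fl i b, h, fl_fl]

/-- the member of the pair with the letter `i` equal to `false` -/
def b0 (i : Fin m) (b : Cl m) : Cl m := Function.update b i false

theorem b0_fl (i : Fin m) (b : Cl m) : b0 i (fl i b) = b0 i b := by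
  unfold b0 fl
  rw [Function.update_idem]

theorem b0_false (i : Fin m) (b : Cl m) (h : b i = false) : b0 i b = b := by
  unfold b0
  rw [← h, Function.update_eq_self]

theorem b0_true (i : Fin m) (b : Cl m) (h : b i = true) : b0 i b = fl i b := by
  unfold b0 fl
  rw [h, Bool.not_true]

theorem b0_at (i : Fin m) (b : Cl m) : b0 i b i = false := by
  unfold b0
  rw [Function.update_self]

theorem eq_of_b0 (i : Fin m) (b c : Cl m) (h : b0 i b = b0 i c) : b = c ∨ b = fl i c := by
  cases hb : b i <;> cases hc : c i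
  · left
    rw [b0_false i b hb, b0_false i c hc] at h
    exact h
  · right
    rw [b0_false i b hb, b0_true i c hc] at h
    exact h
  · right
    rw [b0_true i b hb, b0_false i c hc] at h
    rw [← h, fl_fl]
  · left
    rw [b0_true i b hb, b0_true i c hc] at h
    exact fl_inj i b c h

/-- the words agree on the first `i` letters -/
def ag (i : ℕ) (a b : Cl m) : Prop := ∀ j : Fin m, (j : ℕ) < i → a j = b j

theorem ag_refl (i : ℕ) (a : Cl m) : ag i a a := fun _ _ => rfl

theorem ag_symm {i : ℕ} {a b : Cl m} (h : ag i a b) : ag i b a := fun j hj => (h j hj).symm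

theorem ag_trans {i : ℕ} {a b c : Cl m} (h : ag i a b) (h' : ag i b c) : ag i a c :=
  fun j hj => (h j hj).trans (h' j hj)

theorem ag_comm {i : ℕ} {a b : Cl m} : ag i a b ↔ ag i b a := ⟨ag_symm, ag_symm⟩

theorem ag_succ (i : Fin m) (a b : Cl m) : ag (i + 1) a b ↔ ag i a b ∧ a i = b i := by
  constructor
  · intro h
    exact ⟨fun j hj => h j (by omega), h i (by omega)⟩
  · rintro ⟨h, h'⟩ j hj
    by_cases hji : j = i
    · rw [hji]
      exact h'
    · refine h j ?_
      have : (j : ℕ) ≠ i := fun h => hji (Fin.ext h)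
      omega

theorem ag_zero (a b : Cl m) : ag 0 a b := fun j hj => absurd hj (by omega)

theorem ag_full (a b : Cl m) : ag m a b ↔ a = b := by
  constructor
  · intro h
    funext j
    exact h j j.2
  · rintro rfl
    exact ag_refl _ _

theorem ag_fl (i : Fin m) (a : Cl m) : ag i (fl i a) a := by
  intro j hj
  refine fl_other _ _ _ ?_
  rintro rfl
  omega

theorem ag_fl_iff (i : Fin m) (a b : Cl m) : ag i (fl i a) b ↔ ag i a b :=
  ⟨fun h => ag_trans (ag_symm (ag_fl i a)) h, fun h => ag_trans (ag_fl i a) h⟩

theorem ag_fl_iff' (i : Fin m) (a b : Cl m) : ag i a (fl i b) ↔ ag i a b := by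
  rw [ag_comm, ag_fl_iff, ag_comm]

/-- flipping both words -/
theorem ag_succ_fl (i : Fin m) (a b : Cl m) : ag (i + 1) (fl i a) b ↔ ag (i + 1) a (fl i b) := by
  rw [ag_succ, ag_succ, ag_fl_iff, ag_fl_iff', fl_same, fl_same]
  refine and_congr_right fun _ => ?_
  cases a i <;> cases b i <;> simp

/-- a sum over the class splits into two -/
theorem sum_split (i : Fin m) (a : Cl m) (f : Cl m → ℝ) :
    ∑ b ∈ univ.filter (fun b => ag i a b), f b =
      ∑ b ∈ univ.filter (fun b => ag (i + 1) a b), (f b + f (fl i b)) := by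
  rw [Finset.sum_add_distrib]
  have h1 : ∑ b ∈ univ.filter (fun b => ag (i + 1) a b), f (fl i b) =
      ∑ b ∈ univ.filter (fun b => ag i a b ∧ a i ≠ b i), f b := by
    refine Finset.sum_nbij' (fun b => fl i b) (fun b => fl i b) ?_ ?_ ?_ ?_ ?_
    · intro b hb
      rw [Finset.mem_filter, ag_succ] at hb
      rw [Finset.mem_filter]
      refine ⟨Finset.mem_univ _, (ag_fl_iff' i a b).2 hb.2.1, ?_⟩
      rw [fl_same, ← hb.2.2]
      cases a i <;> simp
    · intro b hb
      rw [Finset.mem_filter] at hb
      rw [Finset.mem_filter, ag_succ]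
      refine ⟨Finset.mem_univ _, (ag_fl_iff' i a b).2 hb.2.1, ?_⟩
      rw [fl_same]
      have := hb.2.2
      cases h1 : a i <;> cases h2 : b i <;> simp [h1, h2] at this ⊢
    · intro b _
      exact fl_fl i b
    · intro b _
      exact fl_fl i b
    · intro b _
      rfl
  rw [h1, ← Finset.sum_filter_add_sum_filter_not (univ.filter (fun b => ag i a b))
    (fun b => a i = b i), Finset.filter_filter, Finset.filter_filter]
  congr 1
  refine Finset.sum_congr ?_ fun _ _ => rfl
  ext b
  rw [Finset.mem_filter, Finset.mem_filter, ag_succ]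

/-- the size of the classes -/
theorem card_class (i : ℕ) (hi : i ≤ m) (a : Cl m) :
    ((univ.filter (fun b => ag i a b)).card : ℝ) = 2 ^ m / 2 ^ i := by
  induction i with
  | zero =>
    have : univ.filter (fun b => ag 0 a b) = univ :=
      Finset.filter_true_of_mem fun b _ => ag_zero a b
    rw [this, Finset.card_univ, Fintype.card_fun, Fintype.card_bool, Fintype.card_fin]
    simp
  | succ i ih =>
    have h1 := ih (by omega)
    have h2 := sum_split (⟨i, by omega⟩ : Fin m) a (fun _ => 1)
    simp only [Finset.sum_const, nsmul_eq_mul, mul_one] at h2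
    rw [h1] at h2
    have h3 : ((univ.filter (fun b => ag (i + 1) a b)).card : ℝ) * (1 + 1) = 2 ^ m / 2 ^ i :=
      h2.symm
    rw [pow_succ, ← div_div, ← h3]
    ring

end words

/-! ## Components -/

section comp
variable {V : Type u} [Fintype V] {C : Type v}

/-- the subgraph of the colours `a`, `b` -/
def two (H : SimpleGraph V) (φ : V → V → C) (h : ∀ v w, φ v w = φ w v) (a b : C) :
    SimpleGraph V where
  Adj v w := H.Adj v w ∧ (φ v w = a ∨ φ v w = b)
  symm := ⟨fun v w h' => ⟨h'.1.symm, by rw [h w v]; exact h'.2⟩⟩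
  loopless := ⟨fun v h => H.loopless.irrefl v h.1⟩

theorem comp_le (H : SimpleGraph V) (φ : V → V → C) (hc : PEC H φ) (a b : C)
    (u : V) (X : Finset V) (hX : ∀ w ∈ X, (∀ z, H.Adj w z → φ w z ≠ a) ∨ ∀ z, H.Adj w z → φ w z ≠ b)
    (hX' : ∀ w ∈ X, (two H φ hc.sym a b).Reachable u w) : X.card ≤ 2 := by
  set K := two H φ hc.sym a b with hK
  set comp := K.connectedComponentMk u with hcomp
  have hmem : ∀ w ∈ X, w ∈ comp := by
    intro w hw
    exact (SimpleGraph.ConnectedComponent.mem_supp_iff comp w).2
      (SimpleGraph.ConnectedComponent.sound (hX' w hw).symm)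
  let L := comp.toSimpleGraph
  have hconn : L.Connected := comp.connected_toSimpleGraph
  have h1 := hconn.card_vert_le_card_edgeSet_add_one
  have h2 := L.sum_degrees_eq_twice_card_edges
  rw [Nat.card_eq_fintype_card, Nat.card_eq_fintype_card, ← SimpleGraph.edgeFinset_card] at h1
  have hadj : ∀ x y : comp, L.Adj x y → K.Adj x.1 y.1 := fun x y h => h
  have hdeg : ∀ x : comp, L.degree x ≤ 2 := by
    intro x
    have : (L.neighborFinset x).card ≤ ({a, b} : Finset C).card := by
      refine Finset.card_le_card_of_injOn (fun y => φ x.1 y.1) ?_ ?_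
      · intro y hy
        rw [Finset.mem_coe, SimpleGraph.mem_neighborFinset] at hy
        have := (hadj x y hy).2
        simpa using this
      · intro y hy z hz h
        rw [Finset.mem_coe, SimpleGraph.mem_neighborFinset] at hy hz
        exact Subtype.ext (hc.inj x.1 y.1 z.1 (hadj x y hy).1 (hadj x z hz).1 h)
    exact this.trans (Finset.card_le_two)
  have hdeg1 : ∀ x : comp, x.1 ∈ X → L.degree x ≤ 1 := by
    intro x hx
    obtain ⟨e, he⟩ : ∃ e : C, ∀ y, L.Adj x y → φ x.1 y.1 = e := by
      rcases hX x.1 hx with h3 | h3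
      · refine ⟨b, fun y hy => ?_⟩
        have h4 := hadj x y hy
        exact h4.2.resolve_left (h3 y.1 h4.1)
      · refine ⟨a, fun y hy => ?_⟩
        have h4 := hadj x y hy
        exact h4.2.resolve_right (h3 y.1 h4.1)
    have : (L.neighborFinset x).card ≤ ({e} : Finset C).card := by
      refine Finset.card_le_card_of_injOn (fun y => φ x.1 y.1) ?_ ?_
      · intro y hy
        rw [Finset.mem_coe, SimpleGraph.mem_neighborFinset] at hy
        simp [he y hy]
      · intro y hy z hz h
        rw [Finset.mem_coe, SimpleGraph.mem_neighborFinset] at hy hz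
        exact Subtype.ext (hc.inj x.1 y.1 z.1 (hadj x y hy).1 (hadj x z hz).1 h)
    simpa using this
  have h3 : ∑ x : comp, L.degree x + X.card ≤ 2 * Fintype.card comp := by
    have h4 : X.card = ∑ x : comp, (if x.1 ∈ X then 1 else 0) := by
      rw [← Finset.card_filter]
      symm
      refine Finset.card_bij (fun x _ => x.1) ?_ ?_ ?_
      · intro x hx
        exact (Finset.mem_filter.1 hx).2
      · intro x _ y _ h
        exact Subtype.ext h
      · intro x hx
        exact ⟨⟨x, hmem x hx⟩, Finset.mem_filter.2 ⟨Finset.mem_univ _, hx⟩, rfl⟩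
    rw [h4, ← Finset.sum_add_distrib]
    calc ∑ x : comp, (L.degree x + if x.1 ∈ X then 1 else 0) ≤ ∑ _x : comp, 2 := by
          refine Finset.sum_le_sum fun x _ => ?_
          split_ifs with hx
          · have := hdeg1 x hx
            omega
          · have := hdeg x
            omega
      _ = 2 * Fintype.card comp := by
          rw [Finset.sum_const, Finset.card_univ, smul_eq_mul, mul_comm]
  have h5 : ∑ x : comp, L.degree x = 2 * L.edgeFinset.card := h2
  omega

end comp

/-! ## Hoeffding -/

section hoeffding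

/-- sign of a coin -/
noncomputable def sg (x : Fin 2) : ℝ := if x = 1 then -1 else 1

theorem hoeff {J : Type u} [Fintype J] (c : J → ℝ) (t s : ℝ) (hs : 0 < s) (ht : 0 ≤ t)
    (hc : ∑ j, c j ^ 2 ≤ s) :
    pr (fun f : J → Fin 2 => t < ∑ j, sg (f j) * c j) ≤ Real.exp (-(t ^ 2 / (2 * s))) := by
  set lam := t / s with hlam
  have hl0 : 0 ≤ lam := div_nonneg ht hs.le
  have hcard : (0 : ℝ) < Fintype.card (J → Fin 2) := by exact_mod_cast Fintype.card_pos
  have h1 : ((univ.filter (fun f : J → Fin 2 => t < ∑ j, sg (f j) * c j)).card : ℝ) *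
      Real.exp (lam * t) ≤ ∑ f : J → Fin 2, Real.exp (lam * ∑ j, sg (f j) * c j) := by
    rw [← nsmul_eq_mul, ← Finset.sum_const]
    refine (Finset.sum_le_sum (g := fun f : J → Fin 2 => Real.exp (lam * ∑ j, sg (f j) * c j))
      fun f hf => ?_).trans (Finset.sum_le_sum_of_subset_of_nonneg (Finset.subset_univ _)
      fun f _ _ => (Real.exp_pos _).le)
    exact Real.exp_le_exp.2 (mul_le_mul_of_nonneg_left (Finset.mem_filter.1 hf).2.le hl0)
  have h2 : ∑ f : J → Fin 2, Real.exp (lam * ∑ j, sg (f j) * c j) =
      ∏ j, ∑ x : Fin 2, Real.exp (lam * (sg x * c j)) := by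
    rw [Finset.prod_univ_sum]
    rw [Fintype.piFinset_univ]
    refine Finset.sum_congr rfl fun f _ => ?_
    rw [Finset.mul_sum, Real.exp_sum]
  have h3 : ∀ j, ∑ x : Fin 2, Real.exp (lam * (sg x * c j)) ≤
      2 * Real.exp (lam ^ 2 * c j ^ 2 / 2) := by
    intro j
    rw [Fin.sum_univ_two]
    have e0 : sg 0 = 1 := by simp [sg]
    have e1 : sg 1 = -1 := by simp [sg]
    rw [e0, e1]
    have h4 := Real.cosh_le_exp_half_sq (lam * c j)
    rw [Real.cosh_eq] at h4
    have h5 : lam * (1 * c j) = lam * c j := by ring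
    have h6 : lam * (-1 * c j) = -(lam * c j) := by ring
    have h7 : (lam * c j) ^ 2 / 2 = lam ^ 2 * c j ^ 2 / 2 := by ring
    rw [h5, h6, ← h7]
    linarith
  have h4 : ∏ j, ∑ x : Fin 2, Real.exp (lam * (sg x * c j)) ≤
      (Fintype.card (J → Fin 2) : ℝ) * Real.exp (lam ^ 2 * s / 2) := by
    refine (Finset.prod_le_prod (fun j _ => Finset.sum_nonneg fun x _ => (Real.exp_pos _).le)
      fun j _ => h3 j).trans ?_
    rw [Finset.prod_mul_distrib, Finset.prod_const, ← Real.exp_sum, Finset.card_univ,
      Fintype.card_fun, Fintype.card_fin]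
    push_cast
    refine mul_le_mul_of_nonneg_left (Real.exp_le_exp.2 ?_) (by positivity)
    rw [← Finset.sum_div, ← Finset.mul_sum]
    have := mul_le_mul_of_nonneg_left hc (sq_nonneg lam)
    linarith
  have h5 := h1.trans (h2.le.trans h4)
  unfold pr
  rw [div_le_iff₀ hcard]
  have h6 : Real.exp (lam ^ 2 * s / 2) = Real.exp (-(t ^ 2 / (2 * s))) * Real.exp (lam * t) := by
    rw [← Real.exp_add]
    congr 1
    rw [hlam]
    field_simp
    ring
  rw [h6] at h5
  have h7 := Real.exp_pos (lam * t)
  have h8 : ((univ.filter (fun f : J → Fin 2 => t < ∑ j, sg (f j) * c j)).card : ℝ) *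
      Real.exp (lam * t) ≤ (Real.exp (-(t ^ 2 / (2 * s))) * (Fintype.card (J → Fin 2) : ℝ)) *
        Real.exp (lam * t) := by
    linarith
  exact le_of_mul_le_mul_right h8 h7

end hoeffding

end Pool.Agent.Work.MP_db9399_tk
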