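import Pool.Agent.Work.MP_db9399_tk_helper59.Base

/-!
# MP_db9399, all scales: smoothing of the tokens of an edge colouring by Kempe coins, part 2

The flip of the Kempe components of all pairs `{b, fl i b}` by coins.
-/

set_option autoImplicit false

namespace Pool.Agent.Work.MP_db9399_tk

open Finset Classical

open Pool.Agent.Work.MP_db9399_all (pr DepOnI PackI stmt_LLLI)

universe u v

section coin
variable {V : Type u} [Fintype V] {m : ℕ}

/-- the two-coloured graph of the pair of `b` -/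
def Kg (i : Fin m) (H : SimpleGraph V) (φ : V → V → Cl m) (h : PEC H φ) (b : Cl m) :
    SimpleGraph V := two H φ h.sym b (fl i b)

/-- the representative of the component of `v` -/
noncomputable def rp (i : Fin m) (H : SimpleGraph V) (φ : V → V → Cl m) (h : PEC H φ) (b : Cl m)
    (v : V) : V := Quot.out ((Kg i H φ h b).connectedComponentMk v)

theorem rp_adj (i : Fin m) (H : SimpleGraph V) (φ : V → V → Cl m) (h : PEC H φ) (b : Cl m)
    (v w : V) (hvw : (Kg i H φ h b).Adj v w) : rp i H φ h b v = rp i H φ h b w := by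
  unfold rp
  rw [SimpleGraph.ConnectedComponent.sound hvw.reachable]

theorem reach_rp (i : Fin m) (H : SimpleGraph V) (φ : V → V → Cl m) (h : PEC H φ) (b : Cl m)
    (v w : V) (hvw : rp i H φ h b v = rp i H φ h b w) : (Kg i H φ h b).Reachable v w := by
  apply SimpleGraph.ConnectedComponent.exact
  have h1 : ∀ x, (Kg i H φ h b).connectedComponentMk (rp i H φ h b x) =
      (Kg i H φ h b).connectedComponentMk x := fun x => Quot.out_eq _
  rw [← h1 v, ← h1 w, hvw]

/-- indicator of a missing colour -/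
noncomputable def xm (H : SimpleGraph V) (φ : V → V → Cl m) (b : Cl m) (v : V) : ℝ :=
  if b ∈ mis H φ v then 1 else 0

/-- difference of the indicators of the pair -/
noncomputable def dx (i : Fin m) (H : SimpleGraph V) (φ : V → V → Cl m) (b : Cl m) (v : V) : ℝ :=
  xm H φ b v - xm H φ (fl i b) v

/-- the colouring after the flips -/
noncomputable def nw (i : Fin m) (H : SimpleGraph V) (φ : V → V → Cl m) (h : PEC H φ)
    (f : Cl m × V → Fin 2) (v w : V) : Cl m :=
  if H.Adj v w then
    (if f (b0 i (φ v w), rp i H φ h (b0 i (φ v w)) v) = 1 then fl i (φ v w) else φ v w)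
  else φ v w

theorem b0_or (i : Fin m) (c : Cl m) : c = b0 i c ∨ c = fl i (b0 i c) := by
  cases hc : c i
  · left
    rw [b0_false i c hc]
  · right
    rw [b0_true i c hc, fl_fl]

theorem rp_edge (i : Fin m) (H : SimpleGraph V) (φ : V → V → Cl m) (h : PEC H φ) (v w : V)
    (hvw : H.Adj v w) : rp i H φ h (b0 i (φ v w)) v = rp i H φ h (b0 i (φ v w)) w := by
  apply rp_adj
  exact ⟨hvw, b0_or i (φ v w)⟩

theorem b0_nw (i : Fin m) (H : SimpleGraph V) (φ : V → V → Cl m) (h : PEC H φ)
    (f : Cl m × V → Fin 2) (v w : V) : b0 i (nw i H φ h f v w) = b0 i (φ v w) := by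
  unfold nw
  split_ifs
  · rw [b0_fl]
  · rfl
  · rfl

theorem nw_pec (i : Fin m) (H : SimpleGraph V) (φ : V → V → Cl m) (h : PEC H φ)
    (f : Cl m × V → Fin 2) : PEC H (nw i H φ h f) where
  sym v w := by
    unfold nw
    by_cases hvw : H.Adj v w
    · rw [if_pos hvw, if_pos hvw.symm, rp_edge i H φ h v w hvw, h.sym v w]
    · rw [if_neg hvw, if_neg fun h' => hvw h'.symm]
      exact h.sym v w
  inj v w w' hw hw' he := by
    have h1 : b0 i (φ v w) = b0 i (φ v w') := by
      rw [← b0_nw i H φ h f v w, ← b0_nw i H φ h f v w', he]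
    unfold nw at he
    rw [if_pos hw, if_pos hw', h1] at he
    split_ifs at he
    · exact h.inj v w w' hw hw' (fl_inj i _ _ he)
    · exact h.inj v w w' hw hw' he

theorem mis_nw (i : Fin m) (H : SimpleGraph V) (φ : V → V → Cl m) (h : PEC H φ)
    (f : Cl m × V → Fin 2) (b : Cl m) (v : V) :
    b ∈ mis H (nw i H φ h f) v ↔
      (if f (b0 i b, rp i H φ h (b0 i b) v) = 1 then fl i b else b) ∈ mis H φ v := by
  rw [mem_mis, mem_mis]
  refine forall₂_congr fun w hw => not_congr ?_
  constructor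
  · intro he
    have h1 : b0 i (φ v w) = b0 i b := by rw [← b0_nw i H φ h f v w, he]
    unfold nw at he
    rw [if_pos hw, h1] at he
    split_ifs at he ⊢ with hc
    · rw [← he, fl_fl]
    · exact he
  · intro he
    have h1 : b0 i (φ v w) = b0 i b := by
      rw [he]
      split_ifs
      · rw [b0_fl]
      · rfl
    unfold nw
    rw [if_pos hw, h1]
    split_ifs at he ⊢ with hc
    · rw [he, fl_fl]
    · exact he

theorem xm_add (i : Fin m) (H : SimpleGraph V) (φ : V → V → Cl m) (h : PEC H φ)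
    (f : Cl m × V → Fin 2) (b : Cl m) (v : V) :
    xm H (nw i H φ h f) b v + xm H (nw i H φ h f) (fl i b) v = xm H φ b v + xm H φ (fl i b) v := by
  unfold xm
  simp only [mis_nw, b0_fl, fl_fl]
  by_cases hc : f (b0 i b, rp i H φ h (b0 i b) v) = 1
  · simp only [if_pos hc]
    rw [add_comm]
  · simp only [if_neg hc]

theorem dx_nw (i : Fin m) (H : SimpleGraph V) (φ : V → V → Cl m) (h : PEC H φ)
    (f : Cl m × V → Fin 2) (b : Cl m) (v : V) :
    dx i H (nw i H φ h f) b v = sg (f (b0 i b, rp i H φ h (b0 i b) v)) * dx i H φ b v := by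
  unfold dx xm sg
  simp only [mis_nw, b0_fl, fl_fl]
  by_cases hc : f (b0 i b, rp i H φ h (b0 i b) v) = 1
  · simp only [if_pos hc]
    ring
  · simp only [if_neg hc]
    ring

theorem dx_fl (i : Fin m) (H : SimpleGraph V) (φ : V → V → Cl m) (b : Cl m) (v : V) :
    dx i H φ (fl i b) v = - dx i H φ b v := by
  unfold dx
  rw [fl_fl]
  ring

theorem xm_nonneg (H : SimpleGraph V) (φ : V → V → Cl m) (b : Cl m) (v : V) : 0 ≤ xm H φ b v := by
  unfold xm
  split_ifs
  · exact zero_le_one
  · exact le_rfl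

theorem dx_sq (i : Fin m) (H : SimpleGraph V) (φ : V → V → Cl m) (b : Cl m) (v : V) :
    dx i H φ b v ^ 2 ≤ xm H φ b v + xm H φ (fl i b) v := by
  unfold dx xm
  split_ifs <;> norm_num

theorem wt_eq (H : SimpleGraph V) (φ : V → V → Cl m) (k : V → ℝ) (b : Cl m) :
    wt H φ k b = ∑ v, k v * xm H φ b v := by
  unfold wt xm
  refine Finset.sum_congr rfl fun v _ => ?_
  by_cases hb : b ∈ mis H φ v
  · rw [if_pos hb, if_pos hb, mul_one]
  · rw [if_neg hb, if_neg hb, mul_zero]

/-- the class sums -/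
noncomputable def cs (H : SimpleGraph V) (φ : V → V → Cl m) (k : V → ℝ) (i : ℕ) (a : Cl m) : ℝ :=
  ∑ b ∈ univ.filter (fun b => ag i a b), wt H φ k b

theorem cs_nw (i : Fin m) (H : SimpleGraph V) (φ : V → V → Cl m) (h : PEC H φ)
    (f : Cl m × V → Fin 2) (k : V → ℝ) (a : Cl m) :
    cs H (nw i H φ h f) k i a = cs H φ k i a := by
  unfold cs
  rw [sum_split i a, sum_split i a]
  refine Finset.sum_congr rfl fun b _ => ?_
  rw [wt_eq, wt_eq, wt_eq, wt_eq, ← Finset.sum_add_distrib, ← Finset.sum_add_distrib]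
  refine Finset.sum_congr rfl fun v _ => ?_
  rw [← mul_add, ← mul_add, xm_add]

/-- the coefficient of a coin -/
noncomputable def cf (i : Fin m) (H : SimpleGraph V) (φ : V → V → Cl m) (h : PEC H φ)
    (k : V → ℝ) (b : Cl m) (R : V) : ℝ :=
  ∑ v ∈ univ.filter (fun v => rp i H φ h b v = R), k v * dx i H φ b v

/-- the noise of a pair -/
noncomputable def nz (i : Fin m) (H : SimpleGraph V) (φ : V → V → Cl m) (h : PEC H φ)
    (f : Cl m × V → Fin 2) (k : V → ℝ) (b : Cl m) : ℝ :=
  ∑ R, sg (f (b, R)) * cf i H φ h k b R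

theorem nz_eq (i : Fin m) (H : SimpleGraph V) (φ : V → V → Cl m) (h : PEC H φ)
    (f : Cl m × V → Fin 2) (k : V → ℝ) (b : Cl m) (hb : b i = false) :
    wt H (nw i H φ h f) k b - wt H (nw i H φ h f) k (fl i b) = nz i H φ h f k b := by
  unfold nz cf
  rw [wt_eq, wt_eq, ← Finset.sum_sub_distrib]
  have h1 : ∀ v, k v * xm H (nw i H φ h f) b v - k v * xm H (nw i H φ h f) (fl i b) v =
      k v * (sg (f (b, rp i H φ h b v)) * dx i H φ b v) := by
    intro v
    rw [← mul_sub]
    have := dx_nw i H φ h f b v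
    rw [b0_false i b hb] at this
    rw [← this]
    rfl
  rw [Finset.sum_congr rfl fun v _ => h1 v]
  have h2 : ∀ R, sg (f (b, R)) * ∑ v ∈ univ.filter (fun v => rp i H φ h b v = R),
      k v * dx i H φ b v = ∑ v ∈ univ.filter (fun v => rp i H φ h b v = R),
        k v * (sg (f (b, rp i H φ h b v)) * dx i H φ b v) := by
    intro R
    rw [Finset.mul_sum]
    refine Finset.sum_congr rfl fun v hv => ?_
    rw [(Finset.mem_filter.1 hv).2]
    ring
  rw [Finset.sum_congr rfl fun R _ => h2 R]
  exact (Finset.sum_fiberwise univ (fun v => rp i H φ h b v)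
    (fun v => k v * (sg (f (b, rp i H φ h b v)) * dx i H φ b v))).symm

/-- the ends of a component -/
noncomputable def ends (i : Fin m) (H : SimpleGraph V) (φ : V → V → Cl m) (h : PEC H φ)
    (b : Cl m) (R : V) : Finset V :=
  univ.filter (fun v => rp i H φ h b v = R ∧ dx i H φ b v ≠ 0)

theorem ends_le (i : Fin m) (H : SimpleGraph V) (φ : V → V → Cl m) (h : PEC H φ)
    (b : Cl m) (R : V) : (ends i H φ h b R).card ≤ 2 := by
  rcases (ends i H φ h b R).eq_empty_or_nonempty with he | ⟨u, hu⟩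
  · rw [he]
    simp
  · refine comp_le H φ h b (fl i b) u _ ?_ ?_
    · intro w hw
      have h1 := (Finset.mem_filter.1 hw).2.2
      unfold dx xm at h1
      by_cases h2 : b ∈ mis H φ w
      · left
        exact (mem_mis H φ w b).1 h2
      · by_cases h3 : fl i b ∈ mis H φ w
        · right
          exact (mem_mis H φ w (fl i b)).1 h3
        · rw [if_neg h2, if_neg h3] at h1
          simp at h1
    · intro w hw
      refine reach_rp i H φ h b u w ?_
      rw [(Finset.mem_filter.1 hu).2.1, (Finset.mem_filter.1 hw).2.1]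

theorem cf_ends (i : Fin m) (H : SimpleGraph V) (φ : V → V → Cl m) (h : PEC H φ)
    (k : V → ℝ) (b : Cl m) (R : V) :
    cf i H φ h k b R = ∑ v ∈ ends i H φ h b R, k v * dx i H φ b v := by
  unfold cf ends
  refine (Finset.sum_subset ?_ ?_).symm
  · intro v hv
    rw [Finset.mem_filter] at hv ⊢
    exact ⟨hv.1, hv.2.1⟩
  · intro v hv hv'
    rw [Finset.mem_filter] at hv hv'
    have : dx i H φ b v = 0 := by
      by_contra h1
      exact hv' ⟨hv.1, hv.2, h1⟩
    rw [this, mul_zero]

theorem cf_sq (i : Fin m) (H : SimpleGraph V) (φ : V → V → Cl m) (h : PEC H φ)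
    (k : V → ℝ) (b : Cl m) (R : V) :
    cf i H φ h k b R ^ 2 ≤ 2 * ∑ v ∈ univ.filter (fun v => rp i H φ h b v = R),
      k v ^ 2 * (xm H φ b v + xm H φ (fl i b) v) := by
  rw [cf_ends]
  refine (sq_sum_le_card_mul_sum_sq).trans ?_
  have h1 : ((ends i H φ h b R).card : ℝ) ≤ 2 := by exact_mod_cast ends_le i H φ h b R
  have h2 : ∑ v ∈ ends i H φ h b R, (k v * dx i H φ b v) ^ 2 ≤
      ∑ v ∈ univ.filter (fun v => rp i H φ h b v = R),
      k v ^ 2 * (xm H φ b v + xm H φ (fl i b) v) := by
    refine (Finset.sum_le_sum (g := fun v => k v ^ 2 * (xm H φ b v + xm H φ (fl i b) v))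
      fun v _ => ?_).trans (Finset.sum_le_sum_of_subset_of_nonneg ?_ ?_)
    · rw [mul_pow]
      exact mul_le_mul_of_nonneg_left (dx_sq i H φ b v) (sq_nonneg _)
    · intro v hv
      unfold ends at hv
      rw [Finset.mem_filter] at hv ⊢
      exact ⟨hv.1, hv.2.1⟩
    · intro v _ _
      exact mul_nonneg (sq_nonneg _) (add_nonneg (xm_nonneg _ _ _ _) (xm_nonneg _ _ _ _))
  exact mul_le_mul h1 h2 (Finset.sum_nonneg fun v _ => sq_nonneg _) (by norm_num)

/-- sum of the squares of the coefficients of a pair -/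
theorem cf_sum_sq (i : Fin m) (H : SimpleGraph V) (φ : V → V → Cl m) (h : PEC H φ)
    (k : V → ℝ) (b : Cl m) :
    ∑ R, cf i H φ h k b R ^ 2 ≤
      2 * (wt H φ (fun v => k v ^ 2) b + wt H φ (fun v => k v ^ 2) (fl i b)) := by
  refine (Finset.sum_le_sum fun R _ => cf_sq i H φ h k b R).trans (le_of_eq ?_)
  rw [← Finset.mul_sum, wt_eq, wt_eq, ← Finset.sum_add_distrib]
  congr 1
  refine (Finset.sum_fiberwise univ (fun v => rp i H φ h b v)
    (fun v => k v ^ 2 * (xm H φ b v + xm H φ (fl i b) v))).trans ?_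
  refine Finset.sum_congr rfl fun v _ => ?_
  rw [mul_add]

end coin

end Pool.Agent.Work.MP_db9399_tk
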