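import Pool.Agent.Work.MP_db9399_tk_helper59.Smooth

/-!
# MP_db9399, all scales: smoothing of the tokens of an edge colouring by Kempe coins, part 6

Smoothing of a set of `2 ^ m` colours in a larger palette.
-/

set_option autoImplicit false

namespace Pool.Agent.Work.MP_db9399_tk

open Finset Classical

universe u v

section cube
variable {V : Type u} [Fintype V] {C : Type v} [Fintype C]

/-- the total square weight -/
noncomputable def KK (H : SimpleGraph V) (φ : V → V → C) (k : V → ℝ) : ℝ :=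
  ∑ v, k v ^ 2 * ((mis H φ v).card : ℝ)

/-- the edges with a colour in `A` -/
def sbg (H : SimpleGraph V) (φ : V → V → C) (h : PEC H φ) (A : Finset C) : SimpleGraph V where
  Adj v w := H.Adj v w ∧ φ v w ∈ A
  symm := ⟨fun v w h' => ⟨h'.1.symm, by rw [h.sym w v]; exact h'.2⟩⟩
  loopless := ⟨fun v h => H.loopless.irrefl v h.1⟩

theorem cube {m : ℕ} (H : SimpleGraph V) (φ : V → V → C) (h : PEC H φ) (A : Finset C)
    (hA : A.card = 2 ^ m)
    {I J' : Type u} [Fintype I] [Fintype J'] (k : I → V → ℝ) (g : J' → V → ℝ) (K0 S L : ℕ)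
    (Λ : ℝ) (hK : ∀ r v, k r v ≠ 0 → (mis H φ v).card ≤ K0)
    (hK' : ∀ j v, g j v ≠ 0 → (mis H φ v).card ≤ K0)
    (hS : ∀ r, (univ.filter (fun v => k r v ≠ 0)).card ≤ S)
    (hS' : ∀ j, (univ.filter (fun v => g j v ≠ 0)).card ≤ S)
    (hL : ∀ v, (univ.filter (fun r => k r v ≠ 0)).card ≤ L)
    (hL' : ∀ v, (univ.filter (fun j => g j v ≠ 0)).card ≤ L)
    (hg0 : ∀ j v, 0 ≤ g j v) (hg1 : ∀ j v, g j v ≤ 1) (hL1 : 1 ≤ L) (hΛ0 : 0 ≤ Λ)
    (hΛ : 32 * ((S : ℝ) * K0 + 1) * L * (2 ^ m + 1) ≤ Real.exp Λ) :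
    ∃ φ' : V → V → C, PEC H φ' ∧ (∀ b, b ∉ A → ∀ v, b ∈ mis H φ' v ↔ b ∈ mis H φ v) ∧
      (∀ r, ∑ b ∈ A, |wt H φ' (k r) b - (∑ c ∈ A, wt H φ (k r) c) / 2 ^ m| ≤
        Real.sqrt (KK H φ (k r)) * (5 * Real.sqrt (2 ^ m) + 2 * m * Real.sqrt Λ)) ∧
      ∀ j, ∀ b ∈ A, wt H φ' (g j) b ≤ 2 * (∑ c ∈ A, wt H φ (g j) c) / 2 ^ m + 12 * Λ := by
  have hcard : Fintype.card (Cl m) = Fintype.card A := by
    rw [Fintype.card_fun, Fintype.card_bool, Fintype.card_fin, Fintype.card_coe, hA]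
  obtain ⟨e⟩ : Nonempty (Cl m ≃ A) := ⟨Fintype.equivOfCardEq hcard⟩
  set He := sbg H φ h A with hHe
  have hadj : ∀ v w, He.Adj v w ↔ H.Adj v w ∧ φ v w ∈ A := fun v w => Iff.rfl
  let φe : V → V → Cl m := fun v w =>
    if h : φ v w ∈ A then e.symm ⟨φ v w, h⟩ else fun _ => false
  have hφe : ∀ v w, He.Adj v w → ((e (φe v w) : A) : C) = φ v w := by
    intro v w hvw
    have h1 : φ v w ∈ A := ((hadj v w).1 hvw).2
    simp only [φe, dif_pos h1, Equiv.apply_symm_apply]
  have hpe : PEC He φe := by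
    constructor
    · intro v w
      simp only [φe, h.sym v w]
    · intro v w w' hw hw' he
      refine h.inj v w w' ((hadj v w).1 hw).1 ((hadj v w').1 hw').1 ?_
      rw [← hφe v w hw, ← hφe v w' hw', he]
  have hmis : ∀ (b : Cl m) (v : V), b ∈ mis He φe v ↔ ((e b : A) : C) ∈ mis H φ v := by
    intro b v
    rw [mem_mis, mem_mis]
    constructor
    · intro h1 w hw he
      have h2 : He.Adj v w := (hadj v w).2 ⟨hw, by rw [he]; exact (e b).2⟩
      refine h1 w h2 (e.injective (Subtype.ext ?_))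
      rw [hφe v w h2, he]
    · intro h1 w hw he
      refine h1 w ((hadj v w).1 hw).1 ?_
      rw [← hφe v w hw, he]
  have hmc : ∀ v, (mis He φe v).card ≤ (mis H φ v).card := by
    intro v
    refine Finset.card_le_card_of_injOn (fun b => ((e b : A) : C)) ?_ ?_
    · intro b hb
      exact (hmis b v).1 hb
    · intro b _ b' _ hbb
      exact e.injective (Subtype.ext hbb)
  obtain ⟨ψ, hψ, h1, h2⟩ := smooth He φe hpe k g K0 S L Λ
    (fun r v hv => (hmc v).trans (hK r v hv)) (fun j v hv => (hmc v).trans (hK' j v hv))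
    hS hS' hL hL' hg0 hg1 hL1 hΛ0 hΛ
  let φ' : V → V → C := fun v w => if He.Adj v w then ((e (ψ v w) : A) : C) else φ v w
  have hp1 : ∀ v w, He.Adj v w → φ' v w = ((e (ψ v w) : A) : C) := fun v w hvw => if_pos hvw
  have hp2 : ∀ v w, ¬ He.Adj v w → φ' v w = φ v w := fun v w hvw => if_neg hvw
  have hpec : PEC H φ' := by
    constructor
    · intro v w
      by_cases hvw : He.Adj v w
      · rw [hp1 v w hvw, hp1 w v hvw.symm, hψ.sym v w]
      · rw [hp2 v w hvw, hp2 w v fun h' => hvw h'.symm, h.sym v w]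
    · intro v w w' hw hw' he
      by_cases hvw : He.Adj v w <;> by_cases hvw' : He.Adj v w'
      · rw [hp1 v w hvw, hp1 v w' hvw'] at he
        exact hψ.inj v w w' hvw hvw' (e.injective (Subtype.ext he))
      · rw [hp1 v w hvw, hp2 v w' hvw'] at he
        exact absurd ((hadj v w').2 ⟨hw', by rw [← he]; exact (e _).2⟩) hvw'
      · rw [hp2 v w hvw, hp1 v w' hvw'] at he
        exact absurd ((hadj v w).2 ⟨hw, by rw [he]; exact (e _).2⟩) hvw
      · rw [hp2 v w hvw, hp2 v w' hvw'] at he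
        exact h.inj v w w' hw hw' he
  have hmis' : ∀ (b : Cl m) (v : V), b ∈ mis He ψ v ↔ ((e b : A) : C) ∈ mis H φ' v := by
    intro b v
    rw [mem_mis, mem_mis]
    constructor
    · intro h3 w hw he
      by_cases hvw : He.Adj v w
      · rw [hp1 v w hvw] at he
        exact h3 w hvw (e.injective (Subtype.ext he))
      · rw [hp2 v w hvw] at he
        exact hvw ((hadj v w).2 ⟨hw, by rw [he]; exact (e b).2⟩)
    · intro h3 w hw he
      refine h3 w ((hadj v w).1 hw).1 ?_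
      rw [hp1 v w hw, he]
  have hsum : ∀ F : C → ℝ, ∑ c ∈ A, F c = ∑ b : Cl m, F ((e b : A) : C) := by
    intro F
    rw [← Finset.sum_coe_sort A F]
    exact (Equiv.sum_comp e (fun c : A => F (c : C))).symm
  have hwt : ∀ (k : V → ℝ) (b : Cl m), wt H φ k ((e b : A) : C) = wt He φe k b := by
    intro k b
    unfold wt
    refine Finset.sum_congr rfl fun v _ => ?_
    simp only [hmis b v]
  have hwt' : ∀ (k : V → ℝ) (b : Cl m), wt H φ' k ((e b : A) : C) = wt He ψ k b := by
    intro k b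
    unfold wt
    refine Finset.sum_congr rfl fun v _ => ?_
    simp only [hmis' b v]
  have htot : ∀ k : V → ℝ, ∑ c ∈ A, wt H φ k c = ∑ v, k v * ((mis He φe v).card : ℝ) := by
    intro k
    rw [hsum, ← sum_wt]
    exact Finset.sum_congr rfl fun b _ => hwt k b
  refine ⟨φ', hpec, ?_, ?_, ?_⟩
  · intro b hb v
    rw [mem_mis, mem_mis]
    refine forall₂_congr fun w hw => not_congr ?_
    by_cases hvw : He.Adj v w
    · rw [hp1 v w hvw]
      constructor
      · intro he
        exact absurd (by rw [← he]; exact (e _).2) hb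
      · intro he
        exact absurd (by rw [← he]; exact ((hadj v w).1 hvw).2) hb
    · rw [hp2 v w hvw]
  · intro r
    rw [hsum, htot]
    simp only [hwt']
    refine (h1 r).trans (mul_le_mul_of_nonneg_right (Real.sqrt_le_sqrt ?_) (by positivity))
    refine Finset.sum_le_sum fun v _ => mul_le_mul_of_nonneg_left ?_ (sq_nonneg _)
    exact_mod_cast hmc v
  · intro j b hb
    have h3 := h2 j (e.symm ⟨b, hb⟩)
    rw [← hwt', Equiv.apply_symm_apply, ← htot] at h3
    exact h3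

end cube

/-! ## Averaging operators -/

section avg
variable {C : Type v} [Fintype C]

/-- averaging over `A` -/
noncomputable def Ea (A : Finset C) (x : C → ℝ) (b : C) : ℝ :=
  if b ∈ A then (∑ c ∈ A, x c) / A.card else x b

theorem Ea_in (A : Finset C) (x : C → ℝ) (b : C) (hb : b ∈ A) :
    Ea A x b = (∑ c ∈ A, x c) / A.card := if_pos hb

theorem Ea_out (A : Finset C) (x : C → ℝ) (b : C) (hb : b ∉ A) : Ea A x b = x b := if_neg hb

theorem Ea_sub (A : Finset C) (x y : C → ℝ) (b : C) :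
    Ea A (fun c => x c - y c) b = Ea A x b - Ea A y b := by
  unfold Ea
  split_ifs
  · rw [Finset.sum_sub_distrib, sub_div]
  · rfl

theorem Ea_sub' (A : Finset C) (x y : C → ℝ) :
    Ea A (fun c => x c - y c) = fun b => Ea A x b - Ea A y b := funext (Ea_sub A x y)

theorem Ea_const (A : Finset C) (t : ℝ) : Ea A (fun _ => t) = fun _ => t := by
  funext b
  unfold Ea
  split_ifs with hb
  · rw [Finset.sum_const, nsmul_eq_mul]
    have : (A.card : ℝ) ≠ 0 := by
      have := Finset.card_pos.2 ⟨b, hb⟩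
      positivity
    field_simp
  · rfl

theorem sum_Ea (A : Finset C) (x : C → ℝ) : ∑ b, Ea A x b = ∑ b, x b := by
  rcases A.eq_empty_or_nonempty with hA | hA
  · refine Finset.sum_congr rfl fun b _ => Ea_out A x b ?_
    rw [hA]
    exact Finset.notMem_empty _
  · have h0 : (A.card : ℝ) ≠ 0 := by
      have := Finset.card_pos.2 hA
      positivity
    rw [← Finset.sum_add_sum_compl A (Ea A x), ← Finset.sum_add_sum_compl A x]
    congr 1
    · rw [Finset.sum_congr rfl fun b hb => Ea_in A x b hb, Finset.sum_const, nsmul_eq_mul]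
      field_simp
    · exact Finset.sum_congr rfl fun b hb => Ea_out A x b (Finset.mem_compl.1 hb)

theorem Ea_mono (A : Finset C) (x y : C → ℝ) (h : ∀ b, x b ≤ y b) (b : C) :
    Ea A x b ≤ Ea A y b := by
  unfold Ea
  split_ifs
  · exact div_le_div_of_nonneg_right (Finset.sum_le_sum fun c _ => h c) (Nat.cast_nonneg _)
  · exact h b

theorem Ea_nonneg (A : Finset C) (x : C → ℝ) (h : ∀ b, 0 ≤ x b) (b : C) : 0 ≤ Ea A x b := by
  have h1 := Ea_mono A (fun _ => 0) x h b
  rw [Ea_const] at h1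
  exact h1

theorem Ea_l1 (A : Finset C) (x : C → ℝ) : ∑ b, |Ea A x b| ≤ ∑ b, |x b| := by
  rw [← sum_Ea A fun b => |x b|]
  refine Finset.sum_le_sum fun b _ => ?_
  unfold Ea
  split_ifs
  · rw [abs_div, Nat.abs_cast]
    exact div_le_div_of_nonneg_right (Finset.abs_sum_le_sum_abs _ _) (Nat.cast_nonneg _)
  · exact le_rfl

/-- lower bound on `A` from a part `D` of `A` -/
theorem Ea_low (A D : Finset C) (x : C → ℝ) (hx : ∀ b, 0 ≤ x b) (t : ℝ) (ht : 0 ≤ t)
    (hD : A.card ≤ 2 * (A ∩ D).card) (hxD : ∀ b ∈ D, t ≤ x b) (b : C) (hb : b ∈ A) :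
    t / 2 ≤ Ea A x b := by
  rw [Ea_in A x b hb]
  have h0 : (0 : ℝ) < A.card := by
    have := Finset.card_pos.2 ⟨b, hb⟩
    exact_mod_cast this
  rw [le_div_iff₀ h0]
  have h1 : ((A ∩ D).card : ℝ) * t ≤ ∑ c ∈ A, x c := by
    rw [← nsmul_eq_mul, ← Finset.sum_const]
    refine (Finset.sum_le_sum (g := x) fun c hc => hxD c (Finset.mem_inter.1 hc).2).trans ?_
    exact Finset.sum_le_sum_of_subset_of_nonneg Finset.inter_subset_left fun c _ _ => hx c
  have h2 : (A.card : ℝ) ≤ 2 * (A ∩ D).card := by exact_mod_cast hD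
  nlinarith

/-- mass on `A` is spread -/
theorem Ea_mass (A D : Finset C) (x : C → ℝ) (hx : ∀ b, 0 ≤ x b) (s : ℝ)
    (hDA : D ⊆ A) (hs : s ≤ ∑ c ∈ D, x c) (b : C) (hb : b ∈ A) :
    s / A.card ≤ Ea A x b := by
  rw [Ea_in A x b hb]
  refine div_le_div_of_nonneg_right (hs.trans ?_) (Nat.cast_nonneg _)
  exact Finset.sum_le_sum_of_subset_of_nonneg hDA fun c _ _ => hx c

/-- five averagings -/
noncomputable def Q5 (A M B : Finset C) (x : C → ℝ) : C → ℝ :=
  Ea A (Ea M (Ea B (Ea M (Ea A x))))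

theorem Q5_low (A M B : Finset C) (n : ℕ) (hn : 0 < n) (hA : A.card = n) (hM : M.card = n)
    (hB : B.card = n) (hAB : ∀ b, b ∈ A ∨ b ∈ B) (hAM : n ≤ 2 * (A ∩ M).card)
    (hMB : n ≤ 2 * (M ∩ B).card) (x : C → ℝ) (hx : ∀ b, 0 ≤ x b) (b : C) :
    (∑ c, x c) / (12 * n) ≤ Q5 A M B x b := by
  have hn0 : (0 : ℝ) < n := by exact_mod_cast hn
  set x1 := Ea A x with hx1
  set x2 := Ea M x1 with hx2
  set x3 := Ea B x2 with hx3
  set x4 := Ea M x3 with hx4
  have p1 : ∀ b, 0 ≤ x1 b := Ea_nonneg A x hx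
  have p2 : ∀ b, 0 ≤ x2 b := Ea_nonneg M x1 p1
  have p3 : ∀ b, 0 ≤ x3 b := Ea_nonneg B x2 p2
  have p4 : ∀ b, 0 ≤ x4 b := Ea_nonneg M x3 p3
  have hMA : M.card ≤ 2 * (M ∩ A).card := by rw [hM, Finset.inter_comm]; exact hAM
  have hAM' : A.card ≤ 2 * (A ∩ M).card := by rw [hA]; exact hAM
  have hBM : B.card ≤ 2 * (B ∩ M).card := by rw [hB, Finset.inter_comm]; exact hMB
  have hMB' : M.card ≤ 2 * (M ∩ B).card := by rw [hM]; exact hMB
  -- the three masses
  set a := ∑ c ∈ A, x c with ha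
  set s1 := ∑ c ∈ Aᶜ ∩ M, x c with hs1
  set s2 := ∑ c ∈ Aᶜ \ M, x c with hs2
  have htot : ∑ c, x c = a + s1 + s2 := by
    rw [← Finset.sum_add_sum_compl A x, add_assoc, hs1, hs2,
      ← Finset.sum_inter_add_sum_sdiff Aᶜ M x]
  have ha0 : 0 ≤ a := Finset.sum_nonneg fun c _ => hx c
  have hs10 : 0 ≤ s1 := Finset.sum_nonneg fun c _ => hx c
  have hs20 : 0 ≤ s2 := Finset.sum_nonneg fun c _ => hx c
  -- first mass
  have a1 : ∀ b ∈ A, a / n ≤ x1 b := by
    intro b hb
    have := Ea_mass A A x hx a (Finset.Subset.refl _) le_rfl b hb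
    rw [hA] at this
    exact this
  have a2 : ∀ b, b ∈ A ∨ b ∈ M → a / n / 2 ≤ x2 b := by
    intro b hb
    by_cases hbM : b ∈ M
    · exact Ea_low M A x1 p1 (a / n) (by positivity) hMA a1 b hbM
    · rw [hx2, Ea_out M x1 b hbM]
      have h1 := a1 b (hb.resolve_right hbM)
      have h2 : 0 ≤ a / n := by positivity
      linarith
  have a3 : ∀ b, a / n / 2 / 2 ≤ x3 b := by
    intro b
    by_cases hbB : b ∈ B
    · exact Ea_low B M x2 p2 (a / n / 2) (by positivity) hBM (fun c hc => a2 c (Or.inr hc)) b hbB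
    · rw [hx3, Ea_out B x2 b hbB]
      have h1 := a2 b (Or.inl ((hAB b).resolve_right hbB))
      have h2 : 0 ≤ a / n / 2 := by positivity
      linarith
  have a5 : a / n / 2 / 2 ≤ Q5 A M B x b := by
    have h1 : ∀ b, a / n / 2 / 2 ≤ x4 b := by
      intro b
      have := Ea_mono M (fun _ => a / n / 2 / 2) x3 a3 b
      rw [Ea_const] at this
      exact this
    have := Ea_mono A (fun _ => a / n / 2 / 2) x4 h1 b
    rw [Ea_const] at this
    exact this
  -- second mass
  have b2 : ∀ b ∈ M, s1 / n ≤ x2 b := by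
    intro b hb
    have := Ea_mass M (Aᶜ ∩ M) x1 p1 s1 Finset.inter_subset_right (le_of_eq
      (Finset.sum_congr rfl fun c hc =>
        (Ea_out A x c (Finset.mem_compl.1 (Finset.mem_inter.1 hc).1)).symm)) b hb
    rw [hM] at this
    exact this
  have b3 : ∀ b, b ∈ M ∨ b ∈ B → s1 / n / 2 ≤ x3 b := by
    intro b hb
    by_cases hbB : b ∈ B
    · exact Ea_low B M x2 p2 (s1 / n) (by positivity) hBM b2 b hbB
    · rw [hx3, Ea_out B x2 b hbB]
      have h1 := b2 b (hb.resolve_right hbB)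
      have h2 : 0 ≤ s1 / n := by positivity
      linarith
  have b4 : ∀ b, b ∈ M ∨ b ∈ B → s1 / n / 2 ≤ x4 b := by
    intro b hb
    by_cases hbM : b ∈ M
    · rw [hx4, Ea_in M x3 b hbM, le_div_iff₀ (by rw [hM]; exact hn0), mul_comm,
        ← nsmul_eq_mul, ← Finset.sum_const]
      exact Finset.sum_le_sum fun c hc => b3 c (Or.inl hc)
    · rw [hx4, Ea_out M x3 b hbM]
      exact b3 b hb
  have b5 : s1 / n / 2 / 2 ≤ Q5 A M B x b := by
    by_cases hbA : b ∈ A
    · exact Ea_low A M x4 p4 (s1 / n / 2) (by positivity) hAM' (fun c hc => b4 c (Or.inl hc)) b hbA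
    · show _ ≤ Ea A x4 b
      rw [Ea_out A x4 b hbA]
      have h1 := b4 b (Or.inr ((hAB b).resolve_left hbA))
      have h2 : 0 ≤ s1 / n / 2 := by positivity
      linarith
  -- third mass
  have c3 : ∀ b ∈ B, s2 / n ≤ x3 b := by
    intro b hb
    have := Ea_mass B (Aᶜ \ M) x2 p2 s2 (fun c hc =>
      (hAB c).resolve_left (Finset.mem_compl.1 (Finset.mem_sdiff.1 hc).1)) (le_of_eq
      (Finset.sum_congr rfl fun c hc => by
        rw [hx2, Ea_out M x1 c (Finset.mem_sdiff.1 hc).2, hx1,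
          Ea_out A x c (Finset.mem_compl.1 (Finset.mem_sdiff.1 hc).1)])) b hb
    rw [hB] at this
    exact this
  have c4 : ∀ b, b ∈ M ∨ b ∈ B → s2 / n / 2 ≤ x4 b := by
    intro b hb
    by_cases hbM : b ∈ M
    · exact Ea_low M B x3 p3 (s2 / n) (by positivity) hMB' c3 b hbM
    · rw [hx4, Ea_out M x3 b hbM]
      have h1 := c3 b (hb.resolve_left hbM)
      have h2 : 0 ≤ s2 / n := by positivity
      linarith
  have c5 : s2 / n / 2 / 2 ≤ Q5 A M B x b := by
    by_cases hbA : b ∈ A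
    · exact Ea_low A M x4 p4 (s2 / n / 2) (by positivity) hAM' (fun c hc => c4 c (Or.inl hc)) b hbA
    · show _ ≤ Ea A x4 b
      rw [Ea_out A x4 b hbA]
      have h1 := c4 b (Or.inr ((hAB b).resolve_left hbA))
      have h2 : 0 ≤ s2 / n / 2 := by positivity
      linarith
  rw [htot, div_le_iff₀ (by positivity)]
  have e1 : a / n / 2 / 2 = a / (4 * n) := by field_simp; ring
  have e2 : s1 / n / 2 / 2 = s1 / (4 * n) := by field_simp; ring
  have e3 : s2 / n / 2 / 2 = s2 / (4 * n) := by field_simp; ring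
  rw [e1, div_le_iff₀ (by positivity)] at a5
  rw [e2, div_le_iff₀ (by positivity)] at b5
  rw [e3, div_le_iff₀ (by positivity)] at c5
  linarith

theorem Q5_sub (A M B : Finset C) (x y : C → ℝ) :
    Q5 A M B (fun c => x c - y c) = fun b => Q5 A M B x b - Q5 A M B y b := by
  unfold Q5
  rw [Ea_sub', Ea_sub', Ea_sub', Ea_sub', Ea_sub']

theorem Q5_const (A M B : Finset C) (t : ℝ) : Q5 A M B (fun _ => t) = fun _ => t := by
  unfold Q5
  rw [Ea_const, Ea_const, Ea_const, Ea_const, Ea_const]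

theorem sum_Q5 (A M B : Finset C) (x : C → ℝ) : ∑ b, Q5 A M B x b = ∑ b, x b := by
  unfold Q5
  rw [sum_Ea, sum_Ea, sum_Ea, sum_Ea, sum_Ea]

/-- contraction -/
theorem Q5_contr (A M B : Finset C) (n : ℕ) (hn : 0 < n) (hA : A.card = n) (hM : M.card = n)
    (hB : B.card = n) (hAB : ∀ b, b ∈ A ∨ b ∈ B) (hAM : n ≤ 2 * (A ∩ M).card)
    (hMB : n ≤ 2 * (M ∩ B).card) (z : C → ℝ) (hz : ∑ c, z c = 0) :
    ∑ b, |Q5 A M B z b| ≤ 11 / 12 * ∑ b, |z b| := by
  have hn0 : (0 : ℝ) < n := by exact_mod_cast hn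
  have hnC : (n : ℝ) ≤ (univ : Finset C).card := by
    rw [← hA]
    exact_mod_cast Finset.card_le_univ A
  set p : C → ℝ := fun c => max (z c) 0 with hp
  set q : C → ℝ := fun c => max (-z c) 0 with hq
  have hzpq : z = fun c => p c - q c := by
    funext c
    simp only [hp, hq]
    rcases le_total 0 (z c) with h | h
    · rw [max_eq_left h, max_eq_right (by linarith), sub_zero]
    · rw [max_eq_right h, max_eq_left (by linarith)]
      ring
  have habs : ∀ c, |z c| = p c + q c := by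
    intro c
    simp only [hp, hq]
    rcases le_total 0 (z c) with h | h
    · rw [max_eq_left h, max_eq_right (by linarith), abs_of_nonneg h, add_zero]
    · rw [max_eq_right h, max_eq_left (by linarith), abs_of_nonpos h, zero_add]
  have hp0 : ∀ c, 0 ≤ p c := fun c => le_max_right _ _
  have hq0 : ∀ c, 0 ≤ q c := fun c => le_max_right _ _
  have hpq : ∑ c, p c = ∑ c, q c := by
    have h1 : ∑ c, z c = ∑ c, p c - ∑ c, q c := by
      rw [← Finset.sum_sub_distrib]
      exact Finset.sum_congr rfl fun c _ => congrFun hzpq c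
    linarith
  set s := ∑ c, p c with hs
  have hs0 : 0 ≤ s := Finset.sum_nonneg fun c _ => hp0 c
  have h1 := Q5_low A M B n hn hA hM hB hAB hAM hMB p hp0
  have h2 := Q5_low A M B n hn hA hM hB hAB hAM hMB q hq0
  rw [← hs] at h1
  rw [← hpq] at h2
  have h3 : ∀ b, |Q5 A M B z b| ≤ (Q5 A M B p b - s / (12 * n)) + (Q5 A M B q b - s / (12 * n)) := by
    intro b
    have h4 : Q5 A M B z b = Q5 A M B p b - Q5 A M B q b := by
      rw [hzpq]
      exact congrFun (Q5_sub A M B p q) b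
    rw [h4, abs_le]
    have := h1 b
    have := h2 b
    constructor <;> linarith
  calc ∑ b, |Q5 A M B z b| ≤
      ∑ b, ((Q5 A M B p b - s / (12 * n)) + (Q5 A M B q b - s / (12 * n))) :=
        Finset.sum_le_sum fun b _ => h3 b
    _ = 2 * s - 2 * ((univ : Finset C).card * (s / (12 * n))) := by
      rw [Finset.sum_add_distrib, Finset.sum_sub_distrib, Finset.sum_sub_distrib, sum_Q5, sum_Q5,
        Finset.sum_const, nsmul_eq_mul, ← hpq, ← hs]
      ring
    _ ≤ 11 / 12 * (2 * s) := by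
      have h5 : s / 12 ≤ (univ : Finset C).card * (s / (12 * n)) := by
        have h6 : s / 12 = n * (s / (12 * n)) := by field_simp
        rw [h6]
        exact mul_le_mul_of_nonneg_right hnC (by positivity)
      linarith
    _ = 11 / 12 * ∑ b, |z b| := by
      rw [Finset.sum_congr rfl fun c _ => habs c, Finset.sum_add_distrib, ← hpq, ← hs]
      ring

end avg

end Pool.Agent.Work.MP_db9399_tk
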