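import Pool.Agent.Work.MP_db9399_tk_helper59.Coin

/-!
# MP_db9399, all scales: smoothing of the tokens of an edge colouring by Kempe coins, part 3

One level: local lemma.
-/

set_option autoImplicit false

namespace Pool.Agent.Work.MP_db9399_tk

open Finset Classical

open Pool.Agent.Work.MP_db9399_all (pr DepOnI PackI stmt_LLLI)

universe u v

section general

theorem pr_nonneg {Ω : Type u} [Fintype Ω] (E : Ω → Prop) : 0 ≤ pr E := by
  unfold pr
  positivity

theorem pr_mono {Ω : Type u} [Fintype Ω] (E E' : Ω → Prop) (h : ∀ ω, E ω → E' ω) :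
    pr E ≤ pr E' := by
  unfold pr
  refine div_le_div_of_nonneg_right ?_ (by positivity)
  exact_mod_cast Finset.card_le_card fun ω hω =>
    Finset.mem_filter.2 ⟨Finset.mem_univ _, h ω (Finset.mem_filter.1 hω).2⟩

theorem pr_exists {Ω : Type u} [Fintype Ω] {T : Type v} [Fintype T] (F : Ω → Prop)
    (E : T → Ω → Prop) (hF : ∀ ω, F ω → ∃ τ, E τ ω) : pr F ≤ ∑ τ, pr (E τ) := by
  unfold pr
  rw [← Finset.sum_div]
  refine div_le_div_of_nonneg_right ?_ (by positivity)
  refine (Nat.cast_le.2 (Finset.card_le_card (t := univ.biUnion (fun τ => univ.filter (E τ)))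
    ?_)).trans ?_
  · intro ω hω
    obtain ⟨τ, hτ⟩ := hF ω (Finset.mem_filter.1 hω).2
    exact Finset.mem_biUnion.2 ⟨τ, Finset.mem_univ _, Finset.mem_filter.2 ⟨Finset.mem_univ _, hτ⟩⟩
  · rw [← Nat.cast_sum]
    exact Nat.cast_le.2 Finset.card_biUnion_le

theorem pr_or {Ω : Type u} [Fintype Ω] (F E E' : Ω → Prop) (hF : ∀ ω, F ω → E ω ∨ E' ω) :
    pr F ≤ pr E + pr E' := by
  unfold pr
  rw [← add_div]
  refine div_le_div_of_nonneg_right ?_ (by positivity)
  refine (Nat.cast_le.2 (Finset.card_le_card (t := univ.filter E ∪ univ.filter E') ?_)).trans ?_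
  · intro ω hω
    rw [Finset.mem_union, Finset.mem_filter, Finset.mem_filter]
    rcases hF ω (Finset.mem_filter.1 hω).2 with h | h
    · left
      exact ⟨Finset.mem_univ _, h⟩
    · right
      exact ⟨Finset.mem_univ _, h⟩
  · rw [← Nat.cast_add]
    exact Nat.cast_le.2 (Finset.card_union_le _ _)

/-- a package with one event -/
theorem mkpack {J : Type u} [Fintype J] {M : ℕ} (T W : ℝ) (Q : Finset J) (E : (J → Fin M) → Prop)
    (hdep : DepOnI Q E) (hW0 : 0 ≤ W) (hW : pr E * Real.exp (2 * T * (Q.card : ℝ)) ≤ W)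
    (hE : Q = ∅ → ∀ f, ¬ E f) : PackI T Q W (fun f => ¬ E f) := by
  rcases Q.eq_empty_or_nonempty with hQ | hQ
  · refine ⟨PEmpty.{u + 1}, inferInstance, fun x => x.elim, fun x => x.elim, fun x => x.elim,
      fun x => x.elim, fun x => x.elim, ?_, fun f _ => hE hQ f⟩
    rw [Finset.univ_eq_empty, Finset.sum_empty]
    exact hW0
  · refine ⟨PUnit.{u + 1}, inferInstance, fun _ => Q, fun _ => E, fun _ => hdep, fun _ => hQ,
      fun _ => Finset.Subset.refl _, ?_, fun f hf => hf PUnit.unit⟩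
    rw [Finset.univ_unique, Finset.sum_singleton]
    exact hW

theorem sg_sq (x : Fin 2) : sg x ^ 2 = 1 := by
  unfold sg
  split_ifs <;> norm_num

/-- two-sided Hoeffding -/
theorem hoeff2 {J : Type u} [Fintype J] (c : J → ℝ) (t s : ℝ) (hs : 0 < s) (ht : 0 ≤ t)
    (hc : ∑ j, c j ^ 2 ≤ s) :
    pr (fun f : J → Fin 2 => t < |∑ j, sg (f j) * c j|) ≤ 2 * Real.exp (-(t ^ 2 / (2 * s))) := by
  have h1 := hoeff c t s hs ht hc
  have h2 := hoeff (fun j => - c j) t s hs ht (by simpa using hc)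
  have h3 := pr_or (fun f : J → Fin 2 => t < |∑ j, sg (f j) * c j|)
    (fun f : J → Fin 2 => t < ∑ j, sg (f j) * c j)
    (fun f : J → Fin 2 => t < ∑ j, sg (f j) * (- c j)) (by
      intro f hf
      rcases lt_abs.1 hf with h | h
      · left
        exact h
      · right
        have : ∑ j, sg (f j) * (- c j) = - ∑ j, sg (f j) * c j := by
          rw [← Finset.sum_neg_distrib]
          exact Finset.sum_congr rfl fun j _ => by ring
        rw [this]
        exact h)
  linarith

end general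

section level
variable {V : Type u} [Fintype V] {m : ℕ}

theorem sum_half (i : Fin m) (p : Cl m → Prop) (hp : ∀ b, p (fl i b) ↔ p b) (F : Cl m → ℝ) :
    ∑ b ∈ univ.filter (fun b => b i = false ∧ p b), (F b + F (fl i b)) =
      ∑ b ∈ univ.filter p, F b := by
  rw [Finset.sum_add_distrib]
  have h1 : ∑ b ∈ univ.filter (fun b => b i = false ∧ p b), F (fl i b) =
      ∑ b ∈ univ.filter (fun b => p b ∧ ¬ b i = false), F b := by
    refine Finset.sum_nbij' (fun b => fl i b) (fun b => fl i b) ?_ ?_ ?_ ?_ ?_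
    · intro b hb
      rw [Finset.mem_filter] at hb ⊢
      refine ⟨Finset.mem_univ _, (hp b).2 hb.2.2, ?_⟩
      rw [fl_same, hb.2.1]
      simp
    · intro b hb
      rw [Finset.mem_filter] at hb ⊢
      refine ⟨Finset.mem_univ _, ?_, (hp b).2 hb.2.1⟩
      rw [fl_same]
      simpa using hb.2.2
    · intro b _
      exact fl_fl i b
    · intro b _
      exact fl_fl i b
    · intro b _
      rfl
  rw [h1, ← Finset.sum_filter_add_sum_filter_not (univ.filter p) (fun b => b i = false),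
    Finset.filter_filter, Finset.filter_filter]
  congr 1
  refine Finset.sum_congr ?_ fun _ _ => rfl
  ext b
  rw [Finset.mem_filter, Finset.mem_filter]
  tauto

theorem sum_half' (i : Fin m) (F : Cl m → ℝ) :
    ∑ b ∈ univ.filter (fun b => b i = false), (F b + F (fl i b)) = ∑ b, F b := by
  have h1 := sum_half i (fun _ => True) (fun _ => Iff.rfl) F
  simpa using h1

/-- the noise of a class -/
noncomputable def Zc (i : Fin m) (H : SimpleGraph V) (φ : V → V → Cl m) (h : PEC H φ)
    (f : Cl m × V → Fin 2) (k : V → ℝ) (a : Cl m) : ℝ :=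
  ∑ b ∈ univ.filter (fun b => b i = false ∧ ag i a b), nz i H φ h f k b

theorem cs_diff (i : Fin m) (H : SimpleGraph V) (φ : V → V → Cl m) (h : PEC H φ)
    (f : Cl m × V → Fin 2) (k : V → ℝ) (a : Cl m) :
    |cs H (nw i H φ h f) k (i + 1) a - 1 / 2 * cs H φ k i a| = 1 / 2 * |Zc i H φ h f k a| := by
  rw [← cs_nw i H φ h f k a]
  have h1 : cs H (nw i H φ h f) k (i + 1) a - 1 / 2 * cs H (nw i H φ h f) k i a =
      1 / 2 * ∑ b ∈ univ.filter (fun b => ag (i + 1) a b),
        (wt H (nw i H φ h f) k b - wt H (nw i H φ h f) k (fl i b)) := by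
    unfold cs
    rw [sum_split i a, Finset.sum_add_distrib, Finset.sum_sub_distrib]
    ring
  rw [h1, abs_mul, abs_of_nonneg (by norm_num : (0 : ℝ) ≤ 1 / 2)]
  congr 1
  cases ha : a i
  · unfold Zc
    congr 1
    refine Finset.sum_congr ?_ fun b hb => ?_
    · ext b
      rw [Finset.mem_filter, Finset.mem_filter, ag_succ, ha]
      constructor
      · rintro ⟨h1, h2, h3⟩
        exact ⟨h1, h3.symm, h2⟩
      · rintro ⟨h1, h2, h3⟩
        exact ⟨h1, h3, h2.symm⟩
    · exact nz_eq i H φ h f k b (Finset.mem_filter.1 hb).2.1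
  · rw [← abs_neg]
    unfold Zc
    congr 1
    rw [← Finset.sum_neg_distrib]
    refine Finset.sum_nbij' (fun b => fl i b) (fun b => fl i b) ?_ ?_ ?_ ?_ ?_
    · intro b hb
      rw [Finset.mem_filter, ag_succ, ha] at hb
      rw [Finset.mem_filter, fl_same, ag_fl_iff', ← hb.2.2]
      exact ⟨Finset.mem_univ _, rfl, hb.2.1⟩
    · intro b hb
      rw [Finset.mem_filter] at hb
      rw [Finset.mem_filter, ag_succ, fl_same, ag_fl_iff', ha, hb.2.1]
      exact ⟨Finset.mem_univ _, hb.2.2, rfl⟩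
    · intro b _
      exact fl_fl i b
    · intro b _
      exact fl_fl i b
    · intro b hb
      rw [Finset.mem_filter, ag_succ, ha] at hb
      have h2 : fl i b i = false := by rw [fl_same, ← hb.2.2]; rfl
      rw [← nz_eq i H φ h f k (fl i b) h2, fl_fl]
      ring

/-- restriction to the first letters -/
def rst (i : Fin m) (a : Cl m) : Fin (i : ℕ) → Bool := fun j => a (Fin.castLE i.2.le j)

/-- extension of a short word -/
def ext (i : Fin m) (p : Fin (i : ℕ) → Bool) : Cl m := fun j =>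
  if h : (j : ℕ) < i then p ⟨j, h⟩ else false

theorem ag_ext (i : Fin m) (a : Cl m) : ag i (ext i (rst i a)) a := by
  intro j hj
  unfold ext rst
  rw [dif_pos hj]
  rfl

/-- the sign functions -/
noncomputable def sn (i : Fin m) (τ : (Fin (i : ℕ) → Bool) → Bool) (a : Cl m) : ℝ :=
  if τ (rst i a) = true then 1 else -1

theorem sn_sq (i : Fin m) (τ : (Fin (i : ℕ) → Bool) → Bool) (a : Cl m) : sn i τ a ^ 2 = 1 := by
  unfold sn
  split_ifs <;> norm_num

theorem sn_ag (i : Fin m) (τ : (Fin (i : ℕ) → Bool) → Bool) (a b : Cl m) (h : ag i a b) :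
    sn i τ a = sn i τ b := by
  unfold sn
  have : rst i a = rst i b := by
    funext j
    exact h _ j.2
  rw [this]

theorem Zc_ag (i : Fin m) (H : SimpleGraph V) (φ : V → V → Cl m) (h : PEC H φ)
    (f : Cl m × V → Fin 2) (k : V → ℝ) (a a' : Cl m) (haa : ag i a a') :
    Zc i H φ h f k a = Zc i H φ h f k a' := by
  unfold Zc
  refine Finset.sum_congr ?_ fun _ _ => rfl
  ext b
  rw [Finset.mem_filter, Finset.mem_filter]
  refine and_congr_right fun _ => and_congr_right fun _ => ?_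
  exact ⟨fun h => ag_trans (ag_symm haa) h, fun h => ag_trans haa h⟩

theorem exists_sign (i : Fin m) (H : SimpleGraph V) (φ : V → V → Cl m) (h : PEC H φ)
    (f : Cl m × V → Fin 2) (k : V → ℝ) :
    ∃ τ, ∀ a, |Zc i H φ h f k a| = sn i τ a * Zc i H φ h f k a := by
  refine ⟨fun p => decide (0 ≤ Zc i H φ h f k (ext i p)), fun a => ?_⟩
  have h0 := Zc_ag i H φ h f k _ _ (ag_ext i a)
  unfold sn
  by_cases h1 : 0 ≤ Zc i H φ h f k (ext i (rst i a))
  · rw [if_pos (decide_eq_true h1), one_mul, abs_of_nonneg (h0 ▸ h1)]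
  · have h2 : ¬ decide (0 ≤ Zc i H φ h f k (ext i (rst i a))) = true :=
      fun h2 => h1 (of_decide_eq_true h2)
    rw [if_neg h2, abs_of_neg (h0 ▸ not_le.1 h1)]
    ring

/-- coefficients of the event of a real test function -/
noncomputable def cT (i : Fin m) (H : SimpleGraph V) (φ : V → V → Cl m) (h : PEC H φ)
    (k : V → ℝ) (τ : (Fin (i : ℕ) → Bool) → Bool) (p : Cl m × V) : ℝ :=
  if p.1 i = false then sn i τ p.1 * cf i H φ h k p.1 p.2 else 0

theorem sum_abs_Zc (i : Fin m) (H : SimpleGraph V) (φ : V → V → Cl m) (h : PEC H φ)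
    (f : Cl m × V → Fin 2) (k : V → ℝ) (τ : (Fin (i : ℕ) → Bool) → Bool)
    (hτ : ∀ a, |Zc i H φ h f k a| = sn i τ a * Zc i H φ h f k a) :
    ∑ a, |Zc i H φ h f k a| = 2 ^ m / 2 ^ (i : ℕ) * ∑ p, sg (f p) * cT i H φ h k τ p := by
  have h1 : ∑ p : Cl m × V, sg (f p) * cT i H φ h k τ p =
      ∑ b ∈ univ.filter (fun b : Cl m => b i = false), sn i τ b * nz i H φ h f k b := by
    rw [Fintype.sum_prod_type, Finset.sum_filter]
    refine Finset.sum_congr rfl fun b _ => ?_
    unfold cT nz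
    by_cases hb : b i = false
    · simp only [if_pos hb]
      rw [Finset.mul_sum]
      exact Finset.sum_congr rfl fun R _ => by ring
    · simp only [if_neg hb, mul_zero, Finset.sum_const_zero]
  rw [h1, Finset.sum_congr rfl fun a _ => hτ a, Finset.mul_sum]
  have h2 : ∀ a : Cl m, sn i τ a * Zc i H φ h f k a =
      ∑ b : Cl m, if b i = false ∧ ag i a b then sn i τ b * nz i H φ h f k b else 0 := by
    intro a
    unfold Zc
    rw [Finset.mul_sum, Finset.sum_filter]
    refine Finset.sum_congr rfl fun b _ => ?_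
    by_cases hb : b i = false ∧ ag i a b
    · rw [if_pos hb, if_pos hb, sn_ag i τ a b hb.2]
    · rw [if_neg hb, if_neg hb]
  rw [Finset.sum_congr rfl fun a _ => h2 a, Finset.sum_comm, Finset.sum_filter]
  refine Finset.sum_congr rfl fun b _ => ?_
  by_cases hb : b i = false
  · rw [if_pos hb, ← Finset.sum_filter, Finset.sum_const, nsmul_eq_mul]
    congr 1
    rw [← card_class (i : ℕ) i.2.le b]
    congr 2
    ext a
    rw [Finset.mem_filter, Finset.mem_filter]
    exact and_congr_right fun _ => ⟨fun h => ag_symm h.2, fun h => ⟨hb, ag_symm h⟩⟩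
  · rw [if_neg hb]
    refine Finset.sum_eq_zero fun a _ => ?_
    rw [if_neg fun h => hb h.1]

/-- the total square weight -/
noncomputable def K2 (H : SimpleGraph V) (φ : V → V → Cl m) (k : V → ℝ) : ℝ :=
  ∑ v, k v ^ 2 * ((mis H φ v).card : ℝ)

omit [Fintype V] in
theorem sum_xm (H : SimpleGraph V) (φ : V → V → Cl m) (v : V) :
    ∑ b, xm H φ b v = ((mis H φ v).card : ℝ) := by
  unfold xm
  rw [← Finset.sum_filter, Finset.sum_const, nsmul_eq_mul, mul_one]
  congr 2
  ext b
  rw [Finset.mem_filter]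
  exact ⟨fun h => h.2, fun h => ⟨Finset.mem_univ _, h⟩⟩

theorem sum_wt (H : SimpleGraph V) (φ : V → V → Cl m) (k : V → ℝ) :
    ∑ b, wt H φ k b = ∑ v, k v * ((mis H φ v).card : ℝ) := by
  rw [Finset.sum_congr rfl fun b _ => wt_eq H φ k b, Finset.sum_comm]
  refine Finset.sum_congr rfl fun v _ => ?_
  rw [← Finset.mul_sum, sum_xm]

theorem cT_sq (i : Fin m) (H : SimpleGraph V) (φ : V → V → Cl m) (h : PEC H φ)
    (k : V → ℝ) (τ : (Fin (i : ℕ) → Bool) → Bool) :
    ∑ p, cT i H φ h k τ p ^ 2 ≤ 2 * K2 H φ k := by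
  have h1 : ∑ p : Cl m × V, cT i H φ h k τ p ^ 2 =
      ∑ b ∈ univ.filter (fun b : Cl m => b i = false), ∑ R, cf i H φ h k b R ^ 2 := by
    rw [Fintype.sum_prod_type, Finset.sum_filter]
    refine Finset.sum_congr rfl fun b _ => ?_
    unfold cT
    by_cases hb : b i = false
    · simp only [if_pos hb]
      refine Finset.sum_congr rfl fun R _ => ?_
      rw [mul_pow, sn_sq, one_mul]
    · simp only [if_neg hb]
      simp
  rw [h1]
  refine (Finset.sum_le_sum fun b _ => cf_sum_sq i H φ h k b).trans ?_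
  rw [← Finset.mul_sum, sum_half' i (fun b => wt H φ (fun v => k v ^ 2) b), sum_wt]
  exact le_of_eq rfl

/-- coefficients of the event of a class -/
noncomputable def cY (i : Fin m) (H : SimpleGraph V) (φ : V → V → Cl m) (h : PEC H φ)
    (k : V → ℝ) (a : Cl m) (p : Cl m × V) : ℝ :=
  if p.1 i = false ∧ ag i a p.1 then cf i H φ h k p.1 p.2 else 0

theorem Zc_cY (i : Fin m) (H : SimpleGraph V) (φ : V → V → Cl m) (h : PEC H φ)
    (f : Cl m × V → Fin 2) (k : V → ℝ) (a : Cl m) :
    Zc i H φ h f k a = ∑ p, sg (f p) * cY i H φ h k a p := by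
  unfold Zc
  rw [Fintype.sum_prod_type, Finset.sum_filter]
  refine Finset.sum_congr rfl fun b _ => ?_
  unfold cY nz
  by_cases hb : b i = false ∧ ag i a b
  · simp only [if_pos hb]
  · simp only [if_neg hb, mul_zero, Finset.sum_const_zero]

theorem cY_sq (i : Fin m) (H : SimpleGraph V) (φ : V → V → Cl m) (h : PEC H φ)
    (k : V → ℝ) (a : Cl m) (hk0 : ∀ v, 0 ≤ k v) (hk1 : ∀ v, k v ≤ 1) :
    ∑ p, cY i H φ h k a p ^ 2 ≤ 2 * cs H φ k i a := by
  have h1 : ∑ p : Cl m × V, cY i H φ h k a p ^ 2 =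
      ∑ b ∈ univ.filter (fun b : Cl m => b i = false ∧ ag i a b), ∑ R, cf i H φ h k b R ^ 2 := by
    rw [Fintype.sum_prod_type, Finset.sum_filter]
    refine Finset.sum_congr rfl fun b _ => ?_
    unfold cY
    by_cases hb : b i = false ∧ ag i a b
    · simp only [if_pos hb]
    · simp only [if_neg hb]
      simp
  rw [h1]
  refine (Finset.sum_le_sum fun b _ => cf_sum_sq i H φ h k b).trans ?_
  rw [← Finset.mul_sum, sum_half i (fun b => ag i a b) (fun b => ag_fl_iff' i a b)
    (fun b => wt H φ (fun v => k v ^ 2) b)]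
  refine mul_le_mul_of_nonneg_left ?_ (by norm_num)
  refine Finset.sum_le_sum fun b _ => ?_
  rw [wt_eq, wt_eq]
  refine Finset.sum_le_sum fun v _ => ?_
  refine mul_le_mul_of_nonneg_right ?_ (xm_nonneg _ _ _ _)
  nlinarith [hk0 v, hk1 v]

/-- scope of the events of a test function -/
noncomputable def QT (i : Fin m) (H : SimpleGraph V) (φ : V → V → Cl m) (h : PEC H φ)
    (k : V → ℝ) : Finset (Cl m × V) :=
  univ.filter (fun p => p.1 i = false ∧ ∃ v ∈ ends i H φ h p.1 p.2, k v ≠ 0)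

theorem cf_zero (i : Fin m) (H : SimpleGraph V) (φ : V → V → Cl m) (h : PEC H φ)
    (k : V → ℝ) (p : Cl m × V) (hp : p ∉ QT i H φ h k) (hb : p.1 i = false) :
    cf i H φ h k p.1 p.2 = 0 := by
  rw [cf_ends]
  refine Finset.sum_eq_zero fun v hv => ?_
  have : k v = 0 := by
    by_contra h1
    exact hp (Finset.mem_filter.2 ⟨Finset.mem_univ _, hb, v, hv, h1⟩)
  rw [this, zero_mul]

theorem QT_card (i : Fin m) (H : SimpleGraph V) (φ : V → V → Cl m) (h : PEC H φ)
    (k : V → ℝ) (K0 S : ℕ) (hk0 : ∀ v, k v ≠ 0 → (mis H φ v).card ≤ K0)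
    (hk1 : (univ.filter (fun v => k v ≠ 0)).card ≤ S) : (QT i H φ h k).card ≤ S * K0 := by
  have h1 : QT i H φ h k ⊆ (univ.filter (fun v => k v ≠ 0)).biUnion
      (fun v => (mis H φ v).image (fun β => (b0 i β, rp i H φ h (b0 i β) v))) := by
    intro p hp
    obtain ⟨hb, v, hv, hkv⟩ := (Finset.mem_filter.1 hp).2
    obtain ⟨hr, hd⟩ := (Finset.mem_filter.1 hv).2
    refine Finset.mem_biUnion.2 ⟨v, Finset.mem_filter.2 ⟨Finset.mem_univ _, hkv⟩, ?_⟩
    rw [Finset.mem_image]
    by_cases h2 : p.1 ∈ mis H φ v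
    · refine ⟨p.1, h2, ?_⟩
      rw [b0_false i p.1 hb, hr]
    · by_cases h3 : fl i p.1 ∈ mis H φ v
      · refine ⟨fl i p.1, h3, ?_⟩
        rw [b0_fl, b0_false i p.1 hb, hr]
      · exfalso
        apply hd
        unfold dx xm
        rw [if_neg h2, if_neg h3, sub_zero]
  refine (Finset.card_le_card h1).trans (Finset.card_biUnion_le.trans ?_)
  refine (Finset.sum_le_sum (g := fun _ => K0) fun v hv => ?_).trans ?_
  · exact Finset.card_image_le.trans (hk0 v (Finset.mem_filter.1 hv).2)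
  · rw [Finset.sum_const, smul_eq_mul]
    exact Nat.mul_le_mul_right _ hk1

theorem QT_deg (i : Fin m) (H : SimpleGraph V) (φ : V → V → Cl m) (h : PEC H φ)
    {I : Type u} [Fintype I] (k : I → V → ℝ) (L : ℕ)
    (hk2 : ∀ v, (univ.filter (fun r => k r v ≠ 0)).card ≤ L) (p : Cl m × V) :
    (univ.filter (fun r => p ∈ QT i H φ h (k r))).card ≤ 2 * L := by
  have h1 : univ.filter (fun r => p ∈ QT i H φ h (k r)) ⊆
      (ends i H φ h p.1 p.2).biUnion (fun v => univ.filter (fun r => k r v ≠ 0)) := by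
    intro r hr
    obtain ⟨_, v, hv, hkv⟩ := (Finset.mem_filter.1 (Finset.mem_filter.1 hr).2).2
    exact Finset.mem_biUnion.2 ⟨v, hv, Finset.mem_filter.2 ⟨Finset.mem_univ _, hkv⟩⟩
  refine (Finset.card_le_card h1).trans (Finset.card_biUnion_le.trans ?_)
  refine (Finset.sum_le_sum (g := fun _ => L) fun v _ => hk2 v).trans ?_
  rw [Finset.sum_const, smul_eq_mul]
  exact Nat.mul_le_mul_right _ (ends_le i H φ h p.1 p.2)

end level

end Pool.Agent.Work.MP_db9399_tk
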