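import Pool.Agent.Work.MP_db9399_tk_helper59.Step

/-!
# MP_db9399, all scales: smoothing of the tokens of an edge colouring by Kempe coins, part 5

All levels.
-/

set_option autoImplicit false

namespace Pool.Agent.Work.MP_db9399_tk

open Finset Classical

universe u v

section smooth
variable {V : Type u} [Fintype V] {m : ℕ}

theorem mis_card_eq {C : Type v} [Fintype C] (H : SimpleGraph V) (φ φ' : V → V → C) (h : PEC H φ)
    (h' : PEC H φ') (v : V) : (mis H φ' v).card = (mis H φ v).card := by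
  have h1 := card_mis H φ h v
  have h2 := card_mis H φ' h' v
  omega

theorem K2_eq (H : SimpleGraph V) (φ φ' : V → V → Cl m) (h : PEC H φ) (h' : PEC H φ')
    (k : V → ℝ) : K2 H φ' k = K2 H φ k := by
  unfold K2
  refine Finset.sum_congr rfl fun v _ => ?_
  rw [mis_card_eq H φ φ' h h' v]

theorem cs_zero (H : SimpleGraph V) (φ : V → V → Cl m) (k : V → ℝ) (a : Cl m) :
    cs H φ k 0 a = ∑ v, k v * ((mis H φ v).card : ℝ) := by
  unfold cs
  rw [Finset.filter_true_of_mem fun b _ => ag_zero a b, sum_wt]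

theorem cs_full (H : SimpleGraph V) (φ : V → V → Cl m) (k : V → ℝ) (a : Cl m) :
    cs H φ k m a = wt H φ k a := by
  unfold cs
  have : univ.filter (fun b => ag m a b) = {a} := by
    ext b
    rw [Finset.mem_filter, Finset.mem_singleton, ag_full]
    exact ⟨fun h => h.2.symm, fun h => ⟨Finset.mem_univ _, h.symm⟩⟩
  rw [this, Finset.sum_singleton]

/-- recursion for the multiplicities -/
theorem sqrt_step (x y Λ A : ℝ) (hx : 0 ≤ x) (hΛ : 0 ≤ Λ)
    (hy : y ≤ 1 / 2 * x + Real.sqrt (Λ * x))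
    (hxA : Real.sqrt x ≤ A + (1 + Real.sqrt 2) * Real.sqrt Λ) :
    Real.sqrt y ≤ A / Real.sqrt 2 + (1 + Real.sqrt 2) * Real.sqrt Λ := by
  have h2 : 0 < Real.sqrt 2 := Real.sqrt_pos.2 (by norm_num)
  have h22 : Real.sqrt 2 ^ 2 = 2 := Real.sq_sqrt (by norm_num)
  have hsx := Real.sqrt_nonneg x
  have hsL := Real.sqrt_nonneg Λ
  have h3 : y ≤ ((Real.sqrt x + Real.sqrt Λ) / Real.sqrt 2) ^ 2 := by
    rw [div_pow, h22, add_sq, Real.sq_sqrt hx, Real.sq_sqrt hΛ]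
    rw [Real.sqrt_mul hΛ] at hy
    nlinarith
  have h4 : Real.sqrt y ≤ (Real.sqrt x + Real.sqrt Λ) / Real.sqrt 2 := by
    refine (Real.sqrt_le_sqrt h3).trans (le_of_eq ?_)
    exact Real.sqrt_sq (by positivity)
  refine h4.trans ?_
  rw [div_le_iff₀ h2, add_mul, div_mul_cancel₀ _ h2.ne']
  have h5 : (1 + Real.sqrt 2) * Real.sqrt Λ * Real.sqrt 2 =
      (Real.sqrt 2 + 2) * Real.sqrt Λ := by
    have : (1 + Real.sqrt 2) * Real.sqrt Λ * Real.sqrt 2 =
      (Real.sqrt 2 + Real.sqrt 2 ^ 2) * Real.sqrt Λ := by ring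
    rw [this, h22]
  rw [h5]
  linarith

/-- sum of the noises -/
theorem noise_sum (K Λ : ℝ) (hK : 0 ≤ K) (hΛ : 0 ≤ Λ) (n : ℕ) :
    ∑ j ∈ range n, Real.sqrt (4 * K * (2 ^ j * Real.log 2 + Λ)) ≤
      Real.sqrt K * (5 * Real.sqrt (2 ^ n) + 2 * n * Real.sqrt Λ) := by
  have hsK := Real.sqrt_nonneg K
  have hsL := Real.sqrt_nonneg Λ
  have hlog0 : 0 < Real.log 2 := Real.log_pos (by norm_num)
  have hlog1 : Real.log 2 < 0.6931471808 := Real.log_two_lt_d9
  have h2 : 0 < Real.sqrt 2 := Real.sqrt_pos.2 (by norm_num)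
  have h22 : Real.sqrt 2 ^ 2 = 2 := Real.sq_sqrt (by norm_num)
  have h23 : (1.4142 : ℝ) ≤ Real.sqrt 2 := Real.le_sqrt_of_sq_le (by norm_num)
  have hl : Real.sqrt (Real.log 2) ≤ 0.8326 := by
    rw [Real.sqrt_le_left (by norm_num)]
    refine hlog1.le.trans ?_
    norm_num
  have hl0 := Real.sqrt_nonneg (Real.log 2)
  have h1 : ∀ j : ℕ, Real.sqrt (4 * K * (2 ^ j * Real.log 2 + Λ)) ≤
      2 * Real.sqrt K * (Real.sqrt (2 ^ j) * Real.sqrt (Real.log 2) + Real.sqrt Λ) := by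
    intro j
    refine Real.sqrt_le_iff.2 ⟨by positivity, ?_⟩
    have h3 : (Real.sqrt (2 ^ j)) ^ 2 = 2 ^ j := Real.sq_sqrt (by positivity)
    have h4 := Real.sq_sqrt hK
    have h5 := Real.sq_sqrt hlog0.le
    have h6 := Real.sq_sqrt hΛ
    have h7 : 0 ≤ Real.sqrt (2 ^ j) * Real.sqrt (Real.log 2) * Real.sqrt Λ := by positivity
    calc 4 * K * (2 ^ j * Real.log 2 + Λ) =
        4 * Real.sqrt K ^ 2 * (Real.sqrt (2 ^ j) ^ 2 * Real.sqrt (Real.log 2) ^ 2 +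
          Real.sqrt Λ ^ 2) := by rw [h3, h4, h5, h6]
      _ ≤ (2 * Real.sqrt K * (Real.sqrt (2 ^ j) * Real.sqrt (Real.log 2) + Real.sqrt Λ)) ^ 2 := by
          have h8 : (2 * Real.sqrt K * (Real.sqrt (2 ^ j) * Real.sqrt (Real.log 2) +
              Real.sqrt Λ)) ^ 2 = 4 * Real.sqrt K ^ 2 * (Real.sqrt (2 ^ j) ^ 2 *
              Real.sqrt (Real.log 2) ^ 2 + Real.sqrt Λ ^ 2) + 8 * Real.sqrt K ^ 2 *
              (Real.sqrt (2 ^ j) * Real.sqrt (Real.log 2) * Real.sqrt Λ) := by ring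
          rw [h8]
          have : 0 ≤ 8 * Real.sqrt K ^ 2 *
              (Real.sqrt (2 ^ j) * Real.sqrt (Real.log 2) * Real.sqrt Λ) := by positivity
          linarith
  have h3 : ∀ n : ℕ, ∑ j ∈ range n, Real.sqrt (2 ^ j) ≤ 5 / 2 * Real.sqrt (2 ^ n) := by
    intro n
    induction n with
    | zero =>
      rw [Finset.range_zero, Finset.sum_empty]
      positivity
    | succ n ih =>
      rw [Finset.sum_range_succ]
      have h4 : Real.sqrt (2 ^ (n + 1)) = Real.sqrt (2 ^ n) * Real.sqrt 2 := by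
        rw [pow_succ, Real.sqrt_mul (by positivity)]
      rw [h4]
      have h5 := Real.sqrt_nonneg ((2 : ℝ) ^ n)
      nlinarith
  calc ∑ j ∈ range n, Real.sqrt (4 * K * (2 ^ j * Real.log 2 + Λ)) ≤
      ∑ j ∈ range n, 2 * Real.sqrt K *
        (Real.sqrt (2 ^ j) * Real.sqrt (Real.log 2) + Real.sqrt Λ) :=
        Finset.sum_le_sum fun j _ => h1 j
    _ = 2 * Real.sqrt K * (Real.sqrt (Real.log 2) * ∑ j ∈ range n, Real.sqrt (2 ^ j) +
        n * Real.sqrt Λ) := by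
      rw [← Finset.mul_sum, Finset.sum_add_distrib, Finset.sum_const, Finset.card_range,
        nsmul_eq_mul, ← Finset.sum_mul]
      ring
    _ ≤ 2 * Real.sqrt K * (0.8326 * (5 / 2 * Real.sqrt (2 ^ n)) + n * Real.sqrt Λ) := by
      refine mul_le_mul_of_nonneg_left (add_le_add_left (mul_le_mul hl (h3 n) ?_ (by norm_num)) _)
        (by positivity)
      exact Finset.sum_nonneg fun j _ => Real.sqrt_nonneg _
    _ ≤ Real.sqrt K * (5 * Real.sqrt (2 ^ n) + 2 * n * Real.sqrt Λ) := by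
      have h5 := mul_nonneg hsK (Real.sqrt_nonneg ((2 : ℝ) ^ n))
      nlinarith

/-- all levels -/
theorem levels (H : SimpleGraph V) (φ : V → V → Cl m) (h : PEC H φ)
    {I J' : Type u} [Fintype I] [Fintype J'] (k : I → V → ℝ) (g : J' → V → ℝ) (K0 S L : ℕ)
    (Λ : ℝ) (hK : ∀ r v, k r v ≠ 0 → (mis H φ v).card ≤ K0)
    (hK' : ∀ j v, g j v ≠ 0 → (mis H φ v).card ≤ K0)
    (hS : ∀ r, (univ.filter (fun v => k r v ≠ 0)).card ≤ S)
    (hS' : ∀ j, (univ.filter (fun v => g j v ≠ 0)).card ≤ S)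
    (hL : ∀ v, (univ.filter (fun r => k r v ≠ 0)).card ≤ L)
    (hL' : ∀ v, (univ.filter (fun j => g j v ≠ 0)).card ≤ L)
    (hg0 : ∀ j v, 0 ≤ g j v) (hg1 : ∀ j v, g j v ≤ 1) (hL1 : 1 ≤ L) (hΛ0 : 0 ≤ Λ)
    (hΛ : 32 * ((S : ℝ) * K0 + 1) * L * (2 ^ m + 1) ≤ Real.exp Λ) (i : ℕ) (hi : i ≤ m) :
    ∃ φ' : V → V → Cl m, PEC H φ' ∧
      (∀ r, ∑ a, |cs H φ' (k r) i a - (∑ v, k r v * ((mis H φ v).card : ℝ)) / 2 ^ i| ≤
        2 ^ m / 2 ^ i * ∑ j ∈ range i, Real.sqrt (4 * K2 H φ (k r) * (2 ^ j * Real.log 2 + Λ))) ∧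
      ∀ j a, Real.sqrt (cs H φ' (g j) i a) ≤
        Real.sqrt ((∑ v, g j v * ((mis H φ v).card : ℝ)) / 2 ^ i) +
          (1 + Real.sqrt 2) * Real.sqrt Λ := by
  induction i with
  | zero =>
    refine ⟨φ, h, fun r => ?_, fun j a => ?_⟩
    · rw [Finset.range_zero, Finset.sum_empty, mul_zero]
      refine le_of_eq (Finset.sum_eq_zero fun a _ => ?_)
      rw [cs_zero, pow_zero, div_one, sub_self, abs_zero]
    · rw [cs_zero, pow_zero, div_one]
      have h1 := Real.sqrt_nonneg Λ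
      have h2 := Real.sqrt_nonneg 2
      have : 0 ≤ (1 + Real.sqrt 2) * Real.sqrt Λ := by positivity
      linarith
  | succ i ih =>
    obtain ⟨φ', h', h1, h2⟩ := ih (by omega)
    have hm : ∀ v, (mis H φ' v).card = (mis H φ v).card := mis_card_eq H φ φ' h h'
    obtain ⟨f, h3, h4⟩ := level (⟨i, by omega⟩ : Fin m) H φ' h' k g K0 S L Λ
      (fun r v hv => by rw [hm v]; exact hK r v hv) (fun j v hv => by rw [hm v]; exact hK' j v hv)
      hS hS' hL hL' hg0 hg1 hL1 hΛ0 hΛ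
    refine ⟨nw (⟨i, by omega⟩ : Fin m) H φ' h' f, nw_pec _ H φ' h' f, fun r => ?_, fun j a => ?_⟩
    · set Wr := ∑ v, k r v * ((mis H φ v).card : ℝ) with hWr
      have h5 := h3 r
      rw [K2_eq H φ φ' h h' (k r)] at h5
      have h6 := h1 r
      have h7 : ∀ a, |cs H (nw (⟨i, by omega⟩ : Fin m) H φ' h' f) (k r) (i + 1) a -
          Wr / 2 ^ (i + 1)| ≤
          |cs H (nw (⟨i, by omega⟩ : Fin m) H φ' h' f) (k r) (i + 1) a -
            1 / 2 * cs H φ' (k r) i a| + 1 / 2 * |cs H φ' (k r) i a - Wr / 2 ^ i| := by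
        intro a
        have h8 : cs H (nw (⟨i, by omega⟩ : Fin m) H φ' h' f) (k r) (i + 1) a -
          Wr / 2 ^ (i + 1) = (cs H (nw (⟨i, by omega⟩ : Fin m) H φ' h' f) (k r) (i + 1) a -
            1 / 2 * cs H φ' (k r) i a) + 1 / 2 * (cs H φ' (k r) i a - Wr / 2 ^ i) := by
          rw [pow_succ]
          field_simp
          ring
        rw [h8]
        refine (abs_add_le _ _).trans (add_le_add_right (le_of_eq ?_) _)
        rw [abs_mul, abs_of_nonneg (by norm_num : (0 : ℝ) ≤ 1 / 2)]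
      refine (Finset.sum_le_sum fun a _ => h7 a).trans ?_
      rw [Finset.sum_add_distrib, ← Finset.mul_sum, Finset.sum_range_succ]
      have h9 : (2 : ℝ) ^ m / 2 ^ (i + 1) = 1 / 2 * (2 ^ m / 2 ^ i) := by
        rw [pow_succ]
        field_simp
      refine (add_le_add h5 (mul_le_mul_of_nonneg_left h6 (by norm_num : (0 : ℝ) ≤ 1 / 2))).trans
        (le_of_eq ?_)
      rw [h9]
      ring
    · set Gj := ∑ v, g j v * ((mis H φ v).card : ℝ) with hGj
      have hG0 : 0 ≤ Gj := Finset.sum_nonneg fun v _ => mul_nonneg (hg0 j v) (Nat.cast_nonneg _)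
      have h5 := (abs_le.1 (h4 j a)).2
      have h6 := sqrt_step (cs H φ' (g j) i a)
        (cs H (nw (⟨i, by omega⟩ : Fin m) H φ' h' f) (g j) (i + 1) a) Λ
        (Real.sqrt (Gj / 2 ^ i)) (cs_nonneg H φ' (g j) (hg0 j) i a) hΛ0
        (by linarith) (h2 j a)
      refine h6.trans (le_of_eq ?_)
      rw [← Real.sqrt_div (by positivity), pow_succ, div_div]

/-- **Token smoothing.** Any proper edge colouring by `2 ^ m` colours can be changed (same edges,
same number of missing colours at every vertex) such that every local test function sees the same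
weight of missing vertices in all colours, up to a total error of the order of the square root of
the number of colours. -/
theorem smooth (H : SimpleGraph V) (φ : V → V → Cl m) (h : PEC H φ)
    {I J' : Type u} [Fintype I] [Fintype J'] (k : I → V → ℝ) (g : J' → V → ℝ) (K0 S L : ℕ)
    (Λ : ℝ) (hK : ∀ r v, k r v ≠ 0 → (mis H φ v).card ≤ K0)
    (hK' : ∀ j v, g j v ≠ 0 → (mis H φ v).card ≤ K0)
    (hS : ∀ r, (univ.filter (fun v => k r v ≠ 0)).card ≤ S)
    (hS' : ∀ j, (univ.filter (fun v => g j v ≠ 0)).card ≤ S)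
    (hL : ∀ v, (univ.filter (fun r => k r v ≠ 0)).card ≤ L)
    (hL' : ∀ v, (univ.filter (fun j => g j v ≠ 0)).card ≤ L)
    (hg0 : ∀ j v, 0 ≤ g j v) (hg1 : ∀ j v, g j v ≤ 1) (hL1 : 1 ≤ L) (hΛ0 : 0 ≤ Λ)
    (hΛ : 32 * ((S : ℝ) * K0 + 1) * L * (2 ^ m + 1) ≤ Real.exp Λ) :
    ∃ φ' : V → V → Cl m, PEC H φ' ∧
      (∀ r, ∑ b, |wt H φ' (k r) b - (∑ v, k r v * ((mis H φ v).card : ℝ)) / 2 ^ m| ≤
        Real.sqrt (∑ v, k r v ^ 2 * ((mis H φ v).card : ℝ)) *
          (5 * Real.sqrt (2 ^ m) + 2 * m * Real.sqrt Λ)) ∧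
      ∀ j b, wt H φ' (g j) b ≤ 2 * (∑ v, g j v * ((mis H φ v).card : ℝ)) / 2 ^ m + 12 * Λ := by
  obtain ⟨φ', h', h1, h2⟩ := levels H φ h k g K0 S L Λ hK hK' hS hS' hL hL' hg0 hg1 hL1 hΛ0 hΛ
    m le_rfl
  refine ⟨φ', h', fun r => ?_, fun j b => ?_⟩
  · have h3 := h1 r
    simp only [cs_full] at h3
    refine h3.trans ?_
    rw [div_self (by positivity), one_mul]
    exact noise_sum (K2 H φ (k r)) Λ (K2_nonneg H φ (k r)) hΛ0 m
  · have h3 := h2 j b
    rw [cs_full] at h3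
    set Gj := ∑ v, g j v * ((mis H φ v).card : ℝ) with hGj
    have hG0 : 0 ≤ Gj := Finset.sum_nonneg fun v _ => mul_nonneg (hg0 j v) (Nat.cast_nonneg _)
    have hw : 0 ≤ wt H φ' (g j) b := by
      rw [wt_eq]
      exact Finset.sum_nonneg fun v _ => mul_nonneg (hg0 j v) (xm_nonneg _ _ _ _)
    have h4 : wt H φ' (g j) b ≤
        (Real.sqrt (Gj / 2 ^ m) + (1 + Real.sqrt 2) * Real.sqrt Λ) ^ 2 := by
      rw [← Real.sq_sqrt hw]
      exact pow_le_pow_left₀ (Real.sqrt_nonneg _) h3 2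
    have h5 : (Real.sqrt (Gj / 2 ^ m) + (1 + Real.sqrt 2) * Real.sqrt Λ) ^ 2 ≤
        2 * Real.sqrt (Gj / 2 ^ m) ^ 2 + 2 * ((1 + Real.sqrt 2) * Real.sqrt Λ) ^ 2 := by
      nlinarith [sq_nonneg (Real.sqrt (Gj / 2 ^ m) - (1 + Real.sqrt 2) * Real.sqrt Λ)]
    have h6 : Real.sqrt (Gj / 2 ^ m) ^ 2 = Gj / 2 ^ m := Real.sq_sqrt (by positivity)
    have h7 : ((1 + Real.sqrt 2) * Real.sqrt Λ) ^ 2 = (1 + Real.sqrt 2) ^ 2 * Λ := by
      rw [mul_pow, Real.sq_sqrt hΛ0]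
    have h8 : (1 + Real.sqrt 2) ^ 2 ≤ 6 := by
      have h9 : Real.sqrt 2 ≤ 1.415 := by
        rw [Real.sqrt_le_left (by norm_num)]
        norm_num
      have h10 := Real.sqrt_nonneg 2
      nlinarith
    rw [h6, h7] at h5
    have h9 := mul_le_mul_of_nonneg_right h8 hΛ0
    have h10 : 2 * Gj / 2 ^ m = 2 * (Gj / 2 ^ m) := by ring
    rw [h10]
    linarith

end smooth

end Pool.Agent.Work.MP_db9399_tk
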